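import Mathlib

/-!
Basic definitions (integral quaternions) for MP_06cce2_nt.
-/

namespace Pool.Agent.Lib.MP_06cce2_nt

open Quaternion

/-- the quaternion `a + b i + c j + d k` -/
def qm (a b c d : ℤ) : ℍ[ℤ] := ⟨a, b, c, d⟩

@[simp] theorem qm_re (a b c d : ℤ) : (qm a b c d).re = a := rfl
@[simp] theorem qm_imI (a b c d : ℤ) : (qm a b c d).imI = b := rfl
@[simp] theorem qm_imJ (a b c d : ℤ) : (qm a b c d).imJ = c := rfl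
@[simp] theorem qm_imK (a b c d : ℤ) : (qm a b c d).imK = d := rfl

theorem qm_eta (x : ℍ[ℤ]) : x = qm x.re x.imI x.imJ x.imK := rfl

/-- norm `5^a`, real part `1 mod 4`, even imaginary parts -/
def Lam (a : ℕ) (x : ℍ[ℤ]) : Prop :=
  normSq x = 5 ^ a ∧ x.re % 4 = 1 ∧ 2 ∣ x.imI ∧ 2 ∣ x.imJ ∧ 2 ∣ x.imK

/-- real part `c mod 4`, even imaginary parts -/
def Par (c : ℤ) (x : ℍ[ℤ]) : Prop :=
  x.re % 4 = c % 4 ∧ 2 ∣ x.imI ∧ 2 ∣ x.imJ ∧ 2 ∣ x.imK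

/-- two-adic condition: `z w = 2^s y` with `y` of type `mo` -/
def Fit (s : ℕ) (mo : ℤ) (w z : ℍ[ℤ]) : Prop :=
  ∃ y : ℍ[ℤ], z * w = (2 : ℍ[ℤ]) ^ s * y ∧ Par mo y

theorem dvd_iff (n : ℤ) (x : ℍ[ℤ]) :
    (n : ℍ[ℤ]) ∣ x ↔ n ∣ x.re ∧ n ∣ x.imI ∧ n ∣ x.imJ ∧ n ∣ x.imK := by
  constructor
  · rintro ⟨c, rfl⟩
    simp
  · rintro ⟨⟨a, ha⟩, ⟨b, hb⟩, ⟨c, hc⟩, ⟨d, hd⟩⟩
    exact ⟨qm a b c d, by ext <;> simp [*]⟩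

theorem dvd_mul_left' (n : ℤ) {x : ℍ[ℤ]} (y : ℍ[ℤ]) (h : (n : ℍ[ℤ]) ∣ x) :
    (n : ℍ[ℤ]) ∣ y * x := by
  obtain ⟨c, rfl⟩ := h
  refine ⟨y * c, ?_⟩
  rw [← mul_assoc, ← mul_assoc, Int.cast_comm n y]

theorem dvd_star (n : ℤ) {x : ℍ[ℤ]} (h : (n : ℍ[ℤ]) ∣ x) : (n : ℍ[ℤ]) ∣ star x := by
  rw [dvd_iff] at *
  simpa using h

theorem normSq_eq (x : ℍ[ℤ]) : normSq x = x.re ^ 2 + x.imI ^ 2 + x.imJ ^ 2 + x.imK ^ 2 :=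
  Quaternion.normSq_def' x

theorem star_mul_self' (x : ℍ[ℤ]) : star x * x = ((normSq x : ℤ) : ℍ[ℤ]) := by
  rw [Quaternion.star_mul_self]; rfl

theorem self_mul_star' (x : ℍ[ℤ]) : x * star x = ((normSq x : ℤ) : ℍ[ℤ]) := by
  rw [Quaternion.self_mul_star]; rfl

theorem Lam.one : Lam 0 (1 : ℍ[ℤ]) := by
  refine ⟨by simp, ?_, ?_, ?_, ?_⟩ <;> simp

theorem Par.mul {c d : ℤ} {x y : ℍ[ℤ]} (hx : Par c x) (hy : Par d y) : Par (c * d) (x * y) := by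
  obtain ⟨h1, ⟨a1, e1⟩, ⟨a2, e2⟩, ⟨a3, e3⟩⟩ := hx
  obtain ⟨g1, ⟨b1, f1⟩, ⟨b2, f2⟩, ⟨b3, f3⟩⟩ := hy
  refine ⟨?_, ?_, ?_, ?_⟩
  · have : (x * y).re = x.re * y.re + 4 * (-(a1 * b1 + a2 * b2 + a3 * b3)) := by
      simp [e1, e2, e3, f1, f2, f3]; ring
    rw [this, Int.add_mul_emod_self_left, Int.mul_emod, h1, g1, ← Int.mul_emod]
  · exact ⟨x.re * b1 + a1 * y.re + 2 * (a2 * b3) - 2 * (a3 * b2), by
      simp [e1, e2, e3, f1, f2, f3]; ring⟩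
  · exact ⟨x.re * b2 + a2 * y.re + 2 * (a3 * b1) - 2 * (a1 * b3), by
      simp [e1, e2, e3, f1, f2, f3]; ring⟩
  · exact ⟨x.re * b3 + a3 * y.re + 2 * (a1 * b2) - 2 * (a2 * b1), by
      simp [e1, e2, e3, f1, f2, f3]; ring⟩

theorem Par.star {c : ℤ} {x : ℍ[ℤ]} (hx : Par c x) : Par c (star x) := by
  obtain ⟨h1, h2, h3, h4⟩ := hx
  refine ⟨by simpa using h1, by simpa using h2, by simpa using h3, by simpa using h4⟩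

theorem Lam.par {a : ℕ} {x : ℍ[ℤ]} (h : Lam a x) : Par 1 x := h.2

theorem Lam.of {a : ℕ} {x : ℍ[ℤ]} (h : normSq x = 5 ^ a) (h' : Par 1 x) : Lam a x := ⟨h, h'⟩

theorem Lam.mul {a b : ℕ} {x y : ℍ[ℤ]} (hx : Lam a x) (hy : Lam b y) : Lam (a + b) (x * y) := by
  refine Lam.of ?_ ?_
  · rw [map_mul, hx.1, hy.1, pow_add]
  · simpa using hx.par.mul hy.par

theorem Lam.star {a : ℕ} {x : ℍ[ℤ]} (hx : Lam a x) : Lam a (star x) :=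
  Lam.of (by rw [Quaternion.normSq_star, hx.1]) hx.par.star

theorem Lam.pow {a : ℕ} {x : ℍ[ℤ]} (hx : Lam a x) (j : ℕ) : Lam (a * j) (x ^ j) := by
  induction j with
  | zero => simpa using Lam.one
  | succ j ih => rw [pow_succ, Nat.mul_succ]; exact ih.mul hx

end Pool.Agent.Lib.MP_06cce2_nt
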