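import Pool.Agent.Lib.MP_06cce2_nt.Defs

namespace Pool.Agent.Lib.MP_06cce2_nt

open Quaternion

private theorem fx_re (n : ℤ) (x : ℍ[ℤ]) : ((n : ℍ[ℤ]) * x).re = n * x.re := by simp

private theorem fx_imI (n : ℤ) (x : ℍ[ℤ]) : ((n : ℍ[ℤ]) * x).imI = n * x.imI := by simp

private theorem fx_imJ (n : ℤ) (x : ℍ[ℤ]) : ((n : ℍ[ℤ]) * x).imJ = n * x.imJ := by simp

private theorem fx_imK (n : ℤ) (x : ℍ[ℤ]) : ((n : ℍ[ℤ]) * x).imK = n * x.imK := by simp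

private theorem fx_two : (2 : ℍ[ℤ]) = ((2 : ℤ) : ℍ[ℤ]) := by norm_num

/-- The two-adic part: `2 ^ s` divides `star w * β * w` for purely imaginary `β`. -/
private theorem fx_sandwich {s : ℕ} {mo : ℤ} {w : ℍ[ℤ]} (hw : normSq w = 2 ^ s * mo)
    (hmo : mo % 2 = 1)
    (hprim : w.re % 2 = 1 ∨ w.imI % 2 = 1 ∨ w.imJ % 2 = 1 ∨ w.imK % 2 = 1) (b1 b2 b3 : ℤ) :
    ∃ p1 p2 p3 : ℤ, star w * qm 0 b1 b2 b3 * w = (2 : ℍ[ℤ]) ^ s * qm 0 p1 p2 p3 := by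
  obtain ⟨a, b, c, d, rfl⟩ : ∃ a b c d, w = qm a b c d := ⟨_, _, _, _, qm_eta w⟩
  rw [normSq_eq] at hw
  simp only [qm_re, qm_imI, qm_imJ, qm_imK] at hw hprim
  have e1 : star (qm a b c d) * qm 0 b1 b2 b3 * qm a b c d =
      qm 0 ((a ^ 2 + b ^ 2 - c ^ 2 - d ^ 2) * b1 + 2 * (b * c + a * d) * b2 + 2 * (b * d - a * c) * b3)
        (2 * (b * c - a * d) * b1 + (a ^ 2 - b ^ 2 + c ^ 2 - d ^ 2) * b2 + 2 * (c * d + a * b) * b3)
        (2 * (b * d + a * c) * b1 + 2 * (c * d - a * b) * b2 +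
          (a ^ 2 - b ^ 2 - c ^ 2 + d ^ 2) * b3) := by
    ext <;> simp <;> ring
  rw [e1]
  clear e1
  rcases s with _ | _ | s
  · exact ⟨_, _, _, by rw [pow_zero, one_mul]⟩
  · refine ⟨(mo - c ^ 2 - d ^ 2) * b1 + (b * c + a * d) * b2 + (b * d - a * c) * b3,
      (b * c - a * d) * b1 + (mo - b ^ 2 - d ^ 2) * b2 + (c * d + a * b) * b3,
      (b * d + a * c) * b1 + (c * d - a * b) * b2 + (mo - b ^ 2 - c ^ 2) * b3, ?_⟩
    have e2' : (2 : ℍ[ℤ]) ^ (0 + 1) = ((2 : ℤ) : ℍ[ℤ]) := by norm_num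
    rw [e2']
    ext
    · rw [fx_re]
      simp
    · rw [fx_imI]
      simp only [qm_imI]
      linear_combination b1 * hw
    · rw [fx_imJ]
      simp only [qm_imJ]
      linear_combination b2 * hw
    · rw [fx_imK]
      simp only [qm_imK]
      linear_combination b3 * hw
  · -- all coordinates are odd and `s = 0`
    have h4 : (4 : ℤ) ∣ a ^ 2 + b ^ 2 + c ^ 2 + d ^ 2 := by
      rw [hw]
      exact ⟨2 ^ s * mo, by ring⟩
    have hsq : ∀ t : ℤ, (t % 2 = 0 ∧ ∃ k, t ^ 2 = 4 * k) ∨ (t % 2 = 1 ∧ ∃ k, t ^ 2 = 8 * k + 1) := by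
      intro t
      rcases Int.emod_two_eq_zero_or_one t with h | h
      · left
        refine ⟨h, (t / 2) ^ 2, ?_⟩
        have : t = 2 * (t / 2) := by omega
        calc t ^ 2 = (2 * (t / 2)) ^ 2 := by rw [← this]
          _ = _ := by ring
      · right
        refine ⟨h, ?_⟩
        have h2 : t = 2 * (t / 2) + 1 := by omega
        obtain ⟨k, hk⟩ : (2 : ℤ) ∣ (t / 2) * (t / 2 + 1) := (Int.even_mul_succ_self (t / 2)).two_dvd
        refine ⟨k, ?_⟩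
        calc t ^ 2 = (2 * (t / 2) + 1) ^ 2 := by rw [← h2]
          _ = 4 * ((t / 2) * (t / 2 + 1)) + 1 := by ring
          _ = _ := by rw [hk]; ring
    have hodd : a % 2 = 1 ∧ b % 2 = 1 ∧ c % 2 = 1 ∧ d % 2 = 1 := by
      rcases hsq a with ⟨ha, ka, hka⟩ | ⟨ha, ka, hka⟩ <;>
      rcases hsq b with ⟨hb, kb, hkb⟩ | ⟨hb, kb, hkb⟩ <;>
      rcases hsq c with ⟨hc, kc, hkc⟩ | ⟨hc, kc, hkc⟩ <;>
      rcases hsq d with ⟨hd, kd, hkd⟩ | ⟨hd, kd, hkd⟩ <;>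
      first
      | exact ⟨ha, hb, hc, hd⟩
      | (exfalso; rw [hka, hkb, hkc, hkd] at h4; omega)
    obtain ⟨ha, hb, hc, hd⟩ := hodd
    have hs0 : s = 0 := by
      by_contra hs
      obtain ⟨r, rfl⟩ := Nat.exists_eq_succ_of_ne_zero hs
      rcases hsq a with ⟨ha', ka, hka⟩ | ⟨-, ka, hka⟩
      · omega
      rcases hsq b with ⟨hb', kb, hkb⟩ | ⟨-, kb, hkb⟩
      · omega
      rcases hsq c with ⟨hc', kc, hkc⟩ | ⟨-, kc, hkc⟩
      · omega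
      rcases hsq d with ⟨hd', kd, hkd⟩ | ⟨-, kd, hkd⟩
      · omega
      have h8 : (8 : ℤ) ∣ a ^ 2 + b ^ 2 + c ^ 2 + d ^ 2 := by
        rw [hw]
        exact ⟨2 ^ r * mo, by rw [Nat.succ_eq_add_one]; ring⟩
      rw [hka, hkb, hkc, hkd] at h8
      omega
    subst hs0
    obtain ⟨a', rfl⟩ : ∃ a', a = 2 * a' + 1 := ⟨a / 2, by omega⟩
    obtain ⟨b', rfl⟩ : ∃ b', b = 2 * b' + 1 := ⟨b / 2, by omega⟩
    obtain ⟨c', rfl⟩ : ∃ c', c = 2 * c' + 1 := ⟨c / 2, by omega⟩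
    obtain ⟨d', rfl⟩ : ∃ d', d = 2 * d' + 1 := ⟨d / 2, by omega⟩
    have q1 : ∀ u v : ℤ, (2 * u + 1) ^ 2 - (2 * v + 1) ^ 2 = 4 * (u ^ 2 + u - v ^ 2 - v) := by
      intro u v; ring
    refine ⟨((a' ^ 2 + a') + (b' ^ 2 + b') - (c' ^ 2 + c') - (d' ^ 2 + d')) * b1 +
        (2 * b' * c' + b' + c' + 2 * a' * d' + a' + d' + 1) * b2 +
        (2 * b' * d' + b' + d' - (2 * a' * c' + a' + c')) * b3,
      (2 * b' * c' + b' + c' - (2 * a' * d' + a' + d')) * b1 +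
        ((a' ^ 2 + a') - (b' ^ 2 + b') + (c' ^ 2 + c') - (d' ^ 2 + d')) * b2 +
        (2 * c' * d' + c' + d' + 2 * a' * b' + a' + b' + 1) * b3,
      (2 * b' * d' + b' + d' + 2 * a' * c' + a' + c' + 1) * b1 +
        (2 * c' * d' + c' + d' - (2 * a' * b' + a' + b')) * b2 +
        ((a' ^ 2 + a') - (b' ^ 2 + b') - (c' ^ 2 + c') + (d' ^ 2 + d')) * b3, ?_⟩
    have e4 : (2 : ℍ[ℤ]) ^ (0 + 1 + 1) = ((4 : ℤ) : ℍ[ℤ]) := by norm_num
    rw [e4]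
    ext
    · rw [fx_re]
      simp
    · rw [fx_imI]
      simp only [qm_imI]
      ring
    · rw [fx_imJ]
      simp only [qm_imJ]
      ring
    · rw [fx_imK]
      simp only [qm_imK]
      ring

/-- Proof. Write `h = a0 + 2 β` (`β` purely imaginary integral, `a0 ≡ 1 mod 4`), `m = N(w) = 2^s mo`.
(1) `star w * h * w = a0 m + 2 star w β w`, and `2^s ∣ star w β w` (a purely imaginary
quaternion): the matrix of `β ↦ star w β w` has diagonal entries like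
`w0^2 + w1^2 - w2^2 - w3^2 ≡ m mod 2` and off-diagonal entries `2 (w1 w2 ± w0 w3)`; if `s = 1`
all are even; if `s = 2` all `w_i` are odd (`m ≡ 4 mod 8` needs this, as `w` has an odd
coordinate) and the entries are divisible by 4; `s ≥ 3` is impossible. So
`star w * h * w = a0 m + 2^(s+1) π`, `π` purely imaginary integral.
(2) Let `z w = 2^s y`. `m (z h w) = z w (star w h w) = 2^s y (a0 m + 2^(s+1) π)`
`= 4^s y (a0 mo + 2 π)`, so `mo (z h w) = 2^s y (a0 mo + 2 π)`.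
(3) Put `W = star h * z * h * w`: `mo W = 2^s star h * y * (a0 mo + 2 π)`, so `2^s ∣ W` (`mo` odd),
and `mo ∣ W` by `hd`; so `W = m x` (coprime). And `mo^2 x = star h * y * (a0 mo + 2 π)`, whose
right side is `Par (1 * mo * (a0 mo))` by `Par.mul`, so `Par 1 (mo^2 x)`, and `mo^2 ≡ 1 mod 8`,
so `Par 1 x`.
(4) `N(x) = N(W) / m^2 = 5^a (m Q) 5^a m / m^2 = 5^(2a) Q`.
(5) `x * star w = W star w / m = star h * z * h`, whose real part is `N(h) Re z = 5^a z.re`. -/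
theorem final_x {s : ℕ} {mo Q : ℤ} {w z h : ℍ[ℤ]} {a : ℕ} (hw : normSq w = 2 ^ s * mo)
    (hmo : mo % 2 = 1) (hmo0 : 0 < mo)
    (hprim : w.re % 2 = 1 ∨ w.imI % 2 = 1 ∨ w.imJ % 2 = 1 ∨ w.imK % 2 = 1)
    (hh : Lam a h) (hz : normSq z = normSq w * Q) (hfit : Fit s mo w z)
    (hd : (mo : ℍ[ℤ]) ∣ z * h * w) :
    ∃ x : ℍ[ℤ], Par 1 x ∧ normSq x = 5 ^ (2 * a) * Q ∧ (x * star w).re = 5 ^ a * z.re := by
  obtain ⟨hN, h0, ⟨b1, e1⟩, ⟨b2, e2⟩, ⟨b3, e3⟩⟩ := hh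
  obtain ⟨y, hy, hyP⟩ := hfit
  obtain ⟨p1, p2, p3, hp⟩ := fx_sandwich hw hmo hprim b1 b2 b3
  have hm0 : (normSq w : ℤ) ≠ 0 := by
    rw [hw]
    exact mul_ne_zero (pow_ne_zero _ two_ne_zero) hmo0.ne'
  have hmH : ((normSq w : ℤ) : ℍ[ℤ]) = (2 : ℍ[ℤ]) ^ s * (mo : ℍ[ℤ]) := by
    rw [hw]; push_cast; rfl
  have hmH0 : ((normSq w : ℤ) : ℍ[ℤ]) ≠ 0 := by
    intro h
    apply hm0
    have h' := congrArg (fun q : ℍ[ℤ] => q.re) h
    simpa using h'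
  have h2H : (2 : ℍ[ℤ]) ^ s ≠ 0 := by
    intro h
    rw [hmH, h, zero_mul] at hmH0
    exact hmH0 rfl
  have hmoH : (mo : ℍ[ℤ]) ≠ 0 := by
    intro h
    rw [hmH, h, mul_zero] at hmH0
    exact hmH0 rfl
  have hc2 : ∀ (x : ℍ[ℤ]), x * (2 : ℍ[ℤ]) ^ s = (2 : ℍ[ℤ]) ^ s * x := by
    intro x
    have := (Int.cast_commute ((2 : ℤ) ^ s) x).eq
    push_cast at this
    exact this.symm
  have hcm : ∀ (n : ℤ) (x : ℍ[ℤ]), x * (n : ℍ[ℤ]) = (n : ℍ[ℤ]) * x := by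
    intro n x
    exact (Int.cast_commute n x).eq.symm
  -- `h = a0 + 2 β`
  have hdec : h = ((h.re : ℤ) : ℍ[ℤ]) + (2 : ℍ[ℤ]) * qm 0 b1 b2 b3 := by
    ext
    · rw [Quaternion.re_add, fx_two, fx_re]
      simp
    · rw [Quaternion.imI_add, fx_two, fx_imI]
      simp [e1]
    · rw [Quaternion.imJ_add, fx_two, fx_imJ]
      simp [e2]
    · rw [Quaternion.imK_add, fx_two, fx_imK]
      simp [e3]
  have hA : star w * h * w = (2 : ℍ[ℤ]) ^ s *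
      (((h.re * mo : ℤ) : ℍ[ℤ]) + (2 : ℍ[ℤ]) * qm 0 p1 p2 p3) := by
    calc star w * h * w = star w * (((h.re : ℤ) : ℍ[ℤ]) + (2 : ℍ[ℤ]) * qm 0 b1 b2 b3) * w := by
          rw [← hdec]
      _ = ((h.re : ℤ) : ℍ[ℤ]) * (star w * w) + (2 : ℍ[ℤ]) * (star w * qm 0 b1 b2 b3 * w) := by
          rw [mul_add, add_mul, hcm, mul_assoc (h.re : ℍ[ℤ])]
          congr 1
          rw [two_mul, two_mul, mul_add, add_mul]
      _ = _ := by
          rw [star_mul_self', hmH, hp]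
          rw [two_mul, two_mul]
          push_cast
          rw [mul_add, mul_add, ← mul_assoc (h.re : ℍ[ℤ]), hc2, mul_assoc]
  -- `mo (z h w) = 2^s y (a0 mo + 2 π)`
  set P : ℍ[ℤ] := ((h.re * mo : ℤ) : ℍ[ℤ]) + (2 : ℍ[ℤ]) * qm 0 p1 p2 p3 with hPdef
  have hB : (mo : ℍ[ℤ]) * (z * h * w) = (2 : ℍ[ℤ]) ^ s * (y * P) := by
    have h1 : ((normSq w : ℤ) : ℍ[ℤ]) * (z * h * w) = (z * w) * (star w * h * w) := by
      calc ((normSq w : ℤ) : ℍ[ℤ]) * (z * h * w) = z * ((normSq w : ℤ) : ℍ[ℤ]) * h * w := by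
            rw [hcm]; simp only [mul_assoc]
        _ = z * (w * star w) * h * w := by rw [self_mul_star']
        _ = _ := by simp only [mul_assoc]
    rw [hA, hy, hmH] at h1
    apply mul_left_cancel₀ h2H
    rw [← mul_assoc, h1]
    simp only [← mul_assoc]
    rw [mul_assoc ((2 : ℍ[ℤ]) ^ s) y, hc2 y]
    simp only [← mul_assoc]
  -- `W = star h z h w`
  set W : ℍ[ℤ] := star h * (z * h * w) with hWdef
  have hC : (mo : ℍ[ℤ]) * W = (2 : ℍ[ℤ]) ^ s * (star h * y * P) := by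
    rw [hWdef, ← mul_assoc, ← hcm, mul_assoc, hB, ← mul_assoc, hc2]
    simp only [mul_assoc]
  have hdmo : (mo : ℍ[ℤ]) ∣ W := dvd_mul_left' mo (star h) hd
  have hd2 : (((2 : ℤ) ^ s : ℤ) : ℍ[ℤ]) ∣ (mo : ℍ[ℤ]) * W := by
    rw [hC]
    exact ⟨_, by push_cast; rfl⟩
  have hcop : IsCoprime ((2 : ℤ) ^ s) mo := by
    apply IsCoprime.pow_left
    refine ⟨-(mo / 2), 1, ?_⟩
    omega
  have hx : ((2 ^ s * mo : ℤ) : ℍ[ℤ]) ∣ W := by
    rw [dvd_iff] at hdmo hd2 ⊢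
    simp only [fx_re, fx_imI, fx_imJ, fx_imK] at hd2
    refine ⟨hcop.mul_dvd (hcop.dvd_of_dvd_mul_left hd2.1) hdmo.1,
      hcop.mul_dvd (hcop.dvd_of_dvd_mul_left hd2.2.1) hdmo.2.1,
      hcop.mul_dvd (hcop.dvd_of_dvd_mul_left hd2.2.2.1) hdmo.2.2.1,
      hcop.mul_dvd (hcop.dvd_of_dvd_mul_left hd2.2.2.2) hdmo.2.2.2⟩
  obtain ⟨x, hx⟩ := hx
  have hxm : W = ((normSq w : ℤ) : ℍ[ℤ]) * x := by rw [hw]; exact hx
  refine ⟨x, ?_, ?_, ?_⟩
  · -- parity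
    have h1 : ((mo ^ 2 : ℤ) : ℍ[ℤ]) * x = star h * y * P := by
      apply mul_left_cancel₀ h2H
      rw [← hC, hxm, hmH]
      push_cast
      rw [pow_two, ← mul_assoc, ← mul_assoc, ← mul_assoc, ← mul_assoc, hc2]
    have hPP : Par (h.re * mo) P := by
      rw [hPdef]
      refine ⟨?_, ?_, ?_, ?_⟩
      · rw [Quaternion.re_add, fx_two, fx_re]
        simp
      · rw [Quaternion.imI_add, fx_two, fx_imI]
        simp
      · rw [Quaternion.imJ_add, fx_two, fx_imJ]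
        simp
      · rw [Quaternion.imK_add, fx_two, fx_imK]
        simp
    have hhP : Par 1 h := ⟨h0, ⟨b1, e1⟩, ⟨b2, e2⟩, ⟨b3, e3⟩⟩
    have h2 := (hhP.star.mul hyP).mul hPP
    rw [← h1] at h2
    obtain ⟨g1, g2, g3, g4⟩ := h2
    simp only [fx_re, fx_imI, fx_imJ, fx_imK] at g1 g2 g3 g4
    obtain ⟨k, rfl⟩ : ∃ k, mo = 2 * k + 1 := ⟨mo / 2, by omega⟩
    obtain ⟨l, hl⟩ : ∃ l, h.re = 4 * l + 1 := ⟨h.re / 4, by omega⟩
    have hmq : (2 * k + 1 : ℤ) ^ 2 = 4 * (k * (k + 1)) + 1 := by ring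
    rw [hmq] at g1 g2 g3 g4
    have hcopr : ∀ t : ℤ, 2 ∣ (4 * (k * (k + 1)) + 1) * t → 2 ∣ t := by
      intro t ht
      have e : t = (4 * (k * (k + 1)) + 1) * t - 2 * (2 * (k * (k + 1)) * t) := by ring
      rw [e]
      exact dvd_sub ht (dvd_mul_right _ _)
    refine ⟨?_, hcopr _ g2, hcopr _ g3, hcopr _ g4⟩
    have e5 : (4 * (k * (k + 1)) + 1) * x.re = x.re + 4 * (k * (k + 1) * x.re) := by ring
    have e6 : 1 * (2 * k + 1) * (h.re * (2 * k + 1)) =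
        1 + 4 * (k * (k + 1) * (4 * l + 1) + l) := by rw [hl]; ring
    rw [e5, e6, Int.add_mul_emod_self_left, Int.add_mul_emod_self_left] at g1
    exact g1
  · -- norm
    have h1 : normSq W = normSq w ^ 2 * normSq x := by
      rw [hxm, map_mul]
      congr 1
      rw [normSq_eq]
      simp
    have h2 : normSq W = 5 ^ (2 * a) * Q * normSq w ^ 2 := by
      rw [hWdef, map_mul, map_mul, map_mul, Quaternion.normSq_star, hN, hz]
      ring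
    rw [h1, mul_comm] at h2
    exact mul_right_cancel₀ (pow_ne_zero 2 hm0) h2
  · -- real part
    have h1 : x * star w = star h * z * h := by
      apply mul_left_cancel₀ hmH0
      rw [← mul_assoc, ← hxm, hWdef]
      calc star h * (z * h * w) * star w = star h * z * h * (w * star w) := by
            simp only [mul_assoc]
        _ = _ := by rw [self_mul_star', hcm]
    rw [h1]
    have h2 : (star h * z * h).re = normSq h * z.re := by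
      rw [normSq_eq]
      simp
      ring
    rw [h2, hN]

end Pool.Agent.Lib.MP_06cce2_nt
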