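import Pool.Agent.Lib.MP_06cce2_nt.Defs

namespace Pool.Agent.Lib.MP_06cce2_nt

open Quaternion

private theorem fitA_sq (x : ℤ) : (x % 2 = 0 ∧ x ^ 2 % 4 = 0) ∨ (x % 2 = 1 ∧ x ^ 2 % 8 = 1) := by
  rcases Int.even_or_odd' x with ⟨k, rfl | rfl⟩
  · left
    refine ⟨by omega, ?_⟩
    rw [show (2 * k) ^ 2 = 4 * k ^ 2 by ring]
    omega
  · right
    refine ⟨by omega, ?_⟩
    rcases Int.even_or_odd' k with ⟨l, rfl | rfl⟩
    · rw [show (2 * (2 * l) + 1) ^ 2 = 8 * (2 * l ^ 2 + l) + 1 by ring]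
      omega
    · rw [show (2 * (2 * l + 1) + 1) ^ 2 = 8 * (2 * l ^ 2 + 3 * l + 1) + 1 by ring]
      omega

private theorem fitA_smul (n : ℤ) (y : ℍ[ℤ]) :
    ((n : ℤ) : ℍ[ℤ]) * y = qm (n * y.re) (n * y.imI) (n * y.imJ) (n * y.imK) := by
  ext <;> simp

private theorem fitA_main {a b c d e f g h m q mo : ℤ} {s : ℕ}
    (hm : a ^ 2 + b ^ 2 + c ^ 2 + d ^ 2 = m)
    (hN : (a + 4 * e) ^ 2 + (-b + 4 * f) ^ 2 + (-c + 4 * g) ^ 2 + (-d + 4 * h) ^ 2 =
      m * (1 + 16 * q))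
    (hprim : a % 2 = 1 ∨ b % 2 = 1 ∨ c % 2 = 1 ∨ d % 2 = 1)
    (hs : m = 2 ^ s * mo) :
    Fit s mo (qm a b c d) (qm (a + 4 * e) (-b + 4 * f) (-c + 4 * g) (-d + 4 * h)) := by
  have hR : e * a - f * b - g * c - h * d =
      2 * (m * q - (e ^ 2 + f ^ 2 + g ^ 2 + h ^ 2)) := by
    linarith [hm, hN, show (a + 4 * e) ^ 2 + (-b + 4 * f) ^ 2 + (-c + 4 * g) ^ 2 +
      (-d + 4 * h) ^ 2 = (a ^ 2 + b ^ 2 + c ^ 2 + d ^ 2) + 8 * (e * a - f * b - g * c - h * d) +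
      16 * (e ^ 2 + f ^ 2 + g ^ 2 + h ^ 2) by ring]
  have ha := fitA_sq a
  have hb := fitA_sq b
  have hc := fitA_sq c
  have hd := fitA_sq d
  match s, hs with
  | 0, hs =>
    rw [pow_zero, one_mul] at hs
    refine ⟨qm (m + 4 * (e * a - f * b - g * c - h * d)) (4 * (e * b + f * a + g * d - h * c))
      (4 * (e * c - f * d + g * a + h * b)) (4 * (e * d + f * c - g * b + h * a)), ?_, ?_, ?_, ?_, ?_⟩
    · rw [pow_zero, one_mul]
      ext
      · rw [← hm]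
        simp
        ring
      · simp
        ring
      · simp
        ring
      · simp
        ring
    · rw [qm_re, ← hs, Int.add_mul_emod_self_left]
    · exact ⟨2 * (e * b + f * a + g * d - h * c), by rw [qm_imI]; ring⟩
    · exact ⟨2 * (e * c - f * d + g * a + h * b), by rw [qm_imJ]; ring⟩
    · exact ⟨2 * (e * d + f * c - g * b + h * a), by rw [qm_imK]; ring⟩
  | 1, hs =>
    rw [pow_one] at hs
    refine ⟨qm (mo + 2 * (e * a - f * b - g * c - h * d)) (2 * (e * b + f * a + g * d - h * c))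
      (2 * (e * c - f * d + g * a + h * b)) (2 * (e * d + f * c - g * b + h * a)), ?_, ?_, ?_, ?_, ?_⟩
    · rw [pow_one, show (2 : ℍ[ℤ]) = ((2 : ℤ) : ℍ[ℤ]) by norm_cast, fitA_smul]
      ext
      · have h1 : (a + 4 * e) * a - (-b + 4 * f) * b - (-c + 4 * g) * c - (-d + 4 * h) * d =
            2 * (mo + 2 * (e * a - f * b - g * c - h * d)) := by
          linarith [hm, hs]
        simpa using h1
      · simp
        ring
      · simp
        ring
      · simp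
        ring
    · rw [qm_re, hR, show mo + 2 * (2 * (m * q - (e ^ 2 + f ^ 2 + g ^ 2 + h ^ 2))) =
        mo + 4 * (m * q - (e ^ 2 + f ^ 2 + g ^ 2 + h ^ 2)) by ring, Int.add_mul_emod_self_left]
    · exact ⟨_, rfl⟩
    · exact ⟨_, rfl⟩
    · exact ⟨_, rfl⟩
  | 2, hs =>
    have hs' : m = 4 * mo := by rw [hs]; norm_num
    have hodd : a % 2 = 1 ∧ b % 2 = 1 ∧ c % 2 = 1 ∧ d % 2 = 1 := by
      rw [← hm] at hs'
      generalize a ^ 2 = A at *
      generalize b ^ 2 = B at *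
      generalize c ^ 2 = C at *
      generalize d ^ 2 = D at *
      omega
    obtain ⟨oa, ob, oc, od⟩ := hodd
    obtain ⟨a', rfl⟩ : ∃ a', a = 2 * a' + 1 := ⟨a / 2, by omega⟩
    obtain ⟨b', rfl⟩ : ∃ b', b = 2 * b' + 1 := ⟨b / 2, by omega⟩
    obtain ⟨c', rfl⟩ : ∃ c', c = 2 * c' + 1 := ⟨c / 2, by omega⟩
    obtain ⟨d', rfl⟩ : ∃ d', d = 2 * d' + 1 := ⟨d / 2, by omega⟩
    -- parity of the sum of the coordinates
    obtain ⟨σ, hσ⟩ : ∃ σ, e + f + g + h = 2 * σ := by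
      refine ⟨(m * q - (e ^ 2 + f ^ 2 + g ^ 2 + h ^ 2)) - (e * a' - f * b' - g * c' - h * d') +
        (f + g + h), ?_⟩
      linarith [hR, show e * (2 * a' + 1) - f * (2 * b' + 1) - g * (2 * c' + 1) - h * (2 * d' + 1) =
        2 * (e * a' - f * b' - g * c' - h * d') + (e - f - g - h) by ring]
    have he := fitA_sq e
    have hf := fitA_sq f
    have hg := fitA_sq g
    have hh := fitA_sq h
    obtain ⟨ν, hν⟩ : ∃ ν, e ^ 2 + f ^ 2 + g ^ 2 + h ^ 2 = 2 * ν := by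
      refine ⟨(e ^ 2 + f ^ 2 + g ^ 2 + h ^ 2) / 2, ?_⟩
      generalize e ^ 2 = A at *
      generalize f ^ 2 = B at *
      generalize g ^ 2 = C at *
      generalize h ^ 2 = D at *
      omega
    refine ⟨qm (mo + (e * (2 * a' + 1) - f * (2 * b' + 1) - g * (2 * c' + 1) - h * (2 * d' + 1)))
      (e * (2 * b' + 1) + f * (2 * a' + 1) + g * (2 * d' + 1) - h * (2 * c' + 1))
      (e * (2 * c' + 1) - f * (2 * d' + 1) + g * (2 * a' + 1) + h * (2 * b' + 1))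
      (e * (2 * d' + 1) + f * (2 * c' + 1) - g * (2 * b' + 1) + h * (2 * a' + 1)),
      ?_, ?_, ?_, ?_, ?_⟩
    · rw [show (2 : ℍ[ℤ]) ^ 2 = ((4 : ℤ) : ℍ[ℤ]) by norm_num, fitA_smul]
      ext
      · have h1 : (2 * a' + 1 + 4 * e) * (2 * a' + 1) - (-(2 * b' + 1) + 4 * f) * (2 * b' + 1) -
            (-(2 * c' + 1) + 4 * g) * (2 * c' + 1) - (-(2 * d' + 1) + 4 * h) * (2 * d' + 1) =
            4 * (mo + (e * (2 * a' + 1) - f * (2 * b' + 1) - g * (2 * c' + 1) -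
              h * (2 * d' + 1))) := by
          linarith [hm, hs']
        simpa using h1
      · simp
        ring
      · simp
        ring
      · simp
        ring
    · rw [qm_re, hR, hν, hs', show mo + 2 * (4 * mo * q - 2 * ν) = mo + 4 * (2 * mo * q - ν) by
        ring, Int.add_mul_emod_self_left]
    · exact ⟨e * b' + f * a' + g * d' - h * c' + σ - h, by rw [qm_imI]; linarith⟩
    · exact ⟨e * c' - f * d' + g * a' + h * b' + σ - f, by rw [qm_imJ]; linarith⟩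
    · exact ⟨e * d' + f * c' - g * b' + h * a' + σ - g, by rw [qm_imK]; linarith⟩
  | s + 3, hs =>
    exfalso
    have hs' : m = 8 * (2 ^ s * mo) := by rw [hs, pow_add]; ring
    rw [← hm] at hs'
    generalize 2 ^ s * mo = W at *
    generalize a ^ 2 = A at *
    generalize b ^ 2 = B at *
    generalize c ^ 2 = C at *
    generalize d ^ 2 = D at *
    omega

/-- If `z ≡ star w mod 4` and `N(z) = N(w) Q` with `Q ≡ 1 mod 16`, `w` with an odd coordinate,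
then `z` fits to `w`. (Here `N = normSq`.)
Proof. Write `z = star w + 4 δ` (`δ` integral) and `m = N(w) = 2^s mo`. Then
`z w = m + 4 δ w` and `N(z) = m + 8 Re(δ w) + 16 N(δ)`, so
(*) `8 Re(δ w) + 16 N(δ) = m (Q - 1) ≡ 0 mod 16 m`.
As `w` has an odd coordinate, `s ≤ 2` (all coordinates odd gives `m ≡ 4 mod 8`, two odd
`m ≡ 2 mod 4`, one or three odd: `m` odd).
`s = 0`: `y = z w = m + 4 δ w`, fine.
`s = 1`: `y = mo + 2 δ w`; imaginary parts even; (*) gives `Re(δ w)` even, so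
`y.re ≡ mo mod 4`.
`s = 2`: `y = mo + δ w`, all coordinates of `w` are odd; (*) gives
`Re(δ w) + 2 N(δ) ≡ 0 mod 4`, so `Re(δ w)` is even; as all coordinates of `w` are odd, every
coordinate of `δ w` is congruent mod 2 to the sum `σ` of the coordinates of `δ`, which is
therefore even; so the imaginary parts are even, `N(δ) ≡ σ` is even and `Re(δ w) ≡ 0 mod 4`. -/
theorem fit_of_congr {w z : ℍ[ℤ]} {Q mo : ℤ} {s : ℕ} (hQ : Q % 16 = 1)
    (hN : normSq z = normSq w * Q) (h0 : z.re % 4 = w.re % 4)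
    (h1 : z.imI % 4 = (-w.imI) % 4) (h2 : z.imJ % 4 = (-w.imJ) % 4)
    (h3 : z.imK % 4 = (-w.imK) % 4)
    (hprim : w.re % 2 = 1 ∨ w.imI % 2 = 1 ∨ w.imJ % 2 = 1 ∨ w.imK % 2 = 1)
    (hs : normSq w = 2 ^ s * mo) (hmo : mo % 2 = 1) : Fit s mo w z := by
  have hw := normSq_eq w
  have hz := normSq_eq z
  obtain ⟨e, he⟩ : ∃ e, z.re = w.re + 4 * e := ⟨(z.re - w.re) / 4, by omega⟩
  obtain ⟨f, hf⟩ : ∃ f, z.imI = -w.imI + 4 * f := ⟨(z.imI + w.imI) / 4, by omega⟩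
  obtain ⟨g, hg⟩ : ∃ g, z.imJ = -w.imJ + 4 * g := ⟨(z.imJ + w.imJ) / 4, by omega⟩
  obtain ⟨h, hh⟩ : ∃ h, z.imK = -w.imK + 4 * h := ⟨(z.imK + w.imK) / 4, by omega⟩
  obtain ⟨q, rfl⟩ : ∃ q, Q = 1 + 16 * q := ⟨Q / 16, by omega⟩
  rw [hz, he, hf, hg, hh] at hN
  have hz' : z = qm (w.re + 4 * e) (-w.imI + 4 * f) (-w.imJ + 4 * g) (-w.imK + 4 * h) := by
    rw [← he, ← hf, ← hg, ← hh]
    exact qm_eta z
  have key := fitA_main hw.symm hN hprim hs
  rw [hz']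
  exact key

end Pool.Agent.Lib.MP_06cce2_nt
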