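import Pool.Agent.Lib.MP_06cce2_nt.ThreeSquares

/-!
Sums of three squares for `n ≡ 5 mod 8` and a combined statement.
-/

namespace Pool.Agent.Lib.MP_06cce2_nt

open ZMod NumberTheorySymbols

theorem three_squares_five_aux {N : ℕ} (h8 : N % 8 = 5) :
    ∃ u v w : ℤ, (N : ℤ) = u ^ 2 + v ^ 2 + w ^ 2 := by
  obtain ⟨e, he⟩ : ∃ e : ℕ, 3 * N = 2 * e + 1 := ⟨3 * N / 2, by omega⟩
  have hcop : IsCoprime (e : ℤ) ((4 * N : ℕ) : ℤ) := by
    have h1 : IsCoprime (e : ℤ) (N : ℤ) := ⟨-2, 3, by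
      have : (3 : ℤ) * N = 2 * e + 1 := by exact_mod_cast he
      linarith⟩
    have h2 : IsCoprime (e : ℤ) 4 := by
      have : IsCoprime (e : ℤ) 2 := by
        refine ⟨1, -((e : ℤ) / 2), ?_⟩
        omega
      have := this.mul_right this
      simpa using this
    push_cast
    exact h2.mul_right h1
  obtain ⟨p, hpN, hp, hpm⟩ := Nat.forall_exists_prime_gt_and_zmodEq (3 * N) (q := 4 * N)
    (by omega) hcop
  have : Fact p.Prime := ⟨hp⟩
  obtain ⟨j, hj⟩ := (Int.modEq_iff_dvd.1 hpm.symm)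
  push_cast at hj
  have hjpos : 0 < j := by
    by_contra hneg
    push Not at hneg
    have : (4 * (N : ℤ)) * j ≤ 0 := mul_nonpos_of_nonneg_of_nonpos (by positivity) hneg
    omega
  obtain ⟨J', rfl⟩ : ∃ J' : ℕ, j = J' := ⟨j.toNat, by omega⟩
  have heZ : (3 : ℤ) * N = 2 * e + 1 := by exact_mod_cast he
  have hd : 2 * (p : ℤ) = (8 * J' + 3 : ℕ) * (N : ℤ) - 1 := by push_cast; linarith
  have hp4 : p % 4 = 3 := by
    have h5 : (e : ℤ) % 4 = 3 := by omega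
    have : (p : ℤ) = 4 * (N * J') + e := by linarith
    omega
  have hdodd : Odd (8 * J' + 3) := by
    rw [Nat.odd_iff]; omega
  have hd8 : (8 * J' + 3) % 8 = 3 := by omega
  have hm2 : J(-2 | 8 * J' + 3) = 1 := by
    rw [jacobiSym.at_neg_two hdodd]
    rw [← ZMod.natCast_mod (8 * J' + 3) 8]
    rw [hd8]; decide
  have hjac : J(-((8 * J' + 3 : ℕ) : ℤ) | p) = 1 := by
    rw [jacobiSym.neg _ (hp.odd_of_ne_two (by omega)), ZMod.χ₄_nat_three_mod_four hp4,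
      jacobiSym.quadratic_reciprocity_three_mod_four (by omega) hp4]
    have h3 : J((p : ℤ) * (-2) | 8 * J' + 3) = 1 := by
      rw [jacobiSym.mod_left' (a₂ := 1) (b := 8 * J' + 3)
        (Int.ModEq.symm (Int.modEq_iff_dvd.2 ⟨-N, by linarith⟩)), jacobiSym.one_left]
    rw [jacobiSym.mul_left, hm2, mul_one] at h3
    rw [h3]; norm_num
  obtain ⟨x, hx⟩ := exists_root_of_jacobi hjac
  have hpodd : p % 2 = 1 := by omega
  obtain ⟨y, hy1, hy2⟩ : ∃ y : ℤ, (p : ℤ) ∣ y ^ 2 + (8 * J' + 3 : ℕ) ∧ y % 2 = 1 := by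
    rcases Int.emod_two_eq_zero_or_one x with h | h
    · refine ⟨x + p, ?_, by omega⟩
      obtain ⟨t, ht⟩ := hx
      exact ⟨t + 2 * x + p, by linear_combination ht⟩
    · exact ⟨x, hx, h⟩
  have hev : (2 : ℤ) ∣ y ^ 2 + (8 * J' + 3 : ℕ) := by
    obtain ⟨s, hs⟩ : ∃ s, y = 2 * s + 1 := ⟨y / 2, by omega⟩
    obtain ⟨r, hr⟩ : ∃ r : ℤ, ((8 * J' + 3 : ℕ) : ℤ) = 2 * r + 1 :=
      ⟨((8 * J' + 3 : ℕ) : ℤ) / 2, by omega⟩
    exact ⟨2 * s ^ 2 + 2 * s + 1 + r, by rw [hs, hr]; ring⟩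
  have hcop2 : IsCoprime (2 : ℤ) (p : ℤ) := by
    refine ⟨-((p : ℤ) / 2), 1, ?_⟩
    omega
  exact sum_three_of_residue (d := ((8 * J' + 3 : ℕ) : ℤ)) (m := 2 * p) (x := y) (by
      have : 0 < J' := by exact_mod_cast hjpos
      positivity)
    (by have := hp.pos; positivity) hd (hcop2.mul_dvd hev hy1)

theorem three_squares_five_mod_eight {n : ℤ} (hn : 0 < n) (h8 : n % 8 = 5) :
    ∃ u v w : ℤ, n = u ^ 2 + v ^ 2 + w ^ 2 := by
  obtain ⟨N, rfl⟩ : ∃ N : ℕ, n = N := ⟨n.toNat, by omega⟩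
  exact three_squares_five_aux (N := N) (by omega)

theorem three_squares {n : ℤ} (hn : 0 < n)
    (h8 : n % 8 = 1 ∨ n % 8 = 2 ∨ n % 8 = 3 ∨ n % 8 = 5 ∨ n % 8 = 6) :
    ∃ u v w : ℤ, n = u ^ 2 + v ^ 2 + w ^ 2 := by
  rcases h8 with h | h | h | h | h
  · exact three_squares_one_mod_eight hn h
  · exact three_squares_two_mod_four hn (by omega)
  · exact three_squares_three_mod_eight hn h
  · exact three_squares_five_mod_eight hn h
  · exact three_squares_two_mod_four hn (by omega)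

end Pool.Agent.Lib.MP_06cce2_nt
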