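import Pool.Agent.Lib.MP_06cce2_nt.ThreeSquares
import Pool.Agent.Lib.MP_06cce2_nt.Defs

namespace Pool.Agent.Lib.MP_06cce2_nt

open Quaternion

/-- Proof. Choose `k` with `5^k > 2 a^2 p` and put `n = 2 p (5^k - 2 a^2 p)`; `n % 4 = 2`
(`p`, `5^k - 2 a^2 p` odd), so `three_squares_two_mod_four` gives `n = b^2 + c^2 + d^2`. Take
`μ = qm 0 (2 b) (2 c) (2 d)`, `s = 5^k - 4 a^2 p`, `l = 2 k`. Then
`N(s + a μ) = s^2 + 4 a^2 n = 5^(2k)`; `s ≡ 5^k ≡ 1 mod 4`; the imaginary parts are even.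
`N(μ) = 4 n` is divisible by `p`. If `p ∣ μ` then `p^2 ∣ 4 n = 8 p (5^k - 2 a^2 p)`, so
`p ∣ 8 (5^k - 2 a^2 p)`, `p ∣ 5^k`, a contradiction to `p ≠ 5`. `s` is coprime to `p` and to `a`
because `p, a` are coprime to 5. (See `dvd_iff`, `normSq_eq`.) -/
theorem h0_lemma {p : ℕ} (hp : p.Prime) (hp2 : p ≠ 2) (hp5 : p ≠ 5) {a : ℤ} (ha : 0 < a)
    (ha2 : a % 2 = 1) (ha5 : ¬ (5 : ℤ) ∣ a) :
    ∃ (l : ℕ) (s : ℤ) (μ : ℍ[ℤ]), Lam l ((s : ℍ[ℤ]) + (a : ℍ[ℤ]) * μ) ∧ μ.re = 0 ∧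
      ¬ ((p : ℤ) : ℍ[ℤ]) ∣ μ ∧ (p : ℤ) ∣ normSq μ ∧ IsCoprime s ((p : ℤ) * a) := by
  have hp0 : (0 : ℤ) < p := by exact_mod_cast hp.pos
  have hpp : Prime (p : ℤ) := Nat.prime_iff_prime_int.1 hp
  have h5p : Prime (5 : ℤ) := by
    have := Nat.prime_iff_prime_int.1 Nat.prime_five
    exact_mod_cast this
  have hpodd : (p : ℤ) % 2 = 1 := by
    have h1 := hp.eq_two_or_odd
    omega
  obtain ⟨k, hk⟩ : ∃ k : ℕ, 2 * a ^ 2 * p < 5 ^ k := by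
    obtain ⟨k, hk⟩ := pow_unbounded_of_one_lt (2 * a ^ 2 * p) (by norm_num : (1 : ℤ) < 5)
    exact ⟨k, hk⟩
  have h5k : (5 : ℤ) ^ k % 4 = 1 := by
    have h1 : (5 : ℤ) ^ k ≡ 1 ^ k [ZMOD 4] := (by decide : (5 : ℤ) ≡ 1 [ZMOD 4]).pow k
    rw [one_pow] at h1
    exact h1
  have h5k2 : (5 : ℤ) ^ k % 2 = 1 := by omega
  set m : ℤ := 5 ^ k - 2 * a ^ 2 * p with hm
  have hm0 : 0 < m := by omega
  have hm2 : m % 2 = 1 := by
    have : m = 5 ^ k + 2 * (-(a ^ 2 * p)) := by rw [hm]; ring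
    rw [this, Int.add_mul_emod_self_left]
    exact h5k2
  have hpm2 : (p * m) % 2 = 1 := by
    rw [Int.mul_emod, hpodd, hm2]
    norm_num
  have hn4 : (2 * (p * m)) % 4 = 2 := by omega
  have hn0 : 0 < p * m := mul_pos hp0 hm0
  obtain ⟨b, c, d, hbcd⟩ := three_squares_two_mod_four (n := 2 * (p * m)) (by omega) hn4
  set s : ℤ := 5 ^ k - 4 * a ^ 2 * p with hs
  set μ : ℍ[ℤ] := qm 0 (2 * b) (2 * c) (2 * d) with hμ
  have hN : normSq μ = 4 * (2 * (p * m)) := by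
    rw [normSq_eq, hbcd, hμ]
    simp only [qm_re, qm_imI, qm_imJ, qm_imK]
    ring
  have hre : ((s : ℍ[ℤ]) + (a : ℍ[ℤ]) * μ).re = s := by
    simp [hμ]
  have hI : ((s : ℍ[ℤ]) + (a : ℍ[ℤ]) * μ).imI = a * (2 * b) := by
    simp [hμ]
  have hJ : ((s : ℍ[ℤ]) + (a : ℍ[ℤ]) * μ).imJ = a * (2 * c) := by
    simp [hμ]
  have hK : ((s : ℍ[ℤ]) + (a : ℍ[ℤ]) * μ).imK = a * (2 * d) := by
    simp [hμ]
  refine ⟨2 * k, s, μ, ⟨?_, ?_, ?_, ?_, ?_⟩, rfl, ?_, ?_, ?_⟩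
  · rw [normSq_eq, hre, hI, hJ, hK]
    have e : s ^ 2 + (a * (2 * b)) ^ 2 + (a * (2 * c)) ^ 2 + (a * (2 * d)) ^ 2 =
        s ^ 2 + 4 * a ^ 2 * (b ^ 2 + c ^ 2 + d ^ 2) := by ring
    rw [e, ← hbcd, hs, hm]
    ring
  · rw [hre]
    have : s = 5 ^ k + 4 * (-(a ^ 2 * p)) := by rw [hs]; ring
    rw [this, Int.add_mul_emod_self_left]
    exact h5k
  · rw [hI]
    exact ⟨a * b, by ring⟩
  · rw [hJ]
    exact ⟨a * c, by ring⟩
  · rw [hK]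
    exact ⟨a * d, by ring⟩
  · intro hdvd
    rw [dvd_iff] at hdvd
    obtain ⟨-, h1, h2, h3⟩ := hdvd
    have h4 : (p : ℤ) ^ 2 ∣ p * (8 * m) := by
      have e : (p : ℤ) * (8 * m) = (2 * b) ^ 2 + (2 * c) ^ 2 + (2 * d) ^ 2 := by
        have : (p : ℤ) * (8 * m) = 4 * (2 * (p * m)) := by ring
        rw [this, hbcd]
        ring
      rw [e]
      exact dvd_add (dvd_add (pow_dvd_pow_of_dvd h1 2) (pow_dvd_pow_of_dvd h2 2))
        (pow_dvd_pow_of_dvd h3 2)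
    rw [pow_two] at h4
    have h5 : (p : ℤ) ∣ 8 * m := (mul_dvd_mul_iff_left hp0.ne').1 h4
    have h6 : (p : ℤ) ∣ 8 * 5 ^ k := by
      have e : 8 * (5 : ℤ) ^ k = 8 * m + p * (16 * a ^ 2) := by rw [hm]; ring
      rw [e]
      exact dvd_add h5 (dvd_mul_right _ _)
    have e8 : (8 : ℤ) = 2 ^ 3 := by norm_num
    rcases hpp.dvd_or_dvd h6 with h7 | h7
    · rw [e8] at h7
      have h8 := hpp.dvd_of_dvd_pow h7
      have h9 : p ∣ 2 := by exact_mod_cast h8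
      exact hp2 ((Nat.prime_dvd_prime_iff_eq hp Nat.prime_two).1 h9)
    · have h8 := hpp.dvd_of_dvd_pow h7
      have h9 : p ∣ 5 := by exact_mod_cast h8
      exact hp5 ((Nat.prime_dvd_prime_iff_eq hp Nat.prime_five).1 h9)
  · rw [hN]
    exact ⟨8 * m, by ring⟩
  · have h1 : ¬ (5 : ℤ) ∣ p := by
      intro h
      have h9 : 5 ∣ p := by exact_mod_cast h
      exact hp5 ((Nat.prime_dvd_prime_iff_eq Nat.prime_five hp).1 h9).symm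
    have h2 : ¬ (5 : ℤ) ∣ p * a := fun h => (h5p.dvd_or_dvd h).elim h1 ha5
    have h3 : IsCoprime (5 : ℤ) (p * a) := (Prime.coprime_iff_not_dvd h5p).2 h2
    have h4 : IsCoprime ((5 : ℤ) ^ k) (p * a) := h3.pow_left
    have e : s = 5 ^ k + (p * a) * (-(4 * a)) := by rw [hs]; ring
    rw [e]
    exact h4.add_mul_left_left _

end Pool.Agent.Lib.MP_06cce2_nt
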