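import Pool.Agent.Lib.MP_06cce2_nt.Rate

namespace Pool.Agent.Lib.MP_06cce2_nt

open Matrix Complex Quaternion
open scoped Matrix.Norms.L2Operator

private theorem RN_smul_mat (r a b c d : ℝ) :
    ((r : ℝ) : ℂ) • mat a b c d = mat (r * a) (r * b) (r * c) (r * d) := by
  ext i j
  fin_cases i <;> fin_cases j <;> simp [mat, PX, PY, PZ] <;> ring

private theorem RN_sub_mat (a b c d a' b' c' d' : ℝ) :
    mat a b c d - mat a' b' c' d' = mat (a - a') (b - b') (c - c') (d - d') := by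
  ext i j
  fin_cases i <;> fin_cases j <;> simp [mat, PX, PY, PZ] <;> ring

private theorem RN_sqrt_pow (a κ : ℕ) :
    ((Real.sqrt 5 : ℝ) : ℂ) ^ (2 * a + 4 * κ) = (((5 : ℝ) ^ a * 25 ^ κ : ℝ) : ℂ) := by
  have h5 : (Real.sqrt 5) ^ 2 = 5 := Real.sq_sqrt (by norm_num)
  have h : (Real.sqrt 5) ^ (2 * a + 4 * κ) = (5 : ℝ) ^ a * 25 ^ κ := by
    rw [pow_add, pow_mul, h5, show 4 * κ = 2 * (2 * κ) by ring, pow_mul, h5, pow_mul]
    norm_num
  rw [← h]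
  push_cast
  rfl

/-- Proof. Let `m = N(w) > 0`. For `κ ≥ k0` take `a, x` from the hypothesis, `l = 2a + 4κ`, and
`u` from `words l x`: `u.length = l` and `√5^l • u.prod = qmat x`, `√5^l = 5^a 25^κ =: R`. So
`target w - u.prod = mat (..)` with coordinates `w_i / √m - x_i / R` (last one with sign), and by
`norm_mat` its norm squared is
`N(w)/m + N(x)/R^2 - 2 Re(x star w) / (√m R) = 2 - 2 Re(x star w) / (√m R) ≤ 2 C / (√m 25^κ)`
(as `Re(x star w) ≥ √m R - C 5^a`, `N(x) = 5^l = R^2`; here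
`Re (x star w) = Σ x_i w_i`). Given `ε` choose
`κ = max k0 (⌈logb 25 (D / ε^2)⌉₊ + 1)` with `D = 2 |C| / √m + 1`: then `25^κ > D / ε^2` and the
norm squared is `< ε^2`; and `4 κ ≤ 4 k0 + 4 (max (logb 25 (D / ε^2)) 0 + 2)`, where
`logb 25 (D / ε^2) = logb 25 D + logb 5 (1 / ε)`, and `logb 5 (1 / ε) ≥ 0`. So
`l ≤ 2 A + 4 κ ≤ 4 logb 5 (1 / ε) + c`. -/
theorem rate_of_near {w : ℍ[ℤ]} (hw : 0 < normSq w) {A : ℕ} {C : ℝ} {k0 : ℕ}
    (h : ∀ κ ≥ k0, ∃ a ≤ A, ∃ x : ℍ[ℤ], Lam (2 * a + 4 * κ) x ∧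
      Real.sqrt ((normSq w : ℤ) : ℝ) * 25 ^ κ * 5 ^ a ≤ (((x * star w).re : ℤ) : ℝ) + C * 5 ^ a) :
    HasRate (target w) := by
  set m : ℝ := ((normSq w : ℤ) : ℝ) with hm
  have hm0 : 0 < m := by rw [hm]; exact_mod_cast hw
  set s : ℝ := Real.sqrt m with hs
  have hs0 : 0 < s := Real.sqrt_pos.2 hm0
  have hs2 : s ^ 2 = m := Real.sq_sqrt hm0.le
  set D : ℝ := 2 * |C| / s + 1 with hD
  have hD1 : 1 ≤ D := by
    have : 0 ≤ 2 * |C| / s := by positivity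
    linarith
  refine ⟨2 * A + 4 * k0 + 4 * Real.logb 25 D + 4, fun ε hε hε1 => ?_⟩
  set y : ℝ := D / ε ^ 2 with hy
  have hε2 : 0 < ε ^ 2 := by positivity
  have hε21 : ε ^ 2 ≤ 1 := pow_le_one₀ hε.le hε1.le
  have hy1 : 1 ≤ y := by
    rw [hy, le_div_iff₀ hε2]
    linarith
  have hlog : Real.logb 25 y = Real.logb 25 D + Real.logb 5 (1 / ε) := by
    have hl5 : Real.log 5 ≠ 0 := (Real.log_pos (by norm_num)).ne'
    have h25 : Real.log 25 = 2 * Real.log 5 := by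
      rw [show (25 : ℝ) = 5 ^ 2 by norm_num, Real.log_pow]
      norm_num
    rw [hy, Real.logb, Real.logb, Real.logb, Real.log_div (by positivity) (by positivity),
      Real.log_pow, Real.log_div (by norm_num) hε.ne', Real.log_one, h25]
    field_simp
    push_cast
    ring
  have hlog0 : 0 ≤ Real.logb 25 y := Real.logb_nonneg (by norm_num) hy1
  set κ : ℕ := k0 + ⌈Real.logb 25 y⌉₊ with hκ
  have hκk : κ ≥ k0 := by omega
  obtain ⟨a, ha, x, hx, hnear⟩ := h κ hκk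
  obtain ⟨u, hu, hul, hup⟩ := words _ x hx
  set R : ℝ := (5 : ℝ) ^ a * 25 ^ κ with hR
  have hR0 : 0 < R := by positivity
  refine ⟨u, hu, ?_, ?_⟩
  · rw [hul]
    have h1 : ((⌈Real.logb 25 y⌉₊ : ℕ) : ℝ) < Real.logb 25 y + 1 := Nat.ceil_lt_add_one hlog0
    have h2 : (a : ℝ) ≤ A := by exact_mod_cast ha
    rw [hlog] at h1
    rw [hκ]
    push_cast
    rw [hlog]
    linarith
  · rw [RN_sqrt_pow, ← hR] at hup
    have hRc : ((R : ℝ) : ℂ) ≠ 0 := by exact_mod_cast hR0.ne'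
    have hprod : u.prod = ((1 / R : ℝ) : ℂ) • qmat x := by
      rw [← hup, smul_smul]
      have : ((1 / R : ℝ) : ℂ) * ((R : ℝ) : ℂ) = 1 := by
        rw [← Complex.ofReal_mul, one_div, inv_mul_cancel₀ hR0.ne', Complex.ofReal_one]
      rw [this, one_smul]
    have hdiff : target w - u.prod = mat (1 / s * (w.re : ℝ) - 1 / R * (x.re : ℝ))
        (1 / s * (w.imI : ℝ) - 1 / R * (x.imI : ℝ)) (1 / s * (w.imJ : ℝ) - 1 / R * (x.imJ : ℝ))
        (1 / s * (-(w.imK : ℝ)) - 1 / R * (-(x.imK : ℝ))) := by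
      rw [hprod, target, ← hm, ← hs, qmat, qmat, RN_smul_mat, RN_smul_mat, RN_sub_mat]
    rw [hdiff, norm_mat, Real.sqrt_lt' hε]
    have hNw : (w.re : ℝ) ^ 2 + (w.imI : ℝ) ^ 2 + (w.imJ : ℝ) ^ 2 + (w.imK : ℝ) ^ 2 = s ^ 2 := by
      rw [hs2, hm, normSq_eq]
      push_cast
      ring
    have hNx : (x.re : ℝ) ^ 2 + (x.imI : ℝ) ^ 2 + (x.imJ : ℝ) ^ 2 + (x.imK : ℝ) ^ 2 = R ^ 2 := by
      have h1 := hx.1
      rw [normSq_eq] at h1
      have h2 : ((x.re ^ 2 + x.imI ^ 2 + x.imJ ^ 2 + x.imK ^ 2 : ℤ) : ℝ)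
          = ((5 ^ (2 * a + 4 * κ) : ℤ) : ℝ) := by rw [h1]
      push_cast at h2
      rw [h2, hR, mul_pow, pow_add, ← pow_mul, ← pow_mul, mul_comm a 2,
        show (5 : ℝ) ^ (4 * κ) = 25 ^ (κ * 2) by
          rw [show (25 : ℝ) = 5 ^ 2 by norm_num, ← pow_mul]; congr 1; ring]
    have hP : (((x * star w).re : ℤ) : ℝ) = (x.re : ℝ) * w.re + x.imI * w.imI + x.imJ * w.imJ
        + x.imK * w.imK := by
      rw [Quaternion.re_mul]
      simp
    rw [hP] at hnear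
    set P : ℝ := (x.re : ℝ) * w.re + x.imI * w.imI + x.imJ * w.imJ + x.imK * w.imK with hPdef
    have hsR : s * R ≤ P + C * 5 ^ a := by
      have : s * R = s * 25 ^ κ * 5 ^ a := by rw [hR]; ring
      rw [this]; exact hnear
    have hexp : (1 / s * (w.re : ℝ) - 1 / R * (x.re : ℝ)) ^ 2
        + (1 / s * (w.imI : ℝ) - 1 / R * (x.imI : ℝ)) ^ 2
        + (1 / s * (w.imJ : ℝ) - 1 / R * (x.imJ : ℝ)) ^ 2
        + (1 / s * (-(w.imK : ℝ)) - 1 / R * (-(x.imK : ℝ))) ^ 2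
        = 2 * (s * R - P) / (s * R) := by
      have e1 : (1 / s * (w.re : ℝ) - 1 / R * (x.re : ℝ)) ^ 2
        + (1 / s * (w.imI : ℝ) - 1 / R * (x.imI : ℝ)) ^ 2
        + (1 / s * (w.imJ : ℝ) - 1 / R * (x.imJ : ℝ)) ^ 2
        + (1 / s * (-(w.imK : ℝ)) - 1 / R * (-(x.imK : ℝ))) ^ 2
        = ((w.re : ℝ) ^ 2 + (w.imI : ℝ) ^ 2 + (w.imJ : ℝ) ^ 2 + (w.imK : ℝ) ^ 2) / s ^ 2
          + ((x.re : ℝ) ^ 2 + (x.imI : ℝ) ^ 2 + (x.imJ : ℝ) ^ 2 + (x.imK : ℝ) ^ 2) / R ^ 2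
          - 2 * P / (s * R) := by
        rw [hPdef]
        field_simp
        ring
      rw [e1, hNw, hNx]
      field_simp
      ring
    rw [hexp]
    have hle : 2 * (s * R - P) / (s * R) ≤ 2 * |C| / s / 25 ^ κ := by
      have h1 : s * R - P ≤ |C| * 5 ^ a := by
        have h2 : C * 5 ^ a ≤ |C| * 5 ^ a := by
          gcongr
          exact le_abs_self C
        linarith
      calc 2 * (s * R - P) / (s * R) ≤ 2 * (|C| * 5 ^ a) / (s * R) := by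
            gcongr
        _ = 2 * |C| / s / 25 ^ κ := by
            rw [hR]
            field_simp
    refine hle.trans_lt ?_
    have h25 : y ≤ 25 ^ κ := by
      have h1 : Real.logb 25 y ≤ ((⌈Real.logb 25 y⌉₊ : ℕ) : ℝ) := Nat.le_ceil _
      have h2 : y = (25 : ℝ) ^ (Real.logb 25 y) :=
        (Real.rpow_logb (by norm_num) (by norm_num) (by linarith)).symm
      have h3 : y ≤ (25 : ℝ) ^ ⌈Real.logb 25 y⌉₊ := by
        calc y = (25 : ℝ) ^ (Real.logb 25 y) := h2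
          _ ≤ (25 : ℝ) ^ ((⌈Real.logb 25 y⌉₊ : ℕ) : ℝ) :=
            Real.rpow_le_rpow_of_exponent_le (by norm_num) h1
          _ = (25 : ℝ) ^ ⌈Real.logb 25 y⌉₊ := Real.rpow_natCast _ _
      refine h3.trans ?_
      exact pow_le_pow_right₀ (by norm_num) (by omega)
    rw [div_lt_iff₀ (by positivity)]
    have h1 : D ≤ ε ^ 2 * 25 ^ κ := by
      rw [hy, div_le_iff₀ hε2] at h25
      linarith
    linarith

end Pool.Agent.Lib.MP_06cce2_nt
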