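import Pool.Agent.Lib.MP_06cce2_nt.Rate

namespace Pool.Agent.Lib.MP_06cce2_nt

open Matrix Complex Quaternion
open scoped Matrix.Norms.L2Operator

private theorem rateRed_qmat_int (g : ℤ) (w : ℍ[ℤ]) :
    qmat ((g : ℍ[ℤ]) * w) = ((g : ℝ) : ℂ) • qmat w := by
  have h1 : ((g : ℍ[ℤ]) * w).re = g * w.re := by simp
  have h2 : ((g : ℍ[ℤ]) * w).imI = g * w.imI := by simp
  have h3 : ((g : ℍ[ℤ]) * w).imJ = g * w.imJ := by simp
  have h4 : ((g : ℍ[ℤ]) * w).imK = g * w.imK := by simp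
  unfold qmat mat
  rw [h1, h2, h3, h4]
  push_cast
  simp only [smul_add, smul_smul]
  congr 1
  congr 1
  · congr 1
    · congr 1
      ring
    · congr 1
      ring
  · congr 1
    ring

/-- `target (g w) = target w` for a positive integer `g` (`N(g w) = g^2 N(w)`). -/
theorem target_mul_int {w : ℍ[ℤ]} {g : ℤ} (hg : 0 < g) :
    target ((g : ℍ[ℤ]) * w) = target w := by
  have hgR : (0 : ℝ) < (g : ℝ) := by exact_mod_cast hg
  have hN : normSq ((g : ℍ[ℤ]) * w) = g ^ 2 * normSq w := by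
    rw [map_mul]
    congr 1
    rw [normSq_eq]
    simp
  have hs : Real.sqrt ((normSq ((g : ℍ[ℤ]) * w) : ℤ) : ℝ) =
      (g : ℝ) * Real.sqrt ((normSq w : ℤ) : ℝ) := by
    rw [hN]
    push_cast
    rw [Real.sqrt_mul (sq_nonneg _), Real.sqrt_sq hgR.le]
  unfold target
  rw [hs, rateRed_qmat_int, smul_smul]
  congr 1
  rw [← Complex.ofReal_mul]
  congr 1
  rw [one_div, one_div, mul_inv, mul_comm ((g : ℝ)⁻¹), mul_assoc, inv_mul_cancel₀ hgR.ne', mul_one]

private theorem rateRed_target_mul {v y : ℍ[ℤ]} (hv : normSq v = 5) :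
    target (v * y) = ((1 / (Real.sqrt 5 : ℂ)) • qmat v) * target y := by
  have hs : Real.sqrt ((normSq (v * y) : ℤ) : ℝ) =
      Real.sqrt 5 * Real.sqrt ((normSq y : ℤ) : ℝ) := by
    rw [map_mul, hv]
    push_cast
    rw [Real.sqrt_mul (by norm_num)]
  unfold target
  rw [hs, qmat_mul, smul_mul_smul_comm]
  congr 1
  push_cast
  rw [one_div_mul_one_div]

/-- Proof. `target (v y) = A * target y` with `A = (1/√5) • qmat v ∈ VBasis`
(`vbasis_of`, `qmat_mul`, `N(v) = 5`). If the word `u` approximates `target y` then `A :: u`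
approximates `target (v y)`: `‖A * (U - u.prod)‖ ≤ ‖A‖ ‖U - u.prod‖` and `‖A‖ = 1`
(`norm_vbasis`, `Matrix.l2_opNorm_mul`). The length grows by one: `c + 1`. -/
theorem hasRate_mul {v y : ℍ[ℤ]} (hv : v = qm 1 2 0 0 ∨ v = qm 1 (-2) 0 0 ∨ v = qm 1 0 2 0 ∨
      v = qm 1 0 (-2) 0 ∨ v = qm 1 0 0 2 ∨ v = qm 1 0 0 (-2)) (hy : HasRate (target y)) :
    HasRate (target (v * y)) := by
  have hA := vbasis_of hv
  have h5 : normSq v = 5 := by
    rw [normSq_eq]
    rcases hv with h | h | h | h | h | h <;> rw [h] <;> simp [qm]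
  rw [rateRed_target_mul h5]
  set A : M2 := (1 / (Real.sqrt 5 : ℂ)) • qmat v with hAdef
  obtain ⟨c, hc⟩ := hy
  refine ⟨c + 1, fun ε h0 h1 => ?_⟩
  obtain ⟨u, hu1, hu2, hu3⟩ := hc ε h0 h1
  refine ⟨A :: u, ?_, ?_, ?_⟩
  · intro B hB
    rcases List.mem_cons.1 hB with h | h
    · rw [h]; exact hA
    · exact hu1 B h
  · rw [List.length_cons]
    push_cast
    linarith
  · rw [List.prod_cons, ← mul_sub]
    calc ‖A * (target y - u.prod)‖ ≤ ‖A‖ * ‖target y - u.prod‖ := Matrix.l2_opNorm_mul _ _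
      _ = ‖target y - u.prod‖ := by rw [norm_vbasis hA, one_mul]
      _ < ε := hu3

end Pool.Agent.Lib.MP_06cce2_nt
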