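import Pool.Agent.Lib.MP_06cce2_nt.Near
import Pool.Agent.Lib.MP_06cce2_nt.RateNear
import Pool.Agent.Lib.MP_06cce2_nt.RateRed

namespace Pool.Agent.Lib.MP_06cce2_nt

open Quaternion Matrix Complex
open scoped Matrix.Norms.L2Operator

theorem normSq_pos_of_ne {w : ℍ[ℤ]} (hw : w ≠ 0) : 0 < normSq w := by
  have h1 : (0 : ℤ) ≤ normSq w := Quaternion.normSq_nonneg
  have h2 : normSq w ≠ 0 := fun h => hw (Quaternion.normSq_eq_zero.1 h)
  omega

theorem hasRate_aux (n : ℕ) : ∀ w : ℍ[ℤ], normSq w = n → w ≠ 0 → HasRate (target w) := by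
  induction n using Nat.strong_induction_on with
  | _ n ih =>
  intro w hn hw
  have hm := normSq_pos_of_ne hw
  by_cases hp : ∃ p : ℕ, p.Prime ∧ ((p : ℤ) : ℍ[ℤ]) ∣ w
  · obtain ⟨p, hp, w', rfl⟩ := hp
    have hw' : w' ≠ 0 := by
      rintro rfl
      simp at hw
    have hm' := normSq_pos_of_ne hw'
    have hpp : (0 : ℤ) < p := by exact_mod_cast hp.pos
    rw [target_mul_int hpp]
    have hN : normSq (((p : ℤ) : ℍ[ℤ]) * w') = (p : ℤ) ^ 2 * normSq w' := by
      rw [map_mul, Quaternion.normSq_intCast]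
      norm_num
    rw [hN] at hn
    have h2 : (2 : ℤ) ≤ p := by exact_mod_cast hp.two_le
    have hlt : normSq w' < n := by
      rw [← hn]; nlinarith [mul_pos hpp hpp]
    obtain ⟨k, hk⟩ : ∃ k : ℕ, normSq w' = k := ⟨(normSq w').toNat, by omega⟩
    exact ih k (by omega) w' hk hw'
  · have hno : ∀ p : ℕ, p.Prime → ¬ ((p : ℤ) : ℍ[ℤ]) ∣ w := fun p h1 h2 => hp ⟨p, h1, h2⟩
    by_cases h5 : (5 : ℤ) ∣ normSq w
    · obtain ⟨v, y, rfl, hv⟩ := exists_factor h5
      have hy : y ≠ 0 := by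
        rintro rfl
        simp at hw
      have hm' := normSq_pos_of_ne hy
      have hvN : normSq v = 5 := by
        rcases hv with rfl | rfl | rfl | rfl | rfl | rfl <;> simp [normSq_eq]
      rw [map_mul, hvN] at hn
      obtain ⟨k, hk⟩ : ∃ k : ℕ, normSq y = k := ⟨(normSq y).toNat, by omega⟩
      exact hasRate_mul hv (ih k (by omega) y hk hy)
    · have hprim : w.re % 2 = 1 ∨ w.imI % 2 = 1 ∨ w.imJ % 2 = 1 ∨ w.imK % 2 = 1 := by
        by_contra hcon
        apply hno 2 Nat.prime_two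
        rw [dvd_iff]
        push_cast
        refine ⟨?_, ?_, ?_, ?_⟩ <;> omega
      obtain ⟨A, C, k0, h⟩ := near hprim (fun p h1 _ _ => hno p h1) h5
      exact rate_of_near hm h

/-- every nonzero integral quaternion -/
theorem hasRate_all : ∀ w : ℍ[ℤ], w ≠ 0 → HasRate (target w) := by
  intro w hw
  have hm := normSq_pos_of_ne hw
  exact hasRate_aux (normSq w).toNat w (by omega) hw

end Pool.Agent.Lib.MP_06cce2_nt
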