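import Mathlib

namespace Pool.Agent.Lib.MP_06cce2_nt

open Matrix Complex

/-- complex 2 x 2 matrices -/
abbrev M2 : Type := Matrix (Fin 2) (Fin 2) ℂ

/-- Pauli matrix X -/
def PX : M2 := !![0, 1; 1, 0]
/-- Pauli matrix Y -/
def PY : M2 := !![0, -I; I, 0]
/-- Pauli matrix Z -/
def PZ : M2 := !![1, 0; 0, -1]

/-- the V-basis -/
def VBasis : Set M2 :=
  {A | ∃ P : M2, (P = PX ∨ P = PY ∨ P = PZ) ∧
    (A = (1 / (Real.sqrt 5 : ℂ)) • (1 + (2 * I) • P) ∨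
      A = (1 / (Real.sqrt 5 : ℂ)) • (1 - (2 * I) • P))}

/-- `a + i (b X + c Y + d Z)` -/
def mat (a b c d : ℝ) : M2 := (a : ℂ) • (1 : M2) + I • ((b : ℂ) • PX + (c : ℂ) • PY + (d : ℂ) • PZ)

end Pool.Agent.Lib.MP_06cce2_nt
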