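import Pool.Agent.Lib.MP_06cce2_nt.MatDefs

namespace Pool.Agent.Lib.MP_06cce2_nt

open Matrix Complex
open scoped Matrix.Norms.L2Operator

theorem mat_eq (a b c d : ℝ) :
    mat a b c d = !![(a : ℂ) + d * I, (c : ℂ) + b * I; -(c : ℂ) + b * I, (a : ℂ) - d * I] := by
  ext i j
  fin_cases i <;> fin_cases j
  · simp [mat, PX, PY, PZ]
    ring
  · simp [mat, PX, PY, PZ]
    linear_combination (-(c : ℂ)) * I_mul_I
  · simp [mat, PX, PY, PZ]
    linear_combination (c : ℂ) * I_mul_I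
  · simp [mat, PX, PY, PZ]
    ring

theorem mat_conj_mul (a b c d : ℝ) :
    (mat a b c d)ᴴ * mat a b c d
      = diagonal (fun _ : Fin 2 => ((a ^ 2 + b ^ 2 + c ^ 2 + d ^ 2 : ℝ) : ℂ)) := by
  rw [mat_eq]
  ext i j
  fin_cases i <;> fin_cases j
  · simp [Matrix.mul_apply, Fin.sum_univ_two, Matrix.conjTranspose_apply]
    linear_combination (-(d : ℂ) ^ 2 - (b : ℂ) ^ 2) * I_mul_I
  · simp [Matrix.mul_apply, Fin.sum_univ_two, Matrix.conjTranspose_apply]
    ring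
  · simp [Matrix.mul_apply, Fin.sum_univ_two, Matrix.conjTranspose_apply]
    ring
  · simp [Matrix.mul_apply, Fin.sum_univ_two, Matrix.conjTranspose_apply]
    linear_combination (-(d : ℂ) ^ 2 - (b : ℂ) ^ 2) * I_mul_I

/-- Proof: `(mat a b c d)ᴴ * mat a b c d = (a^2+b^2+c^2+d^2) • 1` (entrywise) and the C*-identity
`Matrix.l2_opNorm_conjTranspose_mul_self` : `‖Aᴴ * A‖ = ‖A‖ * ‖A‖`. -/
theorem norm_mat (a b c d : ℝ) : ‖mat a b c d‖ = Real.sqrt (a ^ 2 + b ^ 2 + c ^ 2 + d ^ 2) := by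
  have hN : (0 : ℝ) ≤ a ^ 2 + b ^ 2 + c ^ 2 + d ^ 2 := by positivity
  have h := l2_opNorm_conjTranspose_mul_self (mat a b c d)
  rw [mat_conj_mul, l2_opNorm_diagonal, pi_norm_const, Complex.norm_real, Real.norm_eq_abs,
    abs_of_nonneg hN] at h
  rw [h, Real.sqrt_mul_self (norm_nonneg _)]

/-- elements of the V-basis have norm 1 (they are `mat` of `(1, ±2, 0, 0) / √5` etc.) -/
theorem norm_vbasis {A : M2} (hA : A ∈ VBasis) : ‖A‖ = 1 := by
  have h5 : (Real.sqrt 5) ^ 2 = 5 := Real.sq_sqrt (by norm_num)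
  have h50 : Real.sqrt 5 ≠ 0 := by positivity
  have key : ∀ b c d : ℝ, b ^ 2 + c ^ 2 + d ^ 2 = 4 →
      ‖(1 / (Real.sqrt 5 : ℂ)) • mat 1 b c d‖ = 1 := by
    intro b c d hb
    rw [norm_smul, norm_mat]
    have e1 : (1 : ℝ) ^ 2 + b ^ 2 + c ^ 2 + d ^ 2 = 5 := by linarith
    rw [e1, norm_div, norm_one, Complex.norm_real, Real.norm_eq_abs,
      abs_of_pos (by positivity : (0 : ℝ) < Real.sqrt 5)]
    field_simp
  have ex : ∀ (b c d : ℝ) (M : M2), I • ((b : ℂ) • PX + (c : ℂ) • PY + (d : ℂ) • PZ) = M →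
      mat 1 b c d = 1 + M := by
    intro b c d M hM
    unfold mat
    rw [hM]
    simp
  obtain ⟨P, hP, hA⟩ := hA
  rcases hP with rfl | rfl | rfl
  · rcases hA with rfl | rfl
    · rw [← ex 2 0 0 ((2 * I) • PX) (by simp [smul_smul, mul_comm])]
      exact key _ _ _ (by norm_num)
    · rw [sub_eq_add_neg, ← ex (-2) 0 0 (-((2 * I) • PX)) (by simp [smul_smul, mul_comm])]
      exact key _ _ _ (by norm_num)
  · rcases hA with rfl | rfl
    · rw [← ex 0 2 0 ((2 * I) • PY) (by simp [smul_smul, mul_comm])]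
      exact key _ _ _ (by norm_num)
    · rw [sub_eq_add_neg, ← ex 0 (-2) 0 (-((2 * I) • PY)) (by simp [smul_smul, mul_comm])]
      exact key _ _ _ (by norm_num)
  · rcases hA with rfl | rfl
    · rw [← ex 0 0 2 ((2 * I) • PZ) (by simp [smul_smul, mul_comm])]
      exact key _ _ _ (by norm_num)
    · rw [sub_eq_add_neg, ← ex 0 0 (-2) (-((2 * I) • PZ)) (by simp [smul_smul, mul_comm])]
      exact key _ _ _ (by norm_num)

end Pool.Agent.Lib.MP_06cce2_nt
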