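import Mathlib

namespace Pool.Agent.Lib.MP_06cce2_nt

theorem slice_coprime_part {m : ℤ} (hm : 0 < m) :
    ∃ m' : ℤ, IsCoprime m' 48 ∧
      ∀ q : ℕ, q.Prime → q ≠ 2 → q ≠ 3 → (q : ℤ) ∣ m → (q : ℤ) ∣ m' := by
  obtain ⟨n, rfl⟩ : ∃ n : ℕ, m = (n : ℤ) := ⟨m.toNat, (Int.toNat_of_nonneg hm.le).symm⟩
  have hn : n ≠ 0 := by
    rintro rfl
    simp at hm
  obtain ⟨a, n1, h1, h2⟩ := Nat.exists_eq_pow_mul_and_not_dvd hn 2 (by norm_num)
  have hn1 : n1 ≠ 0 := by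
    rintro rfl
    exact h1 (dvd_zero _)
  obtain ⟨b, n2, h3, h4⟩ := Nat.exists_eq_pow_mul_and_not_dvd hn1 3 (by norm_num)
  have h5 : ¬ 2 ∣ n2 := fun h => h1 (h4 ▸ h.mul_left _)
  refine ⟨(n2 : ℤ), ?_, ?_⟩
  · have h6 : Nat.Coprime n2 48 := by
      have h7 : Nat.Coprime 2 n2 := (Nat.Prime.coprime_iff_not_dvd Nat.prime_two).2 h5
      have h8 : Nat.Coprime 3 n2 := (Nat.Prime.coprime_iff_not_dvd Nat.prime_three).2 h3
      have h9 : Nat.Coprime (2 ^ 4 * 3) n2 := Nat.Coprime.mul_left (h7.pow_left 4) h8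
      exact h9.symm
    exact_mod_cast Nat.isCoprime_iff_coprime.2 h6
  · intro q hq hq2 hq3 hqn
    have h6 : q ∣ n := by exact_mod_cast hqn
    rw [h2, h4] at h6
    rcases (Nat.Prime.dvd_mul hq).1 h6 with h7 | h7
    · exact absurd ((Nat.prime_dvd_prime_iff_eq hq Nat.prime_two).1 (hq.dvd_of_dvd_pow h7)) hq2
    · rcases (Nat.Prime.dvd_mul hq).1 h7 with h8 | h8
      · exact absurd ((Nat.prime_dvd_prime_iff_eq hq Nat.prime_three).1
          (hq.dvd_of_dvd_pow h8)) hq3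
      · exact_mod_cast h8

/-- Choice of the residue class of the real part.
Proof. Let `mo` be the odd part of `m` (`m = 2^s mo`). Put `c = 0` if `m % 3 = 2`, `c = 1`
otherwise. There is `e'` with `e' ≡ 1 mod q` for every odd prime `q ≠ 3` dividing `m`,
`e' ≡ c mod 3` (e.g. if `3 ∣ m` or `c = 1` take `e' = 1`; if `m % 3 = 2`, then `3` and `mo` are
coprime: CRT with `e' ≡ 1 mod mo`, `e' ≡ 0 mod 3`). Then CRT with modulus 16 and `3 mo`
(coprime): `e ≡ e' mod 3 mo`, `e ≡ τ mod 16`. The condition mod 3: `m % 3 = 0`: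
`m - e^2 ≡ -1 ≡ 2`; `m % 3 = 1`: `m - e^2 ≡ 0`; `m % 3 = 2`: `e ≡ 0`, `m - e^2 ≡ 2`. -/
theorem exists_residue {m : ℤ} (hm : 0 < m) (τ : ℤ) :
    ∃ e : ℤ, e % 16 = τ % 16 ∧
      (∀ q : ℕ, q.Prime → q ≠ 2 → (q : ℤ) ∣ m → ¬ (q : ℤ) ∣ e) ∧ (m - e ^ 2) % 3 ≠ 1 := by
  obtain ⟨m', hcop, hm'⟩ := slice_coprime_part hm
  obtain ⟨u, v, huv⟩ := hcop
  obtain ⟨c, hc⟩ : ∃ c : ℤ, c = if m % 3 = 2 then 0 else 1 := ⟨_, rfl⟩
  have h3 : (33 * τ + 16 * c + 48 * (v * (1 - (33 * τ + 16 * c)))) % 3 = c := by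
    generalize v * (1 - (33 * τ + 16 * c)) = z
    split_ifs at hc <;> omega
  refine ⟨33 * τ + 16 * c + 48 * (v * (1 - (33 * τ + 16 * c))), ?_, ?_, ?_⟩
  · generalize v * (1 - (33 * τ + 16 * c)) = z
    omega
  · intro q hq hq2 hqm hqe
    by_cases hq3 : q = 3
    · subst hq3
      have h5 : (3 : ℤ) ∣ m := by exact_mod_cast hqm
      have h4 : c = 1 := by
        rw [hc, if_neg]
        omega
      have h6 : (3 : ℤ) ∣ 33 * τ + 16 * c + 48 * (v * (1 - (33 * τ + 16 * c))) := by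
        exact_mod_cast hqe
      generalize 33 * τ + 16 * c + 48 * (v * (1 - (33 * τ + 16 * c))) = z at h3 h6
      omega
    · have h5 := hm' q hq hq2 hq3 hqm
      have h6 : (33 * τ + 16 * c + 48 * (v * (1 - (33 * τ + 16 * c)))) =
          1 + m' * (u * ((33 * τ + 16 * c) - 1)) := by
        linear_combination (-(33 * τ + 16 * c - 1)) * huv
      rw [h6] at hqe
      have h7 : (q : ℤ) ∣ 1 := (Int.dvd_add_left (h5.mul_right _)).1 hqe
      have h8 := Int.le_of_dvd one_pos h7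
      have h9 := hq.two_le
      omega
  · generalize 33 * τ + 16 * c + 48 * (v * (1 - (33 * τ + 16 * c))) = z at h3
    obtain ⟨y, hy⟩ : ∃ y, z = 3 * y + c := ⟨z / 3, by omega⟩
    have h4 : m - z ^ 2 = m - c ^ 2 - 3 * (3 * y ^ 2 + 2 * y * c) := by
      rw [hy]
      ring
    rw [h4]
    generalize 3 * y ^ 2 + 2 * y * c = w
    split_ifs at hc with h5
    · subst hc
      norm_num
      omega
    · subst hc
      norm_num
      omega

/-- Choice of the real part.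
Proof. Let `B = Nat.sqrt (m * 625 ^ κ)` (floor of `√m 25^κ`); choose `t` in `[B - M, B - 1]`
with `t ≡ e mod M`. Then `t^2 < B^2 ≤ m 625^κ`, `√m 25^κ < B + 1 ≤ t + M + 1`, and `t > 0` once
`B > M`, i.e. for large `κ`. So `C = M + 1`. -/
theorem exists_slice {m M e : ℤ} (hm : 0 < m) (hM : 0 < M) :
    ∃ C : ℝ, ∃ k0 : ℕ, ∀ κ ≥ k0, ∃ t : ℤ, 0 < t ∧ M ∣ t - e ∧ 0 < m * 625 ^ κ - t ^ 2 ∧
      Real.sqrt (m : ℝ) * 25 ^ κ ≤ (t : ℝ) + C := by
  refine ⟨(M : ℝ) + 1, ((M + 1) ^ 2).toNat, fun κ hκ => ?_⟩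
  obtain ⟨N, hN⟩ : ∃ N : ℕ, (N : ℤ) = m * 625 ^ κ := ⟨m.toNat * 625 ^ κ, by
    push_cast
    rw [Int.toNat_of_nonneg hm.le]⟩
  obtain ⟨B, hB⟩ : ∃ B : ℕ, B = Nat.sqrt N := ⟨_, rfl⟩
  have h1 : (B : ℤ) * B ≤ N := by
    rw [hB]
    exact_mod_cast Nat.sqrt_le N
  have h2 : (N : ℤ) < ((B : ℤ) + 1) * ((B : ℤ) + 1) := by
    rw [hB]
    exact_mod_cast Nat.lt_succ_sqrt N
  have h3 : (M + 1) ^ 2 < (N : ℤ) := by
    have h4 : (M + 1) ^ 2 ≤ (κ : ℤ) := by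
      have := Int.toNat_le.1 hκ
      exact this
    have h5 : (κ : ℤ) < 625 ^ κ := by
      exact_mod_cast Nat.lt_pow_self (by norm_num : 1 < 625)
    have h6 : (625 : ℤ) ^ κ ≤ m * 625 ^ κ :=
      le_mul_of_one_le_left (by positivity) (by omega)
    rw [hN]
    linarith
  have h4 : M + 1 ≤ (B : ℤ) := by
    by_contra hcon
    push Not at hcon
    nlinarith
  have h5 := Int.emod_nonneg ((B : ℤ) - 1 - e) hM.ne'
  have h6 := Int.emod_lt_of_pos ((B : ℤ) - 1 - e) hM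
  refine ⟨(B : ℤ) - 1 - ((B : ℤ) - 1 - e) % M, by omega, ?_, ?_, ?_⟩
  · have h8 : (B : ℤ) - 1 - ((B : ℤ) - 1 - e) % M - e =
        ((B : ℤ) - 1 - e) - ((B : ℤ) - 1 - e) % M := by ring
    rw [h8]
    exact Int.dvd_self_sub_emod
  · rw [← hN]
    generalize ((B : ℤ) - 1 - e) % M = r at h5 h6
    nlinarith
  · have h7 : (Real.sqrt (m : ℝ) * 25 ^ κ) ^ 2 = (N : ℝ) := by
      have h8 : (N : ℝ) = (m : ℝ) * 625 ^ κ := by
        exact_mod_cast hN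
      rw [mul_pow, Real.sq_sqrt (by exact_mod_cast hm.le), h8, ← pow_mul, mul_comm κ 2, pow_mul]
      norm_num
    have h8 : (N : ℝ) < ((B : ℝ) + 1) * ((B : ℝ) + 1) := by exact_mod_cast h2
    have h9 : Real.sqrt (m : ℝ) * 25 ^ κ ≤ (B : ℝ) + 1 := by
      by_contra hcon
      push Not at hcon
      have h10 : (0 : ℝ) ≤ (B : ℝ) + 1 := by positivity
      nlinarith
    have h11 : ((((B : ℤ) - 1 - e) % M : ℤ) : ℝ) + 1 ≤ (M : ℝ) := by
      exact_mod_cast h6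
    push_cast at h11 ⊢
    linarith

end Pool.Agent.Lib.MP_06cce2_nt
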