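import Pool.Agent.Lib.MP_06cce2_nt.Trans

namespace Pool.Agent.Lib.MP_06cce2_nt

open Quaternion

private theorem tb_dvd_of_class {mo : ℤ} {z z' : ℍ[ℤ]} (h : (mo : ℍ[ℤ]) ∣ z - z') (u : ℍ[ℤ])
    (h' : (mo : ℍ[ℤ]) ∣ z' * u) : (mo : ℍ[ℤ]) ∣ z * u := by
  have h1 : (mo : ℍ[ℤ]) ∣ (z - z') * u := by
    obtain ⟨c, hc⟩ := h
    exact ⟨c * u, by rw [hc, mul_assoc]⟩
  have h2 := dvd_add h1 h'
  rwa [← add_mul, sub_add_cancel] at h2

private theorem tb_class {mo : ℤ} (hmo : 0 < mo) {z z' : ℍ[ℤ]}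
    (h : (fun i : Fin 4 => ((![z.re, z.imI, z.imJ, z.imK] i : ℤ) : ZMod mo.toNat)) =
      fun i => ((![z'.re, z'.imI, z'.imJ, z'.imK] i : ℤ) : ZMod mo.toNat)) :
    (mo : ℍ[ℤ]) ∣ z - z' := by
  have hm : ((mo.toNat : ℕ) : ℤ) = mo := Int.toNat_of_nonneg hmo.le
  have key : ∀ a b : ℤ, (a : ZMod mo.toNat) = (b : ZMod mo.toNat) → mo ∣ a - b := by
    intro a b hab
    have h1 := (ZMod.intCast_eq_intCast_iff_dvd_sub b a mo.toNat).1 hab.symm
    rwa [hm] at h1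
  rw [dvd_iff]
  have h0 := congrFun h 0
  have h1 := congrFun h 1
  have h2 := congrFun h 2
  have h3 := congrFun h 3
  refine ⟨?_, ?_, ?_, ?_⟩
  · simpa using key _ _ h0
  · simpa using key _ _ h1
  · simpa using key _ _ h2
  · simpa using key _ _ h3

/-- The exponent `l` in `trans` can be bounded uniformly in `z`.
Proof. `mo ∣ z * h * w` depends only on the class of `z` mod `mo`. Let `S` be the finite type
`Fin 4 → ZMod mo.toNat` (or a product; `NeZero` needed for the instance) and for a class `σ : S`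
let `f σ` be some `l` such that there are `h` and `z'` in the class `σ` with `Lam l h` and
`mo ∣ z' * h * w`, if there is such an `l`, and `0` otherwise. Put `A = sup f`
(`Finset.univ.sup f`). For `z` as in the statement `trans` gives some `l, h`, so the class of `z`
has a choice: `h'`, `z'` with `z - z'` divisible by `mo`, `Lam (f σ) h'`, `mo ∣ z' * h' * w`, so
`mo ∣ z * h' * w`. -/
theorem trans_bounded {mo : ℤ} (hmo : 0 < mo) (h2 : mo % 2 = 1) (h5 : ¬ (5 : ℤ) ∣ mo) {w : ℍ[ℤ]}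
    (hw : ∀ p : ℕ, p.Prime → (p : ℤ) ∣ mo → ¬ ((p : ℤ) : ℍ[ℤ]) ∣ w) (hwn : mo ∣ normSq w) :
    ∃ A : ℕ, ∀ z : ℍ[ℤ], (∀ p : ℕ, p.Prime → (p : ℤ) ∣ mo → ¬ ((p : ℤ) : ℍ[ℤ]) ∣ z) →
      mo ∣ normSq z → ∃ l ≤ A, ∃ h, Lam l h ∧ (mo : ℍ[ℤ]) ∣ z * h * w := by
  classical
  haveI : NeZero mo.toNat := ⟨by
    intro h
    have := Int.toNat_eq_zero.1 h
    omega⟩
  set cl : ℍ[ℤ] → (Fin 4 → ZMod mo.toNat) := fun z i =>
    ((![z.re, z.imI, z.imJ, z.imK] i : ℤ) : ZMod mo.toNat) with hcl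
  set P : (Fin 4 → ZMod mo.toNat) → ℕ → Prop := fun σ l =>
    ∃ h z', cl z' = σ ∧ Lam l h ∧ (mo : ℍ[ℤ]) ∣ z' * h * w with hP
  set f : (Fin 4 → ZMod mo.toNat) → ℕ := fun σ =>
    if h : ∃ l, P σ l then h.choose else 0 with hf
  refine ⟨Finset.univ.sup f, fun z hz hzn => ?_⟩
  obtain ⟨l, h, hl, hd⟩ := trans hmo h2 h5 hz hw hzn hwn
  have hex : ∃ l, P (cl z) l := ⟨l, h, z, rfl, hl, hd⟩
  have hfz : f (cl z) = hex.choose := by
    rw [hf]
    exact dif_pos hex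
  obtain ⟨h', z', hz', hl', hd'⟩ := hex.choose_spec
  refine ⟨f (cl z), Finset.le_sup (Finset.mem_univ _), h', ?_, ?_⟩
  · rw [hfz]; exact hl'
  · rw [mul_assoc] at hd' ⊢
    exact tb_dvd_of_class (tb_class hmo hz'.symm) _ hd'

end Pool.Agent.Lib.MP_06cce2_nt
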