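import Pool.Agent.Lib.MP_06cce2_nt.Sel
import Pool.Agent.Lib.MP_06cce2_nt.Slice
import Pool.Agent.Lib.MP_06cce2_nt.TransB
import Pool.Agent.Lib.MP_06cce2_nt.FinalX

namespace Pool.Agent.Lib.MP_06cce2_nt

open Quaternion

theorem pow_625_mod (κ : ℕ) : (625 : ℤ) ^ κ % 48 = 1 := by
  induction κ with
  | zero => norm_num
  | succ k ih => rw [pow_succ, Int.mul_emod, ih]; norm_num

theorem exists_two_pow {m : ℤ} (hm : 0 < m) : ∃ (s : ℕ) (mo : ℤ), m = 2 ^ s * mo ∧ mo % 2 = 1 := by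
  obtain ⟨N, rfl⟩ : ∃ N : ℕ, m = N := ⟨m.toNat, by omega⟩
  obtain ⟨s, r, hr, h⟩ := Nat.exists_eq_two_pow_mul_odd (n := N) (by omega)
  refine ⟨s, r, by exact_mod_cast h, ?_⟩
  have := Nat.odd_iff.1 hr
  omega

/-- Assembly for primitive `w`. -/
theorem near {w : ℍ[ℤ]}
    (hprim : w.re % 2 = 1 ∨ w.imI % 2 = 1 ∨ w.imJ % 2 = 1 ∨ w.imK % 2 = 1)
    (hodd : ∀ p : ℕ, p.Prime → p ≠ 2 → (p : ℤ) ∣ normSq w → ¬ ((p : ℤ) : ℍ[ℤ]) ∣ w)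
    (h5 : ¬ (5 : ℤ) ∣ normSq w) :
    ∃ (A : ℕ) (C : ℝ) (k0 : ℕ), ∀ κ ≥ k0, ∃ a ≤ A, ∃ x : ℍ[ℤ], Lam (2 * a + 4 * κ) x ∧
      Real.sqrt ((normSq w : ℤ) : ℝ) * 25 ^ κ * 5 ^ a ≤ (((x * star w).re : ℤ) : ℝ) + C * 5 ^ a := by
  have hm : 0 < normSq w := by
    rw [normSq_eq]
    rcases hprim with h | h | h | h
    · have : w.re ≠ 0 := by omega
      positivity
    · have : w.imI ≠ 0 := by omega
      positivity
    · have : w.imJ ≠ 0 := by omega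
      positivity
    · have : w.imK ≠ 0 := by omega
      positivity
  obtain ⟨s, mo, hs, hmo⟩ := exists_two_pow hm
  have hmo0 : 0 < mo := by
    have h2 : (0 : ℤ) < 2 ^ s := by positivity
    rw [hs] at hm
    exact (mul_pos_iff_of_pos_left h2).1 hm
  have hdvd : mo ∣ normSq w := ⟨2 ^ s, by rw [hs]; ring⟩
  have hmo5 : ¬ (5 : ℤ) ∣ mo := fun h => h5 (h.trans hdvd)
  have hne2 : ∀ p : ℕ, p.Prime → (p : ℤ) ∣ mo → p ≠ 2 := by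
    rintro p hp hd rfl
    obtain ⟨c, hc⟩ := hd
    push_cast at hc
    omega
  have hwp : ∀ p : ℕ, p.Prime → (p : ℤ) ∣ mo → ¬ ((p : ℤ) : ℍ[ℤ]) ∣ w := fun p hp hd =>
    hodd p hp (hne2 p hp hd) (hd.trans hdvd)
  obtain ⟨A, hA⟩ := trans_bounded hmo0 hmo hmo5 hwp hdvd
  obtain ⟨τ, hτ⟩ := sel hprim hs hmo
  obtain ⟨e, he1, he2, he3⟩ := exists_residue hm τ
  obtain ⟨C, k0, hC⟩ := exists_slice (m := normSq w) (M := 48 * normSq w) (e := e) hm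
    (by positivity)
  refine ⟨A, C, k0, fun κ hκ => ?_⟩
  obtain ⟨t, ht0, ⟨c, hc⟩, ht2, ht3⟩ := hC κ hκ
  have hQ48 := pow_625_mod κ
  obtain ⟨q, hq⟩ : ∃ q : ℤ, (625 : ℤ) ^ κ = 48 * q + 1 := ⟨(625 : ℤ) ^ κ / 48, by omega⟩
  have hQ16 : (625 : ℤ) ^ κ % 16 = 1 := by omega
  have ht : t = e + 48 * (normSq w * c) := by linarith
  have ht16 : t % 16 = τ % 16 := by omega
  have h3 : (normSq w * 625 ^ κ - t ^ 2) % 3 ≠ 1 := by
    have : normSq w * 625 ^ κ - t ^ 2 = (normSq w - e ^ 2) + 3 * (16 * (normSq w * q) -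
        32 * (e * (normSq w * c)) - 768 * (normSq w * c) ^ 2) := by
      rw [hq, ht]; ring
    rw [this, Int.add_mul_emod_self_left]
    exact he3
  obtain ⟨z, hz1, hz2, hz3⟩ := hτ _ t hQ16 ht16 ht2 h3
  have hzp : ∀ p : ℕ, p.Prime → (p : ℤ) ∣ mo → ¬ ((p : ℤ) : ℍ[ℤ]) ∣ z := by
    intro p hp hd hz
    have hpt : (p : ℤ) ∣ t := by rw [← hz1]; exact ((dvd_iff _ _).1 hz).1
    apply he2 p hp (hne2 p hp hd) (hd.trans hdvd)
    have : e = t - normSq w * (48 * c) := by linarith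
    rw [this]
    exact dvd_sub hpt (Dvd.dvd.mul_right (hd.trans hdvd) _)
  obtain ⟨a, ha, h, hh, hd⟩ := hA z hzp (by rw [hz2]; exact hdvd.mul_right _)
  obtain ⟨x, hx1, hx2, hx3⟩ := final_x hs hmo hmo0 hprim hh hz2 hz3 hd
  refine ⟨a, ha, x, Lam.of ?_ hx1, ?_⟩
  · rw [hx2, pow_add, pow_mul 5 4 κ]; norm_num
  · rw [hx3, hz1]
    push_cast
    have h5a : (0 : ℝ) < 5 ^ a := by positivity
    calc Real.sqrt ((normSq w : ℤ) : ℝ) * 25 ^ κ * 5 ^ a ≤ ((t : ℝ) + C) * 5 ^ a :=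
          mul_le_mul_of_nonneg_right ht3 h5a.le
      _ = 5 ^ a * (t : ℝ) + C * 5 ^ a := by ring

end Pool.Agent.Lib.MP_06cce2_nt
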