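import Pool.Agent.Lib.MP_06cce2_nt.Defs

namespace Pool.Agent.Lib.MP_06cce2_nt

open Quaternion

private theorem propor_sandwich (z b : ℍ[ℤ]) :
    z * star b + b * star z =
      ((2 * (z.re * b.re + z.imI * b.imI + z.imJ * b.imJ + z.imK * b.imK) : ℤ) : ℍ[ℤ]) := by
  obtain ⟨n, hn⟩ : ∃ n : ℤ,
      n = 2 * (z.re * b.re + z.imI * b.imI + z.imJ * b.imJ + z.imK * b.imK) := ⟨_, rfl⟩
  rw [← hn]
  ext <;> simp <;> try rw [hn]
  all_goals ring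

private theorem propor_exists {p : ℕ} {z : ℍ[ℤ]} (hz : ¬ ((p : ℤ) : ℍ[ℤ]) ∣ z) :
    ∃ b : ℍ[ℤ], ¬ (p : ℤ) ∣ z.re * b.re + z.imI * b.imI + z.imJ * b.imJ + z.imK * b.imK := by
  by_contra hcon
  push Not at hcon
  refine hz ((dvd_iff _ _).2 ⟨?_, ?_, ?_, ?_⟩)
  · simpa using hcon (qm 1 0 0 0)
  · simpa using hcon (qm 0 1 0 0)
  · simpa using hcon (qm 0 0 1 0)
  · simpa using hcon (qm 0 0 0 1)

private theorem propor_two {p : ℕ} (hp : p.Prime) (h2 : p ≠ 2) {a : ℤ} (h : (p : ℤ) ∣ 2 * a) :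
    (p : ℤ) ∣ a := by
  have hpp : Prime (p : ℤ) := Nat.prime_iff_prime_int.1 hp
  rcases hpp.dvd_or_dvd h with h | h
  · exfalso
    have h3 : p ∣ 2 := by exact_mod_cast h
    rcases (Nat.dvd_prime Nat.prime_two).1 h3 with h4 | h4
    · exact hp.one_lt.ne' h4
    · exact h2 h4
  · exact h

private theorem propor_star_mul {p : ℕ} (hp : p.Prime) (h2 : p ≠ 2) {z X Y : ℍ[ℤ]}
    (hz : ¬ ((p : ℤ) : ℍ[ℤ]) ∣ z) (hX : ((p : ℤ) : ℍ[ℤ]) ∣ star z * X)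
    (hY : ((p : ℤ) : ℍ[ℤ]) ∣ star z * Y) : ((p : ℤ) : ℍ[ℤ]) ∣ star X * Y := by
  have hpp : Prime (p : ℤ) := Nat.prime_iff_prime_int.1 hp
  obtain ⟨b, hb⟩ := propor_exists hz
  set m := z.re * b.re + z.imI * b.imI + z.imJ * b.imJ + z.imK * b.imK with hm
  have h1 : ((p : ℤ) : ℍ[ℤ]) ∣ star X * z := by
    have := dvd_star p hX
    rwa [star_mul, star_star] at this
  have h3 : ((2 * m : ℤ) : ℍ[ℤ]) * (star X * Y) =
      (star X * z) * (star b * Y) + (star X * b) * (star z * Y) := by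
    rw [← mul_assoc, Int.cast_comm, hm, ← propor_sandwich z b]
    noncomm_ring
  have h4 : ((p : ℤ) : ℍ[ℤ]) ∣ ((2 * m : ℤ) : ℍ[ℤ]) * (star X * Y) := by
    rw [h3]
    exact dvd_add (h1.mul_right _) (dvd_mul_left' _ _ hY)
  obtain ⟨n, hn⟩ : ∃ n : ℤ, n = 2 * m := ⟨_, rfl⟩
  rw [← hn] at h4
  have key : ∀ a : ℤ, (p : ℤ) ∣ n * a → (p : ℤ) ∣ a := by
    intro a ha
    rw [hn, mul_assoc] at ha
    rcases hpp.dvd_or_dvd (propor_two hp h2 ha) with h | h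
    · exact absurd h hb
    · exact h
  rw [dvd_iff] at h4 ⊢
  obtain ⟨e1, e2, e3, e4⟩ := h4
  refine ⟨key _ ?_, key _ ?_, key _ ?_, key _ ?_⟩
  · rw [Quaternion.re_mul] at e1
    simpa using e1
  · rw [Quaternion.imI_mul] at e2
    simpa using e2
  · rw [Quaternion.imJ_mul] at e3
    simpa using e3
  · rw [Quaternion.imK_mul] at e4
    simpa using e4

private theorem propor_lin {p xa xb ya yb u : ℤ} (h1 : p ∣ xa * yb - xb * ya)
    (h2 : p ∣ 1 - u * yb) : p ∣ xa - xb * u * ya := by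
  have e : xa - xb * u * ya = xa * (1 - u * yb) + u * (xa * yb - xb * ya) := by ring
  rw [e]
  exact dvd_add (h2.mul_left _) (h1.mul_left _)

private theorem propor_inv {p : ℕ} (hp : p.Prime) {y : ℤ} (h : ¬ (p : ℤ) ∣ y) :
    ∃ u : ℤ, (p : ℤ) ∣ 1 - u * y := by
  have hpp : Prime (p : ℤ) := Nat.prime_iff_prime_int.1 hp
  obtain ⟨a, b, hab⟩ := (hpp.irreducible.coprime_iff_not_dvd).2 h
  exact ⟨b, a, by linear_combination -hab⟩

/-- `X` and `Y` are proportional mod `p` (`p` odd prime, all mod `p`).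
Proof. (1) `p ∣ star X * Y`: for every `b`, `z star b + b star z = 2 (z·b)` is a scalar (`·` =
scalar product of the coordinate vectors), so
`2 (z·b) star X Y = (star X z) star b Y + star X b (star z Y) ≡ 0` (`star X z = star (star z X)`).
Choose `b ∈ {1, i, j, k}` with `z·b` (a coordinate of `z`) not divisible by `p`.
(2) `p ∣ X * star Y` in the same way: `2 (w·b) X star Y = X (star w b + star b w) star Y`
`= (X star w) b star Y + X star b (w star Y) ≡ 0` (`w star Y = star (Y star w)`).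
(3) With `X = X0 + X'`, `Y = Y0 + Y'` (`X', Y'` imaginary parts as vectors):
`X star Y` has imaginary part `Y0 X' - X0 Y' - X' × Y'` and `star X Y` has imaginary part
`X0 Y' - Y0 X' - X' × Y'`; so (sum and difference, `p` odd) `X' × Y' ≡ 0` and
`X0 Y' ≡ Y0 X'`: all 2x2 minors of the coordinate vectors of `X, Y` vanish.
(4) Some coordinate `Y_b` of `Y` is not divisible by `p`; let `u Y_b ≡ 1 mod p` and `c = X_b u`.
Then `Y_b (X_a - c Y_a) ≡ X_a Y_b - X_b Y_a ≡ 0` for every coordinate `a`. -/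
theorem proportional {p : ℕ} (hp : p.Prime) (h2 : p ≠ 2) {z w X Y : ℍ[ℤ]}
    (hz : ¬ ((p : ℤ) : ℍ[ℤ]) ∣ z) (hw : ¬ ((p : ℤ) : ℍ[ℤ]) ∣ w)
    (hX1 : ((p : ℤ) : ℍ[ℤ]) ∣ star z * X) (hX2 : ((p : ℤ) : ℍ[ℤ]) ∣ X * star w)
    (hY1 : ((p : ℤ) : ℍ[ℤ]) ∣ star z * Y) (hY2 : ((p : ℤ) : ℍ[ℤ]) ∣ Y * star w)
    (hY : ¬ ((p : ℤ) : ℍ[ℤ]) ∣ Y) :
    ∃ c : ℤ, ((p : ℤ) : ℍ[ℤ]) ∣ X - (c : ℍ[ℤ]) * Y := by
  have hpp : Prime (p : ℤ) := Nat.prime_iff_prime_int.1 hp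
  have hA : ((p : ℤ) : ℍ[ℤ]) ∣ star X * Y := propor_star_mul hp h2 hz hX1 hY1
  have hB : ((p : ℤ) : ℍ[ℤ]) ∣ X * star Y := by
    have h3 : ¬ ((p : ℤ) : ℍ[ℤ]) ∣ star w := by
      intro h
      have := dvd_star p h
      rw [star_star] at this
      exact hw this
    have h4 : ((p : ℤ) : ℍ[ℤ]) ∣ star (star w) * star X := by
      have := dvd_star p hX2
      rwa [star_mul] at this
    have h5 : ((p : ℤ) : ℍ[ℤ]) ∣ star (star w) * star Y := by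
      have := dvd_star p hY2
      rwa [star_mul] at this
    have := propor_star_mul hp h2 h3 h4 h5
    rwa [star_star] at this
  rw [dvd_iff] at hA hB
  obtain ⟨-, a1, a2, a3⟩ := hA
  obtain ⟨-, b1, b2, b3⟩ := hB
  simp only [Quaternion.imI_mul, Quaternion.imJ_mul, Quaternion.imK_mul, Quaternion.re_star,
    Quaternion.imI_star, Quaternion.imJ_star, Quaternion.imK_star] at a1 a2 a3 b1 b2 b3
  obtain ⟨c1, a1⟩ := a1
  obtain ⟨c2, a2⟩ := a2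
  obtain ⟨c3, a3⟩ := a3
  obtain ⟨d1, b1⟩ := b1
  obtain ⟨d2, b2⟩ := b2
  obtain ⟨d3, b3⟩ := b3
  have m01 : (p : ℤ) ∣ X.re * Y.imI - X.imI * Y.re :=
    propor_two hp h2 ⟨c1 - d1, by linear_combination a1 - b1⟩
  have m02 : (p : ℤ) ∣ X.re * Y.imJ - X.imJ * Y.re :=
    propor_two hp h2 ⟨c2 - d2, by linear_combination a2 - b2⟩
  have m03 : (p : ℤ) ∣ X.re * Y.imK - X.imK * Y.re :=
    propor_two hp h2 ⟨c3 - d3, by linear_combination a3 - b3⟩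
  have m23 : (p : ℤ) ∣ X.imJ * Y.imK - X.imK * Y.imJ :=
    propor_two hp h2 ⟨-c1 - d1, by linear_combination -a1 - b1⟩
  have m31 : (p : ℤ) ∣ X.imK * Y.imI - X.imI * Y.imK :=
    propor_two hp h2 ⟨-c2 - d2, by linear_combination -a2 - b2⟩
  have m12 : (p : ℤ) ∣ X.imI * Y.imJ - X.imJ * Y.imI :=
    propor_two hp h2 ⟨-c3 - d3, by linear_combination -a3 - b3⟩
  have neg : ∀ {a b c d : ℤ}, (p : ℤ) ∣ a * b - c * d → (p : ℤ) ∣ c * d - a * b := by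
    rintro a b c d ⟨e, h⟩
    exact ⟨-e, by linear_combination -h⟩
  have zer : ∀ a b : ℤ, (p : ℤ) ∣ a * b - a * b := by
    intro a b
    rw [sub_self]
    exact dvd_zero _
  have fin : ∀ u xb yb : ℤ, (p : ℤ) ∣ 1 - u * yb →
      (p : ℤ) ∣ X.re * yb - xb * Y.re → (p : ℤ) ∣ X.imI * yb - xb * Y.imI →
      (p : ℤ) ∣ X.imJ * yb - xb * Y.imJ → (p : ℤ) ∣ X.imK * yb - xb * Y.imK →
      ∃ c : ℤ, ((p : ℤ) : ℍ[ℤ]) ∣ X - (c : ℍ[ℤ]) * Y := by
    intro u xb yb hu h0 h1 h2 h3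
    refine ⟨xb * u, (dvd_iff _ _).2 ⟨?_, ?_, ?_, ?_⟩⟩
    · simpa using propor_lin h0 hu
    · simpa using propor_lin h1 hu
    · simpa using propor_lin h2 hu
    · simpa using propor_lin h3 hu
  by_cases y0 : (p : ℤ) ∣ Y.re
  · by_cases y1 : (p : ℤ) ∣ Y.imI
    · by_cases y2 : (p : ℤ) ∣ Y.imJ
      · by_cases y3 : (p : ℤ) ∣ Y.imK
        · exact absurd ((dvd_iff _ _).2 ⟨y0, y1, y2, y3⟩) hY
        · obtain ⟨u, hu⟩ := propor_inv hp y3
          exact fin u X.imK Y.imK hu m03 (neg m31) m23 (zer _ _)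
      · obtain ⟨u, hu⟩ := propor_inv hp y2
        exact fin u X.imJ Y.imJ hu m02 m12 (zer _ _) (neg m23)
    · obtain ⟨u, hu⟩ := propor_inv hp y1
      exact fin u X.imI Y.imI hu m01 (zer _ _) (neg m12) m31
  · obtain ⟨u, hu⟩ := propor_inv hp y0
    exact fin u X.re Y.re hu (zer _ _) (neg m01) (neg m02) (neg m03)

end Pool.Agent.Lib.MP_06cce2_nt
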