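import Pool.Agent.Lib.MP_06cce2_nt.Words
import Pool.Agent.Lib.MP_06cce2_nt.MatNorm

namespace Pool.Agent.Lib.MP_06cce2_nt

open Matrix Complex Quaternion
open scoped Matrix.Norms.L2Operator

/-- `U` is approximated with words of length at most `4 log_5 (1 / ε) + c` -/
def HasRate (U : M2) : Prop :=
  ∃ c : ℝ, ∀ ε : ℝ, 0 < ε → ε < 1 → ∃ u : List M2, (∀ A ∈ u, A ∈ VBasis) ∧
    (u.length : ℝ) ≤ 4 * Real.logb 5 (1 / ε) + c ∧ ‖U - u.prod‖ < ε

/-- the unitary matrix in the direction of the integral quaternion `w` -/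
noncomputable def target (w : ℍ[ℤ]) : M2 :=
  ((1 / Real.sqrt ((normSq w : ℤ) : ℝ) : ℝ) : ℂ) • qmat w

end Pool.Agent.Lib.MP_06cce2_nt
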