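import Pool.Agent.Lib.MP_06cce2_nt.Defs
import Pool.Agent.Lib.MP_06cce2_nt.Five

namespace Pool.Agent.Lib.MP_06cce2_nt

open Quaternion

/-- the choice of `τ` in `sel_b` -/
theorem sel_b_tau (w0 s : ℤ) (h0 : w0 % 2 = 1) :
    ∃ u s' : ℤ, w0 ^ 2 + 4 * s - (w0 + 4 * u) ^ 2 = 4 * s' ∧ (s' % 4 = 1 ∨ s' % 4 = 2) := by
  obtain ⟨e, rfl⟩ : ∃ e, w0 = 2 * e + 1 := ⟨w0 / 2, by omega⟩
  by_cases hs : s % 4 = 1 ∨ s % 4 = 2
  · exact ⟨0, s, by ring, hs⟩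
  · refine ⟨1, s - 4 * e - 6, by ring, ?_⟩
    omega

theorem sel_b_aux (w0 a b c : ℤ) (h0 : w0 % 2 = 1) :
    ∃ τ : ℤ, ∀ Q t : ℤ, Q % 16 = 1 → t % 16 = τ % 16 →
      0 < normSq (qm w0 (2 * a) (2 * b) (2 * c)) * Q - t ^ 2 →
      ∃ z : ℍ[ℤ], z.re = t ∧ normSq z = normSq (qm w0 (2 * a) (2 * b) (2 * c)) * Q ∧
        Fit 0 (normSq (qm w0 (2 * a) (2 * b) (2 * c))) (qm w0 (2 * a) (2 * b) (2 * c)) z := by
  obtain ⟨u, s, hs, hs4⟩ := sel_b_tau w0 (a ^ 2 + b ^ 2 + c ^ 2) h0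
  have hm : normSq (qm w0 (2 * a) (2 * b) (2 * c)) =
      w0 ^ 2 + 4 * (a ^ 2 + b ^ 2 + c ^ 2) := by
    rw [normSq_eq]
    simp only [qm_re, qm_imI, qm_imJ, qm_imK]
    ring
  refine ⟨w0 + 4 * u, fun Q t hQ ht hn => ?_⟩
  obtain ⟨k, rfl⟩ : ∃ k, Q = 16 * k + 1 := ⟨Q / 16, by omega⟩
  obtain ⟨j, rfl⟩ : ∃ j, t = w0 + 4 * u + 16 * j := ⟨(t - (w0 + 4 * u)) / 16, by omega⟩
  rw [hm] at hn ⊢
  set m : ℤ := w0 ^ 2 + 4 * (a ^ 2 + b ^ 2 + c ^ 2) with hmdef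
  set X : ℤ := m * k - 2 * (w0 + 4 * u) * j - 16 * j ^ 2 with hX
  have hn4 : m * (16 * k + 1) - (w0 + 4 * u + 16 * j) ^ 2 = 4 * (s + 4 * X) := by
    rw [hX]
    linear_combination hs
  have hpos : 0 < s + 4 * X := by
    rw [hn4] at hn
    omega
  obtain ⟨p, q, r, hpqr⟩ := three_squares hpos (by omega)
  refine ⟨qm (w0 + 4 * u + 16 * j) (2 * p) (2 * q) (2 * r), rfl, ?_, ?_⟩
  · rw [normSq_eq]
    simp only [qm_re, qm_imI, qm_imJ, qm_imK]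
    rw [hpqr] at hn4
    linear_combination -hn4
  · refine ⟨_, by rw [pow_zero, one_mul], ?_, ?_, ?_, ?_⟩
    · have h5 : (qm (w0 + 4 * u + 16 * j) (2 * p) (2 * q) (2 * r) *
          qm w0 (2 * a) (2 * b) (2 * c)).re = m + 4 * (u * w0 + 4 * j * w0 -
            (a ^ 2 + b ^ 2 + c ^ 2) - p * a - q * b - r * c) := by
        rw [Quaternion.re_mul]
        simp only [qm_re, qm_imI, qm_imJ, qm_imK, hmdef]
        ring
      rw [h5, Int.add_mul_emod_self_left]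
    · refine ⟨(w0 + 4 * u + 16 * j) * a + p * w0 + q * (2 * c) - r * (2 * b), ?_⟩
      rw [Quaternion.imI_mul]
      simp only [qm_re, qm_imI, qm_imJ, qm_imK]
      ring
    · refine ⟨(w0 + 4 * u + 16 * j) * b - p * (2 * c) + q * w0 + r * (2 * a), ?_⟩
      rw [Quaternion.imJ_mul]
      simp only [qm_re, qm_imI, qm_imJ, qm_imK]
      ring
    · refine ⟨(w0 + 4 * u + 16 * j) * c + p * (2 * b) - q * (2 * a) + r * w0, ?_⟩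
      rw [Quaternion.imK_mul]
      simp only [qm_re, qm_imI, qm_imJ, qm_imK]
      ring

/-- Selection when only the real part of `w` is odd.
Proof. Let `m = N(w) = w0^2 + w1^2 + w2^2 + w3^2`, `w0` odd and the others even, so
`m - w0^2 ≡ 0 mod 4`. If `(m - w0^2) % 16` is `4` or `8` take `τ = w0`, otherwise (`0` or `12`)
take `τ = w0 + 4`; note `(w0+4)^2 ≡ w0^2 + 8 mod 16`. Then for `t ≡ τ mod 16`, `Q ≡ 1 mod 16`
the number `n = m Q - t^2` is `≡ 4` or `8 mod 16`, so `n = 4 n'` with `n' ≡ 1 or 2 mod 4`, i.e.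
`n' % 8 ∈ {1, 2, 5, 6}`; `three_squares` gives `n' = p^2+q^2+r^2`. Put
`z = qm t (2 p) (2 q) (2 r)`. `N(z) = t^2 + n = m Q`. And `z * w` has even imaginary parts
(`t w_i + w_0 z_i + even * even`) and real part `≡ t w0 ≡ w0^2 ≡ m mod 4`. -/
theorem sel_b {w : ℍ[ℤ]} (h0 : w.re % 2 = 1) (h1 : w.imI % 2 = 0) (h2 : w.imJ % 2 = 0)
    (h3 : w.imK % 2 = 0) :
    ∃ τ : ℤ, ∀ Q t : ℤ, Q % 16 = 1 → t % 16 = τ % 16 → 0 < normSq w * Q - t ^ 2 →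
      ∃ z : ℍ[ℤ], z.re = t ∧ normSq z = normSq w * Q ∧ Fit 0 (normSq w) w z := by
  obtain ⟨a, ha⟩ : ∃ a, w.imI = 2 * a := ⟨w.imI / 2, by omega⟩
  obtain ⟨b, hb⟩ : ∃ b, w.imJ = 2 * b := ⟨w.imJ / 2, by omega⟩
  obtain ⟨c, hc⟩ : ∃ c, w.imK = 2 * c := ⟨w.imK / 2, by omega⟩
  have hw : w = qm w.re (2 * a) (2 * b) (2 * c) := by
    rw [← ha, ← hb, ← hc]; rfl
  rw [hw]
  exact sel_b_aux w.re a b c h0

end Pool.Agent.Lib.MP_06cce2_nt
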