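import Pool.Agent.Lib.MP_06cce2_nt.TSAny
import Pool.Agent.Lib.MP_06cce2_nt.FitA
import Pool.Agent.Lib.MP_06cce2_nt.SelB

namespace Pool.Agent.Lib.MP_06cce2_nt

open Quaternion

/-- Proof. If an imaginary coordinate of `w` is odd: `τ = w.re`. For `t ≡ w.re mod 16` and
`Q ≡ 1 mod 16`, `n = N(w) Q - t^2 ≡ N(w) - w.re^2 mod 16`, so `ts_any` with
`v1 = -w.imI`, `v2 = -w.imJ`, `v3 = -w.imK` gives `p, q, r`; `z = qm t p q r` fits by
`fit_of_congr`. If all imaginary coordinates are even, `w.re` is odd, `N(w)` is odd, so `s = 0`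
and `mo = N(w)`, and `sel_b` gives the claim. -/
theorem sel {w : ℍ[ℤ]}
    (hprim : w.re % 2 = 1 ∨ w.imI % 2 = 1 ∨ w.imJ % 2 = 1 ∨ w.imK % 2 = 1)
    {s : ℕ} {mo : ℤ} (hs : normSq w = 2 ^ s * mo) (hmo : mo % 2 = 1) :
    ∃ τ : ℤ, ∀ Q t : ℤ, Q % 16 = 1 → t % 16 = τ % 16 → 0 < normSq w * Q - t ^ 2 →
      (normSq w * Q - t ^ 2) % 3 ≠ 1 →
      ∃ z : ℍ[ℤ], z.re = t ∧ normSq z = normSq w * Q ∧ Fit s mo w z := by
  by_cases him : w.imI % 2 = 1 ∨ w.imJ % 2 = 1 ∨ w.imK % 2 = 1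
  · refine ⟨w.re, fun Q t hQ ht hpos h3 => ?_⟩
    have hv : (-w.imI) % 2 = 1 ∨ (-w.imJ) % 2 = 1 ∨ (-w.imK) % 2 = 1 := by omega
    have hn : (normSq w * Q - t ^ 2) % 16 =
        ((-w.imI) ^ 2 + (-w.imJ) ^ 2 + (-w.imK) ^ 2) % 16 := by
      obtain ⟨a, ha⟩ : ∃ a, t = w.re + 16 * a := ⟨(t - w.re) / 16, by omega⟩
      obtain ⟨b, hb⟩ : ∃ b, Q = 1 + 16 * b := ⟨(Q - 1) / 16, by omega⟩
      have hq : normSq w * Q - t ^ 2 = ((-w.imI) ^ 2 + (-w.imJ) ^ 2 + (-w.imK) ^ 2) +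
          16 * (normSq w * b - 2 * w.re * a - 16 * a ^ 2) := by
        rw [ha, hb, normSq_eq]
        ring
      rw [hq, Int.add_mul_emod_self_left]
    obtain ⟨p, q, r, hpqr, hp, hq, hr⟩ := ts_any hpos hv hn h3
    have hN : normSq (qm t p q r) = normSq w * Q := by
      rw [normSq_eq (qm t p q r)]
      simp only [qm_re, qm_imI, qm_imJ, qm_imK]
      linarith
    refine ⟨qm t p q r, rfl, hN, ?_⟩
    refine fit_of_congr hQ hN ?_ ?_ ?_ ?_ hprim hs hmo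
    · show t % 4 = w.re % 4
      omega
    · exact hp
    · exact hq
    · exact hr
  · have hI : w.imI % 2 = 0 := by omega
    have hJ : w.imJ % 2 = 0 := by omega
    have hK : w.imK % 2 = 0 := by omega
    have h0 : w.re % 2 = 1 := by omega
    have hodd : normSq w % 2 = 1 := by
      obtain ⟨a, ha⟩ : ∃ a, w.re = 2 * a + 1 := ⟨w.re / 2, by omega⟩
      obtain ⟨b, hb⟩ : ∃ b, w.imI = 2 * b := ⟨w.imI / 2, by omega⟩
      obtain ⟨c, hc⟩ : ∃ c, w.imJ = 2 * c := ⟨w.imJ / 2, by omega⟩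
      obtain ⟨d, hd⟩ : ∃ d, w.imK = 2 * d := ⟨w.imK / 2, by omega⟩
      have hq : normSq w = 1 + 2 * (2 * a ^ 2 + 2 * a + 2 * b ^ 2 + 2 * c ^ 2 + 2 * d ^ 2) := by
        rw [normSq_eq, ha, hb, hc, hd]
        ring
      rw [hq]
      omega
    have hs0 : s = 0 := by
      rcases Nat.eq_zero_or_pos s with h | h
      · exact h
      · exfalso
        obtain ⟨k, rfl⟩ : ∃ k, s = k + 1 := ⟨s - 1, by omega⟩
        rw [hs, pow_succ, mul_comm ((2 : ℤ) ^ k) 2, mul_assoc] at hodd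
        omega
    subst hs0
    have hmo' : normSq w = mo := by rw [hs]; ring
    obtain ⟨τ, hτ⟩ := sel_b h0 hI hJ hK
    refine ⟨τ, fun Q t hQ ht hpos _ => ?_⟩
    obtain ⟨z, hz1, hz2, hz3⟩ := hτ Q t hQ ht hpos
    refine ⟨z, hz1, hz2, ?_⟩
    rw [← hmo']
    exact hz3

end Pool.Agent.Lib.MP_06cce2_nt
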