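import Pool.Agent.Lib.MP_06cce2_nt.SpanCore

namespace Pool.Agent.Lib.MP_06cce2_nt

open Quaternion

/-- the statement `P μ'` of the proof of `span_lemma` -/
private def SpP (p : ℕ) (z w x : ℍ[ℤ]) : Prop :=
  ∀ a g, Lam a g → ((p : ℤ) : ℍ[ℤ]) ∣ z * (g * x * star g) * w

private theorem SpP.add {p : ℕ} {z w x y : ℍ[ℤ]} (hx : SpP p z w x) (hy : SpP p z w y) :
    SpP p z w (x + y) := by
  intro a g hg
  have h : z * (g * (x + y) * star g) * w = z * (g * x * star g) * w + z * (g * y * star g) * w := by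
    rw [mul_add, add_mul, mul_add, add_mul]
  rw [h]
  exact dvd_add (hx a g hg) (hy a g hg)

private theorem SpP.smul {p : ℕ} {z w x : ℍ[ℤ]} (hx : SpP p z w x) (n : ℤ) :
    SpP p z w (n • x) := by
  intro a g hg
  have h : z * (g * (n • x) * star g) * w = n • (z * (g * x * star g) * w) := by
    rw [mul_smul_comm, smul_mul_assoc, mul_smul_comm, smul_mul_assoc]
  have h1 := (dvd_iff _ _).1 (hx a g hg)
  rw [h, dvd_iff]
  obtain ⟨h1, h2, h3, h4⟩ := h1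
  exact ⟨h1.mul_left n, h2.mul_left n, h3.mul_left n, h4.mul_left n⟩

private theorem SpP.of_smul {p : ℕ} (hp : p.Prime) {z w x : ℍ[ℤ]} {n : ℤ} (hn : ¬ (p : ℤ) ∣ n)
    (hx : SpP p z w (n • x)) : SpP p z w x := by
  have hpp : Prime (p : ℤ) := Nat.prime_iff_prime_int.1 hp
  intro a g hg
  have h : z * (g * (n • x) * star g) * w = n • (z * (g * x * star g) * w) := by
    rw [mul_smul_comm, smul_mul_assoc, mul_smul_comm, smul_mul_assoc]
  have h0 := hx a g hg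
  rw [h, dvd_iff] at h0
  rw [dvd_iff]
  obtain ⟨h1, h2, h3, h4⟩ := h0
  exact ⟨(hpp.dvd_or_dvd h1).resolve_left hn, (hpp.dvd_or_dvd h2).resolve_left hn,
    (hpp.dvd_or_dvd h3).resolve_left hn, (hpp.dvd_or_dvd h4).resolve_left hn⟩

private theorem SpP.conj {p : ℕ} {z w x : ℍ[ℤ]} (hx : SpP p z w x) {b : ℕ} {v : ℍ[ℤ]}
    (hv : Lam b v) : SpP p z w (v * x * star v) := by
  intro a g hg
  have h := hx (a + b) (g * v) (hg.mul hv)
  have h1 : g * v * x * star (g * v) = g * (v * x * star v) * star g := by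
    rw [star_mul]
    simp only [mul_assoc]
  rwa [h1] at h

private theorem sp_lam_i : Lam 1 (qm 1 2 0 0) := by
  refine ⟨by rw [normSq_eq]; simp, ?_, ?_, ?_, ?_⟩ <;> simp

private theorem sp_lam_j : Lam 1 (qm 1 0 2 0) := by
  refine ⟨by rw [normSq_eq]; simp, ?_, ?_, ?_, ?_⟩ <;> simp

private theorem sp_lam_k : Lam 1 (qm 1 0 0 2) := by
  refine ⟨by rw [normSq_eq]; simp, ?_, ?_, ?_, ?_⟩ <;> simp

/-- Proof by contradiction: assume `p ∣ z (g μ star g) w` for all `g` with `Lam a g` (some `a`).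
Let `P μ'` be the statement `∀ a g, Lam a g → p ∣ z * (g * μ' * star g) * w` for a quaternion
`μ'`. `P` is additive, stable under integer multiples (and if `P (c μ')` with `p ∤ c` then
`P μ'`, as `p ∣ c x → p ∣ x`), and `P μ' → P (v μ' star v)` for every `v` with `Lam b v`
(`Lam.mul`: replace `g` by `g v`). Let `μ = b i + c j + d k`. For `v = 1 + 2i = qm 1 2 0 0`
(`Lam 1`) and its conjugate: `v μ star v + star v μ v = 10 b i - 6 c j - 6 d k`. Adding `6 μ`: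
`P (16 b i)`. In the same way `P (16 c j)`, `P (16 d k)` (with `1 ± 2j`, `1 ± 2k`). One of
`b, c, d` is not divisible by `p`, say `b`: `P i`. Then `v = 1 + 2j`:
`v i star v = -3 i ± 4 k`, adding `3 i` gives `P k` (`p` odd); `v = 1 + 2k` gives `P j`.
Similarly in the other cases. So `P i, P j, P k`; with `g = 1` (`Lam.one`) this contradicts
`span_core`. -/
theorem span_lemma {p : ℕ} (hp : p.Prime) (h2 : p ≠ 2) {z w μ : ℍ[ℤ]}
    (hz : ¬ ((p : ℤ) : ℍ[ℤ]) ∣ z) (hw : ¬ ((p : ℤ) : ℍ[ℤ]) ∣ w)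
    (hzn : (p : ℤ) ∣ normSq z) (hwn : (p : ℤ) ∣ normSq w)
    (hμ : μ.re = 0) (hμp : ¬ ((p : ℤ) : ℍ[ℤ]) ∣ μ) :
    ∃ a g, Lam a g ∧ ¬ ((p : ℤ) : ℍ[ℤ]) ∣ z * (g * μ * star g) * w := by
  by_contra hcon
  have hP : SpP p z w μ := by
    intro a g hg
    by_contra hn
    exact hcon ⟨a, g, hg, hn⟩
  have hpp : Prime (p : ℤ) := Nat.prime_iff_prime_int.1 hp
  have hp2 : ¬ (p : ℤ) ∣ 2 := by
    intro h
    have h3 : p ∣ 2 := by exact_mod_cast h
    exact h2 ((Nat.prime_dvd_prime_iff_eq hp Nat.prime_two).1 h3)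
  have hp4 : ¬ (p : ℤ) ∣ 4 := by
    intro h
    have h4 : (4 : ℤ) = 2 * 2 := by norm_num
    rw [h4] at h
    rcases hpp.dvd_or_dvd h with h | h <;> exact hp2 h
  have hpm4 : ¬ (p : ℤ) ∣ (-4) := by
    rw [dvd_neg]; exact hp4
  have hp16 : ¬ (p : ℤ) ∣ 16 := by
    intro h
    have h4 : (16 : ℤ) = 4 * 4 := by norm_num
    rw [h4] at h
    rcases hpp.dvd_or_dvd h with h | h <;> exact hp4 h
  have hmul16 : ∀ b : ℤ, ¬ (p : ℤ) ∣ b → ¬ (p : ℤ) ∣ 16 * b := by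
    intro b hb h
    rcases hpp.dvd_or_dvd h with h | h
    · exact hp16 h
    · exact hb h
  -- the three basic conjugations
  have hI : SpP p z w ((16 * μ.imI) • qm 0 1 0 0) := by
    have h := ((hP.conj sp_lam_i).add (hP.conj sp_lam_i.star)).add (hP.smul 6)
    have e : qm 1 2 0 0 * μ * star (qm 1 2 0 0) + star (qm 1 2 0 0) * μ * star (star (qm 1 2 0 0))
        + (6 : ℤ) • μ = (16 * μ.imI) • qm 0 1 0 0 := by
      ext <;> simp [hμ, -zsmul_eq_mul] <;> ring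
    rwa [e] at h
  have hJ : SpP p z w ((16 * μ.imJ) • qm 0 0 1 0) := by
    have h := ((hP.conj sp_lam_j).add (hP.conj sp_lam_j.star)).add (hP.smul 6)
    have e : qm 1 0 2 0 * μ * star (qm 1 0 2 0) + star (qm 1 0 2 0) * μ * star (star (qm 1 0 2 0))
        + (6 : ℤ) • μ = (16 * μ.imJ) • qm 0 0 1 0 := by
      ext <;> simp [hμ, -zsmul_eq_mul] <;> ring
    rwa [e] at h
  have hK : SpP p z w ((16 * μ.imK) • qm 0 0 0 1) := by
    have h := ((hP.conj sp_lam_k).add (hP.conj sp_lam_k.star)).add (hP.smul 6)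
    have e : qm 1 0 0 2 * μ * star (qm 1 0 0 2) + star (qm 1 0 0 2) * μ * star (star (qm 1 0 0 2))
        + (6 : ℤ) • μ = (16 * μ.imK) • qm 0 0 0 1 := by
      ext <;> simp [hμ, -zsmul_eq_mul] <;> ring
    rwa [e] at h
  have hIJ : SpP p z w (qm 0 1 0 0) → SpP p z w (qm 0 0 1 0) := by
    intro h
    have h1 := (h.conj sp_lam_k).add (h.smul 3)
    have e : qm 1 0 0 2 * qm 0 1 0 0 * star (qm 1 0 0 2) + (3 : ℤ) • qm 0 1 0 0
        = (4 : ℤ) • qm 0 0 1 0 := by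
      ext <;> simp [-zsmul_eq_mul]
    rw [e] at h1
    exact h1.of_smul hp hp4
  have hIK : SpP p z w (qm 0 1 0 0) → SpP p z w (qm 0 0 0 1) := by
    intro h
    have h1 := (h.conj sp_lam_j).add (h.smul 3)
    have e : qm 1 0 2 0 * qm 0 1 0 0 * star (qm 1 0 2 0) + (3 : ℤ) • qm 0 1 0 0
        = (-4 : ℤ) • qm 0 0 0 1 := by
      ext <;> simp [-zsmul_eq_mul]
    rw [e] at h1
    exact h1.of_smul hp hpm4
  have hJI : SpP p z w (qm 0 0 1 0) → SpP p z w (qm 0 1 0 0) := by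
    intro h
    have h1 := (h.conj sp_lam_k).add (h.smul 3)
    have e : qm 1 0 0 2 * qm 0 0 1 0 * star (qm 1 0 0 2) + (3 : ℤ) • qm 0 0 1 0
        = (-4 : ℤ) • qm 0 1 0 0 := by
      ext <;> simp [-zsmul_eq_mul]
    rw [e] at h1
    exact h1.of_smul hp hpm4
  have hKI : SpP p z w (qm 0 0 0 1) → SpP p z w (qm 0 1 0 0) := by
    intro h
    have h1 := (h.conj sp_lam_j).add (h.smul 3)
    have e : qm 1 0 2 0 * qm 0 0 0 1 * star (qm 1 0 2 0) + (3 : ℤ) • qm 0 0 0 1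
        = (4 : ℤ) • qm 0 1 0 0 := by
      ext <;> simp [-zsmul_eq_mul]
    rw [e] at h1
    exact h1.of_smul hp hp4
  have hi : SpP p z w (qm 0 1 0 0) := by
    have hne : ¬ (p : ℤ) ∣ μ.imI ∨ ¬ (p : ℤ) ∣ μ.imJ ∨ ¬ (p : ℤ) ∣ μ.imK := by
      by_contra hc
      push Not at hc
      apply hμp
      rw [dvd_iff, hμ]
      exact ⟨dvd_zero _, hc.1, hc.2.1, hc.2.2⟩
    rcases hne with h | h | h
    · exact hI.of_smul hp (hmul16 _ h)
    · exact hJI (hJ.of_smul hp (hmul16 _ h))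
    · exact hKI (hK.of_smul hp (hmul16 _ h))
  have hone : ∀ x : ℍ[ℤ], SpP p z w x → ((p : ℤ) : ℍ[ℤ]) ∣ z * x * w := by
    intro x hx
    simpa using hx 0 1 Lam.one
  exact span_core hp h2 hz hw hzn hwn (hone _ hi) (hone _ (hIJ hi)) (hone _ (hIK hi))

end Pool.Agent.Lib.MP_06cce2_nt
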