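import Pool.Agent.Lib.MP_06cce2_nt.Defs

namespace Pool.Agent.Lib.MP_06cce2_nt

open Quaternion

private theorem spanCore_re (x y : ℍ[ℤ]) : (x * y).re = (y * x).re := by
  simp only [Quaternion.re_mul]
  ring

private theorem spanCore_trace (x : ℍ[ℤ]) :
    x - qm 0 1 0 0 * x * qm 0 1 0 0 - qm 0 0 1 0 * x * qm 0 0 1 0 - qm 0 0 0 1 * x * qm 0 0 0 1 =
      ((4 * x.re : ℤ) : ℍ[ℤ]) := by
  ext
  · simp only [Quaternion.re_sub, Quaternion.re_mul, Quaternion.imI_mul, Quaternion.imJ_mul,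
      Quaternion.imK_mul, qm_re, qm_imI, qm_imJ, qm_imK, Quaternion.re_intCast]
    push_cast
    ring
  · simp only [Quaternion.imI_sub, Quaternion.re_mul, Quaternion.imI_mul, Quaternion.imJ_mul,
      Quaternion.imK_mul, qm_re, qm_imI, qm_imJ, qm_imK, Quaternion.imI_intCast]
    ring
  · simp only [Quaternion.imJ_sub, Quaternion.re_mul, Quaternion.imI_mul, Quaternion.imJ_mul,
      Quaternion.imK_mul, qm_re, qm_imI, qm_imJ, qm_imK, Quaternion.imJ_intCast]
    ring
  · simp only [Quaternion.imK_sub, Quaternion.re_mul, Quaternion.imI_mul, Quaternion.imJ_mul,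
      Quaternion.imK_mul, qm_re, qm_imI, qm_imJ, qm_imK, Quaternion.imK_intCast]
    ring

/-- Everything mod the odd prime `p`; write `i, j, k` for the units.
Proof by contradiction. For `a ∈ {1, i, j, k}` (any integral `a`) the imaginary coordinates of
`w a z` vanish mod `p`: up to sign they are the real parts of `μ w a z`, `μ ∈ {i, j, k}`, and
`Re(μ w a z) = Re(z μ w a) ≡ 0` because `Re(x y) = Re(y x)` and `p ∣ z μ w`. Moreover
`N(w a z) = N(w) N(a) N(z) ≡ 0`, so also the square of the real part vanishes: `p ∣ w a z` for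
every `a`. For every quaternion `x` one has
`x - i x i - j x j - k x k = 4 Re(x)` (as a scalar). Apply this to `x = z b` for
`b ∈ {1, i, j, k}`:
`4 Re(z b) w = w z b - (w i z b) i - (w j z b) j - (w k z b) k ≡ 0`, and as some coordinate of `w` is
not divisible by `p` and `p` is odd, `p ∣ Re(z b)`. `b = 1, i, j, k` give (up to sign) all
coordinates of `z`, so `p ∣ z`, a contradiction. (See `dvd_iff`, `normSq_eq`, `dvd_mul_left'`.) -/
theorem span_core {p : ℕ} (hp : p.Prime) (h2 : p ≠ 2) {z w : ℍ[ℤ]}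
    (hz : ¬ ((p : ℤ) : ℍ[ℤ]) ∣ z) (hw : ¬ ((p : ℤ) : ℍ[ℤ]) ∣ w)
    (hzn : (p : ℤ) ∣ normSq z) (hwn : (p : ℤ) ∣ normSq w)
    (hi : ((p : ℤ) : ℍ[ℤ]) ∣ z * qm 0 1 0 0 * w) (hj : ((p : ℤ) : ℍ[ℤ]) ∣ z * qm 0 0 1 0 * w)
    (hk : ((p : ℤ) : ℍ[ℤ]) ∣ z * qm 0 0 0 1 * w) : False := by
  have hpp : Prime (p : ℤ) := Nat.prime_iff_prime_int.1 hp
  -- `p ∣ Re (μ w a z)`
  have key : ∀ μ a : ℍ[ℤ], ((p : ℤ) : ℍ[ℤ]) ∣ z * μ * w → (p : ℤ) ∣ (μ * (w * a * z)).re := by
    intro μ a h
    have e : (μ * (w * a * z)).re = (z * μ * w * a).re := by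
      rw [← mul_assoc, ← mul_assoc, spanCore_re]
      simp only [mul_assoc]
    rw [e]
    exact ((dvd_iff _ _).1 (h.trans (Dvd.intro _ rfl))).1
  have haz : ∀ a : ℍ[ℤ], ((p : ℤ) : ℍ[ℤ]) ∣ w * a * z := by
    intro a
    have hI : (p : ℤ) ∣ (w * a * z).imI := by
      have h := key (qm 0 1 0 0) a hi
      have e : (qm 0 1 0 0 * (w * a * z)).re = -(w * a * z).imI := by
        rw [Quaternion.re_mul]
        simp
      rw [e, dvd_neg] at h
      exact h
    have hJ : (p : ℤ) ∣ (w * a * z).imJ := by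
      have h := key (qm 0 0 1 0) a hj
      have e : (qm 0 0 1 0 * (w * a * z)).re = -(w * a * z).imJ := by
        rw [Quaternion.re_mul]
        simp
      rw [e, dvd_neg] at h
      exact h
    have hK : (p : ℤ) ∣ (w * a * z).imK := by
      have h := key (qm 0 0 0 1) a hk
      have e : (qm 0 0 0 1 * (w * a * z)).re = -(w * a * z).imK := by
        rw [Quaternion.re_mul]
        simp
      rw [e, dvd_neg] at h
      exact h
    refine (dvd_iff _ _).2 ⟨?_, hI, hJ, hK⟩
    have hN : (p : ℤ) ∣ normSq (w * a * z) := by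
      rw [map_mul]
      exact hzn.mul_left _
    refine hpp.dvd_of_dvd_pow (n := 2) ?_
    have e : (w * a * z).re ^ 2 = normSq (w * a * z) - ((w * a * z).imI ^ 2 +
        (w * a * z).imJ ^ 2 + (w * a * z).imK ^ 2) := by
      rw [normSq_eq (w * a * z)]
      ring
    rw [e]
    exact dvd_sub hN (dvd_add (dvd_add (dvd_pow hI (by norm_num)) (dvd_pow hJ (by norm_num)))
      (dvd_pow hK (by norm_num)))
  -- a coordinate of `w` is not divisible by `p`
  have hre : ∀ b : ℍ[ℤ], (p : ℤ) ∣ (z * b).re := by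
    intro b
    have h1 : ((p : ℤ) : ℍ[ℤ]) ∣ ((4 * (z * b).re : ℤ) : ℍ[ℤ]) * w := by
      have e : ((4 * (z * b).re : ℤ) : ℍ[ℤ]) * w =
          w * 1 * z * b - w * qm 0 1 0 0 * z * (b * qm 0 1 0 0) -
            w * qm 0 0 1 0 * z * (b * qm 0 0 1 0) - w * qm 0 0 0 1 * z * (b * qm 0 0 0 1) := by
        rw [Int.cast_comm, ← spanCore_trace (z * b)]
        noncomm_ring
      rw [e]
      exact dvd_sub (dvd_sub (dvd_sub ((haz 1).trans (Dvd.intro _ rfl))
        ((haz _).trans (Dvd.intro _ rfl))) ((haz _).trans (Dvd.intro _ rfl)))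
        ((haz _).trans (Dvd.intro _ rfl))
    have h4 : ¬ (p : ℤ) ∣ 4 := by
      intro h
      have h5 : (p : ℤ) ∣ 2 ^ 2 := by
        norm_num
        exact h
      have h6 : p ∣ 2 := by exact_mod_cast hpp.dvd_of_dvd_pow h5
      exact h2 ((Nat.prime_dvd_prime_iff_eq hp Nat.prime_two).1 h6)
    have h3 : ∀ c : ℤ, (p : ℤ) ∣ 4 * (z * b).re * c → ¬ (p : ℤ) ∣ c → (p : ℤ) ∣ (z * b).re := by
      intro c h5 h6
      rcases hpp.dvd_or_dvd h5 with h7 | h7
      · rcases hpp.dvd_or_dvd h7 with h8 | h8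
        · exact absurd h8 h4
        · exact h8
      · exact absurd h7 h6
    obtain ⟨g1, g2, g3, g4⟩ := (dvd_iff _ _).1 h1
    have e1 : (((4 * (z * b).re : ℤ) : ℍ[ℤ]) * w).re = 4 * (z * b).re * w.re := by
      rw [Quaternion.re_mul, Quaternion.re_intCast, Quaternion.imI_intCast,
        Quaternion.imJ_intCast, Quaternion.imK_intCast]
      push_cast
      ring
    have e2 : (((4 * (z * b).re : ℤ) : ℍ[ℤ]) * w).imI = 4 * (z * b).re * w.imI := by
      rw [Quaternion.imI_mul, Quaternion.re_intCast, Quaternion.imI_intCast,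
        Quaternion.imJ_intCast, Quaternion.imK_intCast]
      push_cast
      ring
    have e3 : (((4 * (z * b).re : ℤ) : ℍ[ℤ]) * w).imJ = 4 * (z * b).re * w.imJ := by
      rw [Quaternion.imJ_mul, Quaternion.re_intCast, Quaternion.imI_intCast,
        Quaternion.imJ_intCast, Quaternion.imK_intCast]
      push_cast
      ring
    have e4 : (((4 * (z * b).re : ℤ) : ℍ[ℤ]) * w).imK = 4 * (z * b).re * w.imK := by
      rw [Quaternion.imK_mul, Quaternion.re_intCast, Quaternion.imI_intCast,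
        Quaternion.imJ_intCast, Quaternion.imK_intCast]
      push_cast
      ring
    rw [e1] at g1
    rw [e2] at g2
    rw [e3] at g3
    rw [e4] at g4
    by_contra hc
    refine hw ((dvd_iff _ _).2 ⟨?_, ?_, ?_, ?_⟩)
    · by_contra h; exact hc (h3 _ g1 h)
    · by_contra h; exact hc (h3 _ g2 h)
    · by_contra h; exact hc (h3 _ g3 h)
    · by_contra h; exact hc (h3 _ g4 h)
  refine hz ((dvd_iff _ _).2 ⟨?_, ?_, ?_, ?_⟩)
  · have h := hre 1
    rwa [mul_one] at h
  · have h := hre (qm 0 1 0 0)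
    have e : (z * qm 0 1 0 0).re = -z.imI := by
      rw [Quaternion.re_mul]
      simp
    rwa [e, dvd_neg] at h
  · have h := hre (qm 0 0 1 0)
    have e : (z * qm 0 0 1 0).re = -z.imJ := by
      rw [Quaternion.re_mul]
      simp
    rwa [e, dvd_neg] at h
  · have h := hre (qm 0 0 0 1)
    have e : (z * qm 0 0 0 1).re = -z.imK := by
      rw [Quaternion.re_mul]
      simp
    rwa [e, dvd_neg] at h

end Pool.Agent.Lib.MP_06cce2_nt
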