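import Pool.Agent.Lib.MP_06cce2_nt.ThreeSquares

namespace Pool.Agent.Lib.MP_06cce2_nt

private theorem ts3_sq8 (u : ℤ) :
    (u % 2 = 1 ∧ u ^ 2 % 8 = 1) ∨ (u % 2 = 0 ∧ (u ^ 2 % 8 = 0 ∨ u ^ 2 % 8 = 4)) := by
  have h : u % 8 = 0 ∨ u % 8 = 1 ∨ u % 8 = 2 ∨ u % 8 = 3 ∨ u % 8 = 4 ∨ u % 8 = 5 ∨ u % 8 = 6 ∨
      u % 8 = 7 := by omega
  have e : u ^ 2 % 8 = (u % 8) ^ 2 % 8 := by
    rw [pow_two, pow_two, Int.mul_emod]
  rcases h with h | h | h | h | h | h | h | h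
  · exact Or.inr ⟨by omega, Or.inl (by rw [e, h]; rfl)⟩
  · exact Or.inl ⟨by omega, by rw [e, h]; rfl⟩
  · exact Or.inr ⟨by omega, Or.inr (by rw [e, h]; rfl)⟩
  · exact Or.inl ⟨by omega, by rw [e, h]; rfl⟩
  · exact Or.inr ⟨by omega, Or.inl (by rw [e, h]; rfl)⟩
  · exact Or.inl ⟨by omega, by rw [e, h]; rfl⟩
  · exact Or.inr ⟨by omega, Or.inr (by rw [e, h]; rfl)⟩
  · exact Or.inl ⟨by omega, by rw [e, h]; rfl⟩

private theorem ts3_sign {u v : ℤ} (hu : u % 2 = 1) (hv : v % 2 = 1) :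
    ∃ p : ℤ, p ^ 2 = u ^ 2 ∧ p % 4 = v % 4 := by
  by_cases h : u % 4 = v % 4
  · exact ⟨u, rfl, h⟩
  · exact ⟨-u, neg_sq u, by omega⟩

/-- Three squares with prescribed residues mod 4, all odd.
Proof: `n % 8 = 3` (odd squares are `1 mod 8`), so `three_squares_three_mod_eight` gives
`n = u^2+v^2+w^2`; modulo 8 all of `u, v, w` are odd (squares are `0, 1, 4 mod 8`); replace
`u` by `-u` if `u % 4 ≠ v1 % 4`, etc. -/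
theorem ts_three {n v1 v2 v3 : ℤ} (hn : 0 < n) (h1 : v1 % 2 = 1) (h2 : v2 % 2 = 1)
    (h3 : v3 % 2 = 1) (h : n % 16 = (v1 ^ 2 + v2 ^ 2 + v3 ^ 2) % 16) :
    ∃ p q r : ℤ, n = p ^ 2 + q ^ 2 + r ^ 2 ∧ p % 4 = v1 % 4 ∧ q % 4 = v2 % 4 ∧ r % 4 = v3 % 4 := by
  have a1 := ts3_sq8 v1
  have a2 := ts3_sq8 v2
  have a3 := ts3_sq8 v3
  have hn8 : n % 8 = 3 := by omega
  obtain ⟨u, v, w, he⟩ := three_squares_three_mod_eight hn hn8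
  have b1 := ts3_sq8 u
  have b2 := ts3_sq8 v
  have b3 := ts3_sq8 w
  have hu : u % 2 = 1 := by omega
  have hv : v % 2 = 1 := by omega
  have hw : w % 2 = 1 := by omega
  obtain ⟨p, hp, hp'⟩ := ts3_sign hu h1
  obtain ⟨q, hq, hq'⟩ := ts3_sign hv h2
  obtain ⟨r, hr, hr'⟩ := ts3_sign hw h3
  exact ⟨p, q, r, by rw [hp, hq, hr]; exact he, hp', hq', hr'⟩

end Pool.Agent.Lib.MP_06cce2_nt
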