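import Pool.Agent.Lib.MP_06cce2_nt.ThreeSquares

namespace Pool.Agent.Lib.MP_06cce2_nt

private theorem two_sq_odd {x : ℤ} (h : x % 2 = 1) : x ^ 2 % 8 = 1 := by
  have h4 : x % 8 = 1 ∨ x % 8 = 3 ∨ x % 8 = 5 ∨ x % 8 = 7 := by omega
  rw [pow_two, Int.mul_emod]
  rcases h4 with h | h | h | h <;> rw [h] <;> norm_num

private theorem two_sq_even {x : ℤ} (h : x % 2 = 0) :
    (x % 4 = 0 ∧ x ^ 2 % 8 = 0) ∨ (x % 4 = 2 ∧ x ^ 2 % 8 = 4) := by
  have h4 : x % 8 = 0 ∨ x % 8 = 2 ∨ x % 8 = 4 ∨ x % 8 = 6 := by omega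
  rcases h4 with h | h | h | h
  · left; refine ⟨by omega, ?_⟩; rw [pow_two, Int.mul_emod, h]; norm_num
  · right; refine ⟨by omega, ?_⟩; rw [pow_two, Int.mul_emod, h]; norm_num
  · left; refine ⟨by omega, ?_⟩; rw [pow_two, Int.mul_emod, h]; norm_num
  · right; refine ⟨by omega, ?_⟩; rw [pow_two, Int.mul_emod, h]; norm_num

private theorem two_sign {x v : ℤ} (h : x % 2 = 1) (hv : v % 2 = 1) :
    ∃ y : ℤ, y ^ 2 = x ^ 2 ∧ y % 4 = v % 4 := by
  rcases (by omega : x % 4 = v % 4 ∨ (-x) % 4 = v % 4) with h | h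
  · exact ⟨x, rfl, h⟩
  · exact ⟨-x, by ring, h⟩

/-- Three squares with prescribed residues mod 4, `v1, v2` odd and `v3` even.
Proof: `n % 4 = 2`, so `three_squares_two_mod_four` gives `n = u^2+v^2+w^2`; exactly two of
`u, v, w` are odd; permute so that `u, v` are odd and `w` is even. Modulo 8:
`w^2 = n - 2 = v3^2`, and for even numbers `w^2 ≡ v3^2 mod 8` gives `w ≡ v3 mod 4` (squares of
even numbers are `0` or `4 mod 16`... according to `w % 4 = 0` or `2`). Change the signs of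
`u, v` so that `u ≡ v1`, `v ≡ v2 mod 4`. -/
theorem ts_two {n v1 v2 v3 : ℤ} (hn : 0 < n) (h1 : v1 % 2 = 1) (h2 : v2 % 2 = 1)
    (h3 : v3 % 2 = 0) (h : n % 16 = (v1 ^ 2 + v2 ^ 2 + v3 ^ 2) % 16) :
    ∃ p q r : ℤ, n = p ^ 2 + q ^ 2 + r ^ 2 ∧ p % 4 = v1 % 4 ∧ q % 4 = v2 % 4 ∧ r % 4 = v3 % 4 := by
  have a1 := two_sq_odd h1
  have a2 := two_sq_odd h2
  have a3 := two_sq_even h3
  have key : ∀ a b c : ℤ, n = a ^ 2 + b ^ 2 + c ^ 2 → a % 2 = 1 → b % 2 = 1 → c % 2 = 0 →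
      ∃ p q r : ℤ, n = p ^ 2 + q ^ 2 + r ^ 2 ∧ p % 4 = v1 % 4 ∧ q % 4 = v2 % 4 ∧
        r % 4 = v3 % 4 := by
    intro a b c he ha hb hc
    obtain ⟨p, hp, hp4⟩ := two_sign ha h1
    obtain ⟨q, hq, hq4⟩ := two_sign hb h2
    have b1 := two_sq_odd ha
    have b2 := two_sq_odd hb
    have b3 := two_sq_even hc
    refine ⟨p, q, c, by rw [hp, hq, he], hp4, hq4, ?_⟩
    omega
  obtain ⟨u, v, w, he⟩ := three_squares_two_mod_four hn (by omega)
  rcases Int.emod_two_eq_zero_or_one u with hu | hu <;>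
    rcases Int.emod_two_eq_zero_or_one v with hv | hv <;>
    rcases Int.emod_two_eq_zero_or_one w with hw | hw
  · have c1 := two_sq_even hu
    have c2 := two_sq_even hv
    have c3 := two_sq_even hw
    omega
  · have c1 := two_sq_even hu
    have c2 := two_sq_even hv
    have c3 := two_sq_odd hw
    omega
  · have c1 := two_sq_even hu
    have c2 := two_sq_odd hv
    have c3 := two_sq_even hw
    omega
  · exact key v w u (by rw [he]; ring) hv hw hu
  · have c1 := two_sq_odd hu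
    have c2 := two_sq_even hv
    have c3 := two_sq_even hw
    omega
  · exact key u w v (by rw [he]; ring) hu hw hv
  · exact key u v w he hu hv hw
  · have c1 := two_sq_odd hu
    have c2 := two_sq_odd hv
    have c3 := two_sq_odd hw
    omega

end Pool.Agent.Lib.MP_06cce2_nt
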