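import Pool.Agent.Lib.MP_06cce2_nt.TSOne
import Pool.Agent.Lib.MP_06cce2_nt.TSTwo
import Pool.Agent.Lib.MP_06cce2_nt.TSThree

namespace Pool.Agent.Lib.MP_06cce2_nt

/-- All seven parity patterns: permute the coordinates and use `ts_one`, `ts_two`, `ts_three`. -/
theorem ts_any {n v1 v2 v3 : ℤ} (hn : 0 < n) (hv : v1 % 2 = 1 ∨ v2 % 2 = 1 ∨ v3 % 2 = 1)
    (h : n % 16 = (v1 ^ 2 + v2 ^ 2 + v3 ^ 2) % 16) (hn3 : n % 3 ≠ 1) :
    ∃ p q r : ℤ, n = p ^ 2 + q ^ 2 + r ^ 2 ∧ p % 4 = v1 % 4 ∧ q % 4 = v2 % 4 ∧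
      r % 4 = v3 % 4 := by
  rcases Int.emod_two_eq_zero_or_one v1 with h1 | h1 <;>
    rcases Int.emod_two_eq_zero_or_one v2 with h2 | h2 <;>
    rcases Int.emod_two_eq_zero_or_one v3 with h3 | h3
  · omega
  · obtain ⟨p, q, r, e, e1, e2, e3⟩ := ts_one hn h3 h1 h2 (by
      rw [h]; congr 1; ring) hn3
    exact ⟨q, r, p, by rw [e]; ring, e2, e3, e1⟩
  · obtain ⟨p, q, r, e, e1, e2, e3⟩ := ts_one hn h2 h1 h3 (by
      rw [h]; congr 1; ring) hn3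
    exact ⟨q, p, r, by rw [e]; ring, e2, e1, e3⟩
  · obtain ⟨p, q, r, e, e1, e2, e3⟩ := ts_two hn h2 h3 h1 (by
      rw [h]; congr 1; ring)
    exact ⟨r, p, q, by rw [e]; ring, e3, e1, e2⟩
  · exact ts_one hn h1 h2 h3 h hn3
  · obtain ⟨p, q, r, e, e1, e2, e3⟩ := ts_two hn h1 h3 h2 (by
      rw [h]; congr 1; ring)
    exact ⟨p, r, q, by rw [e]; ring, e1, e3, e2⟩
  · exact ts_two hn h1 h2 h3 h
  · exact ts_three hn h1 h2 h3 h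

end Pool.Agent.Lib.MP_06cce2_nt
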