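import Pool.Agent.Lib.MP_06cce2_nt.Five

namespace Pool.Agent.Lib.MP_06cce2_nt

private theorem odd_sq_eight {x : ℤ} (h : x % 2 = 1) : x ^ 2 % 8 = 1 := by
  obtain ⟨k, rfl⟩ : ∃ k, x = 2 * k + 1 := ⟨x / 2, by omega⟩
  rcases Int.even_or_odd k with ⟨j, rfl⟩ | ⟨j, rfl⟩
  · have : (2 * (j + j) + 1) ^ 2 = 8 * (2 * j ^ 2 + j) + 1 := by ring
    omega
  · have : (2 * (2 * j + 1) + 1) ^ 2 = 8 * (2 * j ^ 2 + 3 * j + 1) + 1 := by ring
    omega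

private theorem sq_two (x : ℤ) : x ^ 2 % 2 = x % 2 := by
  rcases Int.even_or_odd x with ⟨j, rfl⟩ | ⟨j, rfl⟩
  · have : (j + j) ^ 2 = 2 * (2 * j ^ 2) := by ring
    omega
  · have : (2 * j + 1) ^ 2 = 2 * (2 * j ^ 2 + 2 * j) + 1 := by ring
    omega

private theorem sign_three (x : ℤ) : ∃ y : ℤ, y ^ 2 = x ^ 2 ∧ (y = x ∨ y = -x) ∧
    ((y % 3 = 0 ∧ y ^ 2 % 3 = 0) ∨ (y % 3 = 1 ∧ y ^ 2 % 3 = 1)) := by
  have h3 : x % 3 = 0 ∨ x % 3 = 1 ∨ x % 3 = 2 := by omega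
  rcases h3 with h | h | h
  · refine ⟨x, rfl, Or.inl rfl, Or.inl ⟨h, ?_⟩⟩
    obtain ⟨k, rfl⟩ : ∃ k, x = 3 * k := ⟨x / 3, by omega⟩
    have : (3 * k) ^ 2 = 3 * (3 * k ^ 2) := by ring
    omega
  · refine ⟨x, rfl, Or.inl rfl, Or.inr ⟨h, ?_⟩⟩
    obtain ⟨k, rfl⟩ : ∃ k, x = 3 * k + 1 := ⟨x / 3, by omega⟩
    have : (3 * k + 1) ^ 2 = 3 * (3 * k ^ 2 + 2 * k) + 1 := by ring
    omega
  · refine ⟨-x, by ring, Or.inr rfl, Or.inr ⟨by omega, ?_⟩⟩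
    obtain ⟨k, rfl⟩ : ∃ k, x = 3 * k + 2 := ⟨x / 3, by omega⟩
    have : (-(3 * k + 2)) ^ 2 = 3 * (3 * k ^ 2 + 4 * k + 1) + 1 := by ring
    omega

/-- signs with sum divisible by 3 -/
private theorem signs_sum_three {n u v w : ℤ} (h : n = u ^ 2 + v ^ 2 + w ^ 2) (hn3 : n % 3 ≠ 1) :
    ∃ x y z : ℤ, n = x ^ 2 + y ^ 2 + z ^ 2 ∧ (x = u ∨ x = -u) ∧ (y = v ∨ y = -v) ∧
      (z = w ∨ z = -w) ∧ (x + y + z) % 3 = 0 := by
  obtain ⟨x, hx, hx', hx3⟩ := sign_three u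
  obtain ⟨y, hy, hy', hy3⟩ := sign_three v
  obtain ⟨z, hz, hz', hz3⟩ := sign_three w
  rw [← hx, ← hy, ← hz] at h
  rcases hx3 with ⟨a1, a2⟩ | ⟨a1, a2⟩ <;> rcases hy3 with ⟨b1, b2⟩ | ⟨b1, b2⟩ <;>
    rcases hz3 with ⟨c1, c2⟩ | ⟨c1, c2⟩
  · exact ⟨x, y, z, h, hx', hy', hz', by omega⟩
  · exfalso; omega
  · exfalso; omega
  · exact ⟨x, y, -z, by rw [neg_sq]; exact h, hx', hy', by omega, by omega⟩
  · exfalso; omega
  · exact ⟨x, y, -z, by rw [neg_sq]; exact h, hx', hy', by omega, by omega⟩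
  · exact ⟨x, -y, z, by rw [neg_sq]; exact h, hx', by omega, hz', by omega⟩
  · exact ⟨x, y, z, h, hx', hy', hz', by omega⟩

private theorem finish_sign {n v1 a b u v w : ℤ} (h : n = u ^ 2 + (2 * v) ^ 2 + (2 * w) ^ 2)
    (h1 : v1 % 2 = 1) (hu : u % 2 = 1) (hv : v % 2 = a % 2) (hw : w % 2 = b % 2) :
    ∃ p q r : ℤ, n = p ^ 2 + q ^ 2 + r ^ 2 ∧ p % 4 = v1 % 4 ∧ q % 4 = (2 * a) % 4 ∧
      r % 4 = (2 * b) % 4 := by
  by_cases hc : u % 4 = v1 % 4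
  · exact ⟨u, 2 * v, 2 * w, h, hc, by omega, by omega⟩
  · exact ⟨-u, 2 * v, 2 * w, by rw [neg_sq]; exact h, by omega, by omega, by omega⟩

private theorem core_one {n v1 a b u v w : ℤ} (h : n = u ^ 2 + (2 * v) ^ 2 + (2 * w) ^ 2)
    (h1 : v1 % 2 = 1) (hu : u % 2 = 1) (hn8 : n % 8 = (1 + 4 * (a + b)) % 8) (hn3 : n % 3 ≠ 1) :
    ∃ p q r : ℤ, n = p ^ 2 + q ^ 2 + r ^ 2 ∧ p % 4 = v1 % 4 ∧ q % 4 = (2 * a) % 4 ∧
      r % 4 = (2 * b) % 4 := by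
  have e1 := odd_sq_eight hu
  have e2 := sq_two v
  have e3 := sq_two w
  have e4 : n = u ^ 2 + 4 * v ^ 2 + 4 * w ^ 2 := by rw [h]; ring
  have hpar : (v + w) % 2 = (a + b) % 2 := by omega
  by_cases c1 : v % 2 = a % 2
  · exact finish_sign h h1 hu c1 (by omega)
  by_cases c2 : v % 2 = b % 2
  · have h' : n = u ^ 2 + (2 * w) ^ 2 + (2 * v) ^ 2 := by rw [h]; ring
    exact finish_sign h' h1 hu (by omega) c2
  -- the flip
  obtain ⟨x, y, z, hxyz, hx, hy, hz, hs⟩ := signs_sum_three h hn3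
  obtain ⟨m, hm⟩ : ∃ m, x + y + z = 3 * m := ⟨(x + y + z) / 3, by omega⟩
  obtain ⟨y', rfl, hy'⟩ : ∃ y', y = 2 * y' ∧ (y' = v ∨ y' = -v) := by
    rcases hy with hy | hy
    · exact ⟨v, hy, Or.inl rfl⟩
    · exact ⟨-v, by rw [hy]; ring, Or.inr rfl⟩
  obtain ⟨z', rfl, hz'⟩ : ∃ z', z = 2 * z' ∧ (z' = w ∨ z' = -w) := by
    rcases hz with hz | hz
    · exact ⟨w, hz, Or.inl rfl⟩
    · exact ⟨-w, by rw [hz]; ring, Or.inr rfl⟩
  have hmodd : m % 2 = 1 := by omega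
  have hflip : n = (2 * m - x) ^ 2 + (2 * (m - y')) ^ 2 + (2 * (m - z')) ^ 2 := by
    have hx0 : x = 3 * m - 2 * y' - 2 * z' := by linarith
    rw [hxyz, hx0]; ring
  exact finish_sign hflip h1 (by omega) (by omega) (by omega)

/-- Three squares with prescribed residues mod 4, `v1` odd and `v2, v3` even, `n % 3 ≠ 1`.
Proof. `n % 8 = 1` or `5`, so `three_squares` gives `n = u^2+v^2+w^2` with exactly one of the
three odd; permute so that `u` is odd and `v = 2 v'`, `w = 2 w'`. Write `v2 = 2 a`, `v3 = 2 b`.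
Modulo 8: `4 (v'^2 + w'^2) = n - 1 = 4 (a^2 + b^2)`, so `v' + w' ≡ a + b mod 2`.
(i) `a + b` odd: exactly one of `v', w'` is odd and exactly one of `a, b`; exchange `v, w` if
necessary, then `v ≡ v2`, `w ≡ v3 mod 4`.
(ii) `a + b` even and `v' ≡ a mod 2`: then `w' ≡ b mod 2` and we are done.
(iii) `a + b` even and `v' ≢ a mod 2`, `w' ≢ b mod 2`: FLIP. As `n % 3 ≠ 1`, the number of
`u, v, w` not divisible by 3 is `0`, `2` or `3` (squares are 0 or 1 mod 3 and the number is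
`≡ n mod 3`), so the signs of `u, v, w` can be changed such that `S = u + v + w` is divisible
by 3 (0 nonzero: clear; 2 nonzero: opposite residues; 3 nonzero: equal residues). Put
`T = 2 S / 3`; then `(T - u)^2 + (T - v)^2 + (T - w)^2 = 3 T^2 - 2 T S + n = n`
(as `3 T = 2 S`). `S` is odd, so `T ≡ 2 mod 4`, `T - u` is odd, and `T - v = 2 (T/2 - v')` with
`T / 2` odd: the parities of `v'` and `w'` are flipped; now we are in case (ii).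
Finally change the sign of `u` such that `u ≡ v1 mod 4` (signs of even numbers do not matter
mod 4). -/
theorem ts_one {n v1 v2 v3 : ℤ} (hn : 0 < n) (h1 : v1 % 2 = 1) (h2 : v2 % 2 = 0)
    (h3 : v3 % 2 = 0) (h : n % 16 = (v1 ^ 2 + v2 ^ 2 + v3 ^ 2) % 16) (hn3 : n % 3 ≠ 1) :
    ∃ p q r : ℤ, n = p ^ 2 + q ^ 2 + r ^ 2 ∧ p % 4 = v1 % 4 ∧ q % 4 = v2 % 4 ∧ r % 4 = v3 % 4 := by
  obtain ⟨a, rfl⟩ : ∃ a, v2 = 2 * a := ⟨v2 / 2, by omega⟩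
  obtain ⟨b, rfl⟩ : ∃ b, v3 = 2 * b := ⟨v3 / 2, by omega⟩
  have e1 := odd_sq_eight h1
  have e2 := sq_two a
  have e3 := sq_two b
  have e4 : v1 ^ 2 + (2 * a) ^ 2 + (2 * b) ^ 2 = v1 ^ 2 + 4 * a ^ 2 + 4 * b ^ 2 := by ring
  rw [e4] at h
  have hn8 : n % 8 = (1 + 4 * (a + b)) % 8 := by omega
  obtain ⟨u, v, w, huvw⟩ := three_squares hn (by omega)
  have f1 : (∃ k, u = 2 * k ∧ u ^ 2 = 4 * k ^ 2) ∨ (u % 2 = 1 ∧ u ^ 2 % 8 = 1) := by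
    rcases Int.emod_two_eq_zero_or_one u with c | c
    · exact Or.inl ⟨u / 2, by omega, by
        have : u = 2 * (u / 2) := by omega
        conv_lhs => rw [this]
        ring⟩
    · exact Or.inr ⟨c, odd_sq_eight c⟩
  have f2 : (∃ k, v = 2 * k ∧ v ^ 2 = 4 * k ^ 2) ∨ (v % 2 = 1 ∧ v ^ 2 % 8 = 1) := by
    rcases Int.emod_two_eq_zero_or_one v with c | c
    · exact Or.inl ⟨v / 2, by omega, by
        have : v = 2 * (v / 2) := by omega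
        conv_lhs => rw [this]
        ring⟩
    · exact Or.inr ⟨c, odd_sq_eight c⟩
  have f3 : (∃ k, w = 2 * k ∧ w ^ 2 = 4 * k ^ 2) ∨ (w % 2 = 1 ∧ w ^ 2 % 8 = 1) := by
    rcases Int.emod_two_eq_zero_or_one w with c | c
    · exact Or.inl ⟨w / 2, by omega, by
        have : w = 2 * (w / 2) := by omega
        conv_lhs => rw [this]
        ring⟩
    · exact Or.inr ⟨c, odd_sq_eight c⟩
  rcases f1 with ⟨i, i1, i2⟩ | ⟨i1, i2⟩ <;> rcases f2 with ⟨j, j1, j2⟩ | ⟨j1, j2⟩ <;>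
    rcases f3 with ⟨k, k1, k2⟩ | ⟨k1, k2⟩
  · exfalso; omega
  · exact core_one (u := w) (v := i) (w := j) (by rw [huvw, i1, j1]; ring) h1 k1 hn8 hn3
  · exact core_one (u := v) (v := i) (w := k) (by rw [huvw, i1, k1]; ring) h1 j1 hn8 hn3
  · exfalso; omega
  · exact core_one (u := u) (v := j) (w := k) (by rw [huvw, j1, k1]) h1 i1 hn8 hn3
  · exfalso; omega
  · exfalso; omega
  · exfalso; omega

end Pool.Agent.Lib.MP_06cce2_nt
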