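import Pool.Agent.Lib.MP_06cce2_nt.H0
import Pool.Agent.Lib.MP_06cce2_nt.Span
import Pool.Agent.Lib.MP_06cce2_nt.Propor

namespace Pool.Agent.Lib.MP_06cce2_nt

open Quaternion

private theorem ts_pow {R : Type*} [Ring R] (μ : R) (s a p m : ℤ)
    (hμ : μ * μ = ((-(p * m) : ℤ) : R)) (j : ℕ) :
    ∃ E : R, s • (s • (1 : R) + a • μ) ^ j =
      (s ^ (j + 1)) • (1 : R) + ((j : ℤ) * s ^ j * a) • μ + (p * a) • E := by
  have hμ' : μ * μ = (-(p * m)) • (1 : R) := by rw [hμ, zsmul_eq_mul, mul_one]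
  induction j with
  | zero => exact ⟨0, by simp⟩
  | succ j ih =>
    obtain ⟨E, hE⟩ := ih
    refine ⟨s • E + a • (E * μ) + (-((j : ℤ) * s ^ j * a * m)) • (1 : R), ?_⟩
    rw [pow_succ, ← smul_mul_assoc, hE]
    simp only [add_mul, mul_add, smul_mul_smul_comm, one_mul, mul_one, hμ']
    push_cast
    module

private theorem ts_key {R : Type*} [Ring R] (z w g g' μ ζ Y D : R) (s a p c n m t : ℤ) (j : ℕ)
    (hμ : μ * μ = ((-(p * m) : ℤ) : R)) (hgg : g * g' = (n : R)) (hzw : z * w = (a : R) * ζ)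
    (hD : ζ - (c : R) * Y = (p : R) * D) (hY : Y = z * (g * μ * g') * w)
    (ht : n * s * c + (j : ℤ) = p * t) :
    ∃ F : R, (s : R) * (z * (g * ((s : R) + (a : R) * μ) ^ j * g') * w) =
      ((p * a : ℤ) : R) * F := by
  obtain ⟨E, hE⟩ := ts_pow μ s a p m hμ j
  have e0 : (s : R) + (a : R) * μ = s • (1 : R) + a • μ := by
    rw [zsmul_eq_mul, zsmul_eq_mul, mul_one]
  have hgg' : g * g' = n • (1 : R) := by rw [hgg, zsmul_eq_mul, mul_one]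
  have hzw' : z * w = a • ζ := by rw [hzw, zsmul_eq_mul]
  have hζ : ζ = c • Y + p • D := by
    rw [zsmul_eq_mul, zsmul_eq_mul, ← hD]
    abel
  have hj : (j : ℤ) = p * t - n * s * c := by linarith
  refine ⟨s ^ j • (t • Y + (s * n) • D) + z * (g * E * g') * w, ?_⟩
  rw [e0, ← zsmul_eq_mul, ← zsmul_eq_mul]
  have e1 : s • (z * (g * (s • (1 : R) + a • μ) ^ j * g') * w) =
      z * (g * (s • (s • (1 : R) + a • μ) ^ j) * g') * w := by
    simp only [mul_smul_comm, smul_mul_assoc]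
  have e2 : z * (g * (s • (s • (1 : R) + a • μ) ^ j) * g') * w =
      s ^ (j + 1) • (z * (g * g') * w) + ((j : ℤ) * s ^ j * a) • (z * (g * μ * g') * w) +
        (p * a) • (z * (g * E * g') * w) := by
    rw [hE]
    simp only [mul_add, add_mul, mul_smul_comm, smul_mul_assoc, mul_one]
  have e3 : z * (g * g') * w = n • a • ζ := by
    rw [hgg', mul_smul_comm, smul_mul_assoc, mul_one, hzw']
  rw [e1, e2, e3, ← hY, hζ, hj]
  module

private theorem ts_cancel {n m : ℤ} (hm : m ≠ 0) {x y : ℍ[ℤ]}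
    (h : (m : ℍ[ℤ]) * x = ((n * m : ℤ) : ℍ[ℤ]) * y) : (n : ℍ[ℤ]) ∣ x := by
  have h1 : ((n * m : ℤ) : ℍ[ℤ]) ∣ (m : ℍ[ℤ]) * x := ⟨y, h⟩
  rw [dvd_iff] at h1 ⊢
  simp only [Quaternion.re_mul, Quaternion.imI_mul, Quaternion.imJ_mul, Quaternion.imK_mul,
    Quaternion.re_intCast, Quaternion.imI_intCast, Quaternion.imJ_intCast,
    Quaternion.imK_intCast, Int.cast_id, zero_mul, sub_zero, add_zero] at h1
  have key : ∀ t : ℤ, n * m ∣ m * t → n ∣ t := fun t ht => by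
    rw [mul_comm n m] at ht
    exact (mul_dvd_mul_iff_left hm).1 ht
  exact ⟨key _ h1.1, key _ h1.2.1, key _ h1.2.2.1, key _ h1.2.2.2⟩

private theorem ts_cop {n s : ℤ} (hs : IsCoprime s n) {x y : ℍ[ℤ]}
    (h : (s : ℍ[ℤ]) * x = (n : ℍ[ℤ]) * y) : (n : ℍ[ℤ]) ∣ x := by
  have h1 : (n : ℍ[ℤ]) ∣ (s : ℍ[ℤ]) * x := ⟨y, h⟩
  rw [dvd_iff] at h1 ⊢
  simp only [Quaternion.re_mul, Quaternion.imI_mul, Quaternion.imJ_mul, Quaternion.imK_mul,
    Quaternion.re_intCast, Quaternion.imI_intCast, Quaternion.imJ_intCast,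
    Quaternion.imK_intCast, Int.cast_id, zero_mul, sub_zero, add_zero] at h1
  have key : ∀ t : ℤ, n ∣ s * t → n ∣ t := fun t ht => hs.symm.dvd_of_dvd_mul_left ht
  exact ⟨key _ h1.1, key _ h1.2.1, key _ h1.2.2.1, key _ h1.2.2.2⟩

/-- Proof. `h0_lemma` gives `l0, s, μ`; put `h0 = s + a μ`. `span_lemma` gives `g` (`Lam b g`)
with `p ∤ Y` for `Y = z * (g * μ * star g) * w`. Let `z * w = a ζ`. Apply `proportional` to
`X = ζ` and `Y`: `a (star z ζ) = star z z w = N(z) w` is divisible by `p a`, so `p ∣ star z ζ`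
(cancel `a ≠ 0`, see `dvd_iff`), in the same way `a (ζ star w) = z N(w)`;
`star z Y = N(z) (..) w`, `Y star w = z (..) N(w)`. We get `c` with `p ∣ ζ - c Y`. Choose
`j : ℕ` with `p ∣ N(g) s c + j`. Put `h = g * h0 ^ j * star g` (`Lam.mul`, `Lam.pow`, `Lam.star`).
As `(a μ)^2 = - a^2 N(μ)` (`μ` is purely imaginary) is divisible by `p a`, induction on `j` gives
`s h0^j = s^(j+1) + j s^j a μ + p a E` for some integral `E` (`h0` commutes with everything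
here). So `s z h w = s^(j+1) N(g) z w + j s^j a Y + p a (..)
= a s^j (s N(g) ζ + j Y) + p a (..)`, and `s N(g) ζ + j Y ≡ (s N(g) c + j) Y ≡ 0 mod p`. So
`p a ∣ s z h w`, and `s` is coprime to `p a`, so `p a ∣ z h w`. -/
theorem t_step {p : ℕ} (hp : p.Prime) (hp2 : p ≠ 2) (hp5 : p ≠ 5) {a : ℤ} (ha : 0 < a)
    (ha2 : a % 2 = 1) (ha5 : ¬ (5 : ℤ) ∣ a) {z w : ℍ[ℤ]}
    (hz : ¬ ((p : ℤ) : ℍ[ℤ]) ∣ z) (hw : ¬ ((p : ℤ) : ℍ[ℤ]) ∣ w)
    (hzn : (p : ℤ) * a ∣ normSq z) (hwn : (p : ℤ) * a ∣ normSq w)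
    (hzw : (a : ℍ[ℤ]) ∣ z * w) :
    ∃ l h, Lam l h ∧ (((p : ℤ) * a : ℤ) : ℍ[ℤ]) ∣ z * h * w := by
  obtain ⟨l0, s, μ, hL, hμ0, hμp, hμn, hcop⟩ := h0_lemma hp hp2 hp5 ha ha2 ha5
  have hpz : (p : ℤ) ∣ normSq z := (Dvd.intro _ rfl).trans hzn
  have hpw : (p : ℤ) ∣ normSq w := (Dvd.intro _ rfl).trans hwn
  obtain ⟨b, g, hg, hYp⟩ := span_lemma hp hp2 hz hw hpz hpw hμ0 hμp
  obtain ⟨ζ, hζ⟩ := hzw
  have ha0 : a ≠ 0 := ha.ne'
  have hp0 : (0 : ℤ) < p := by exact_mod_cast hp.pos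
  have castdvd : ∀ {u v : ℤ}, u ∣ v → (u : ℍ[ℤ]) ∣ (v : ℍ[ℤ]) := by
    rintro u _ ⟨v, rfl⟩
    exact ⟨(v : ℍ[ℤ]), by push_cast; rfl⟩
  obtain ⟨Y, hY⟩ : ∃ Y, Y = z * (g * μ * star g) * w := ⟨_, rfl⟩
  rw [← hY] at hYp
  have hX1 : ((p : ℤ) : ℍ[ℤ]) ∣ star z * ζ := by
    obtain ⟨m, hm⟩ := hzn
    refine ts_cancel (n := (p : ℤ)) (m := a) ha0 (y := (m : ℍ[ℤ]) * w) ?_
    rw [← mul_assoc, Int.cast_comm a (star z), mul_assoc, ← hζ, ← mul_assoc, star_mul_self', hm,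
      ← mul_assoc, ← Int.cast_mul]
  have hX2 : ((p : ℤ) : ℍ[ℤ]) ∣ ζ * star w := by
    obtain ⟨m, hm⟩ := hwn
    refine ts_cancel (n := (p : ℤ)) (m := a) ha0 (y := (m : ℍ[ℤ]) * z) ?_
    rw [← mul_assoc, ← hζ, mul_assoc, self_mul_star', hm, ← Int.cast_comm, ← mul_assoc,
      ← Int.cast_mul]
  have hY1 : ((p : ℤ) : ℍ[ℤ]) ∣ star z * Y := by
    have e : star z * Y = ((normSq z : ℤ) : ℍ[ℤ]) * ((g * μ * star g) * w) := by
      rw [hY, ← star_mul_self']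
      simp only [mul_assoc]
    rw [e]
    exact (castdvd hpz).mul_right _
  have hY2 : ((p : ℤ) : ℍ[ℤ]) ∣ Y * star w := by
    have e : Y * star w = (z * (g * μ * star g)) * ((normSq w : ℤ) : ℍ[ℤ]) := by
      rw [hY, ← self_mul_star']
      simp only [mul_assoc]
    rw [e]
    exact dvd_mul_left' _ _ (castdvd hpw)
  obtain ⟨c, D, hD⟩ := proportional hp hp2 hz hw hX1 hX2 hY1 hY2 hYp
  obtain ⟨m, hm⟩ := hμn
  obtain ⟨j, t, ht⟩ : ∃ (j : ℕ) (t : ℤ), normSq g * s * c + (j : ℤ) = (p : ℤ) * t := by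
    refine ⟨((-(normSq g * s * c)) % (p : ℤ)).toNat, -((-(normSq g * s * c)) / (p : ℤ)), ?_⟩
    rw [Int.toNat_of_nonneg (Int.emod_nonneg _ hp0.ne')]
    have := Int.emod_add_mul_ediv (-(normSq g * s * c)) (p : ℤ)
    linarith
  have hμμ : μ * μ = ((-((p : ℤ) * m) : ℤ) : ℍ[ℤ]) := by
    have h1 : star μ = -μ := by
      ext
      · simp [hμ0]
      · simp
      · simp
      · simp
    have h2 := self_mul_star' μ
    rw [h1, mul_neg, hm] at h2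
    rw [Int.cast_neg, ← h2, neg_neg]
  obtain ⟨F, hF⟩ := ts_key z w g (star g) μ ζ Y D s a (p : ℤ) c (normSq g) m t j hμμ
    (self_mul_star' g) hζ hD hY ht
  exact ⟨b + l0 * j + b, g * ((s : ℍ[ℤ]) + (a : ℍ[ℤ]) * μ) ^ j * star g,
    (hg.mul (hL.pow j)).mul hg.star, ts_cop hcop hF⟩

end Pool.Agent.Lib.MP_06cce2_nt
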