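import Mathlib

/-!
Positive definite integral ternary forms of determinant one are sums of three squares of integral
linear forms (classical reduction).
-/

namespace Pool.Agent.Lib.MP_06cce2_nt

/-- There are three integer vectors with Gram matrix `[[a,h,g],[h,b,f],[g,f,c]]`. -/
def SOS (a b c f g h : ℤ) : Prop :=
  ∃ p1 q1 r1 p2 q2 r2 p3 q3 r3 : ℤ,
    p1 ^ 2 + q1 ^ 2 + r1 ^ 2 = a ∧ p2 ^ 2 + q2 ^ 2 + r2 ^ 2 = b ∧ p3 ^ 2 + q3 ^ 2 + r3 ^ 2 = c ∧
    p2 * p3 + q2 * q3 + r2 * r3 = f ∧ p1 * p3 + q1 * q3 + r1 * r3 = g ∧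
    p1 * p2 + q1 * q2 + r1 * r2 = h

theorem SOS.swap12 {a b c f g h : ℤ} (H : SOS b a c g f h) : SOS a b c f g h := by
  obtain ⟨p1, q1, r1, p2, q2, r2, p3, q3, r3, h1, h2, h3, h4, h5, h6⟩ := H
  exact ⟨p2, q2, r2, p1, q1, r1, p3, q3, r3, h2, h1, h3, h5, h4, by linarith⟩

theorem SOS.swap23 {a b c f g h : ℤ} (H : SOS a c b f h g) : SOS a b c f g h := by
  obtain ⟨p1, q1, r1, p2, q2, r2, p3, q3, r3, h1, h2, h3, h4, h5, h6⟩ := H
  exact ⟨p1, q1, r1, p3, q3, r3, p2, q2, r2, h1, h3, h2, by linarith, h6, h5⟩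

theorem SOS.shift32 {a b c f g h : ℤ} (k : ℤ)
    (H : SOS a b (c + 2 * k * f + k ^ 2 * b) (f + k * b) (g + k * h) h) : SOS a b c f g h := by
  obtain ⟨p1, q1, r1, p2, q2, r2, p3, q3, r3, h1, h2, h3, h4, h5, h6⟩ := H
  refine ⟨p1, q1, r1, p2, q2, r2, p3 - k * p2, q3 - k * q2, r3 - k * r2, h1, h2, ?_, ?_, ?_, h6⟩
  · linear_combination h3 - 2 * k * h4 + k ^ 2 * h2
  · linear_combination h4 - k * h2
  · linear_combination h5 - k * h6

theorem SOS.shift21 {a b c f g h : ℤ} (k : ℤ)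
    (H : SOS a (b + 2 * k * h + k ^ 2 * a) c (f + k * g) g (h + k * a)) : SOS a b c f g h := by
  obtain ⟨p1, q1, r1, p2, q2, r2, p3, q3, r3, h1, h2, h3, h4, h5, h6⟩ := H
  refine ⟨p1, q1, r1, p2 - k * p1, q2 - k * q1, r2 - k * r1, p3, q3, r3, h1, ?_, h3, ?_, h5, ?_⟩
  · linear_combination h2 - 2 * k * h6 + k ^ 2 * h1
  · linear_combination h4 - k * h5
  · linear_combination h6 - k * h1

/-- A shift bringing `B` close to zero. -/
theorem exists_shift (A B : ℤ) (hA : 0 < A) : ∃ k : ℤ, 2 * (B + k * A) ≤ A ∧ -A ≤ 2 * (B + k * A) := by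
  refine ⟨-((2 * B + A) / (2 * A)), ?_⟩
  have h1 := Int.emod_add_mul_ediv (2 * B + A) (2 * A)
  have h2 := Int.emod_nonneg (2 * B + A) (by omega : (2 * A : ℤ) ≠ 0)
  have h3 := Int.emod_lt_of_pos (2 * B + A) (by omega : 0 < 2 * A)
  constructor <;> nlinarith

theorem red_bound {A B C a : ℤ} (hA : 0 < A) (hAC : A ≤ C) (h : A * C = a + B ^ 2)
    (h1 : 2 * B ≤ A) (h2 : -A ≤ 2 * B) : 3 * A ^ 2 ≤ 4 * a := by
  have e1 : 0 ≤ (A - 2 * B) * (A + 2 * B) := mul_nonneg (by linarith) (by linarith)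
  have e2 : A * A ≤ A * C := mul_le_mul_of_nonneg_left hAC hA.le
  nlinarith

theorem red_final {a A : ℤ} (ha : 0 < a) (hA : 0 < A) (h1 : 3 * a ^ 2 ≤ 4 * A)
    (h2 : 3 * A ^ 2 ≤ 4 * a) : a = 1 ∧ A = 1 := by
  rcases le_total a A with h | h
  · have : A = 1 := by nlinarith
    constructor <;> omega
  · have : a = 1 := by nlinarith
    constructor <;> omega

theorem sos_aux (N : ℕ) : ∀ M : ℕ, ∀ a b c f g h : ℤ, a = N → a * b - h ^ 2 = M → 0 < a →
    0 < a * b - h ^ 2 → a * b * c + 2 * f * g * h - a * f ^ 2 - b * g ^ 2 - c * h ^ 2 = 1 →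
    SOS a b c f g h := by
  induction N using Nat.strong_induction_on with
  | _ N ihN =>
  intro M
  induction M using Nat.strong_induction_on with
  | _ M ihM =>
  intro a b c f g h haN hAM ha hA hD
  obtain ⟨k, hk1, hk2⟩ := exists_shift (a * b - h ^ 2) (a * f - g * h) hA
  apply SOS.shift32 k
  obtain ⟨c', hc'⟩ : ∃ c', c' = c + 2 * k * f + k ^ 2 * b := ⟨_, rfl⟩
  obtain ⟨f', hf'⟩ : ∃ f', f' = f + k * b := ⟨_, rfl⟩
  obtain ⟨g', hg'⟩ : ∃ g', g' = g + k * h := ⟨_, rfl⟩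
  rw [← hc', ← hf', ← hg']
  have hB : a * f' - g' * h = a * f - g * h + k * (a * b - h ^ 2) := by rw [hf', hg']; ring
  rw [← hB] at hk1 hk2
  have hD' : a * b * c' + 2 * f' * g' * h - a * f' ^ 2 - b * g' ^ 2 - c' * h ^ 2 = 1 := by
    rw [hc', hf', hg']; linear_combination hD
  have hAC : (a * b - h ^ 2) * (a * c' - g' ^ 2) = a + (a * f' - g' * h) ^ 2 := by
    linear_combination a * hD'
  have hCpos : 0 < a * c' - g' ^ 2 := by
    have : 0 < (a * b - h ^ 2) * (a * c' - g' ^ 2) := by rw [hAC]; positivity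
    exact (pos_iff_pos_of_mul_pos this).1 hA
  by_cases hCA : a * c' - g' ^ 2 < a * b - h ^ 2
  · apply SOS.swap23
    refine ihM (a * c' - g' ^ 2).toNat ?_ a c' b f' h g' haN ?_ ha hCpos ?_
    · omega
    · rw [Int.toNat_of_nonneg hCpos.le]
    · linear_combination hD'
  push Not at hCA
  have h3A : 3 * (a * b - h ^ 2) ^ 2 ≤ 4 * a := red_bound hA hCA hAC hk1 hk2
  obtain ⟨k2, hk3, hk4⟩ := exists_shift a h ha
  apply SOS.shift21 k2
  obtain ⟨b', hb'⟩ : ∃ b', b' = b + 2 * k2 * h + k2 ^ 2 * a := ⟨_, rfl⟩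
  obtain ⟨f'', hf''⟩ : ∃ f'', f'' = f' + k2 * g' := ⟨_, rfl⟩
  obtain ⟨h', hh'⟩ : ∃ h', h' = h + k2 * a := ⟨_, rfl⟩
  rw [← hb', ← hf'', ← hh']
  rw [← hh'] at hk3 hk4
  have hA' : a * b' - h' ^ 2 = a * b - h ^ 2 := by rw [hb', hh']; ring
  have hD'' : a * b' * c' + 2 * f'' * g' * h' - a * f'' ^ 2 - b' * g' ^ 2 - c' * h' ^ 2 = 1 := by
    rw [hb', hf'', hh']; linear_combination hD'
  have hB' : a * f'' - g' * h' = a * f' - g' * h := by rw [hf'', hh']; ring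
  rw [← hA'] at hA h3A hCA hAC hk1 hk2
  rw [← hB'] at hAC hk1 hk2
  by_cases hba : b' < a
  · apply SOS.swap12
    have hb'pos : 0 < b' := by
      have : 0 < a * b' := by nlinarith
      exact (pos_iff_pos_of_mul_pos this).1 ha
    refine ihN b'.toNat ?_ (a * b' - h' ^ 2).toNat b' a c' g' f'' h' ?_ ?_ hb'pos ?_ ?_
    · omega
    · rw [Int.toNat_of_nonneg hb'pos.le]
    · rw [Int.toNat_of_nonneg hA.le]; ring
    · linarith
    · linear_combination hD''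
  push Not at hba
  have h3a : 3 * a ^ 2 ≤ 4 * (a * b' - h' ^ 2) :=
    red_bound (B := h') ha hba (by ring) hk3 hk4
  obtain ⟨ha1, hAone⟩ := red_final ha hA h3a h3A
  subst ha1
  have hh0 : h' = 0 := by omega
  subst hh0
  have hb1 : b' = 1 := by linarith
  subst hb1
  have hf0 : f'' = 0 := by
    have h1 : 2 * (1 * f'' - g' * 0) ≤ 1 := by linarith
    have h2 : -1 ≤ 2 * (1 * f'' - g' * 0) := by linarith
    omega
  subst hf0
  have hc1 : c' = 1 + g' ^ 2 := by linarith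
  exact ⟨1, 0, 0, 0, 1, 0, g', 0, 1, by norm_num, by norm_num, by rw [hc1]; ring, by ring, by ring,
    by ring⟩

theorem sos {a b c f g h : ℤ} (ha : 0 < a) (hA : 0 < a * b - h ^ 2)
    (hD : a * b * c + 2 * f * g * h - a * f ^ 2 - b * g ^ 2 - c * h ^ 2 = 1) :
    SOS a b c f g h :=
  sos_aux a.toNat (a * b - h ^ 2).toNat a b c f g h (Int.toNat_of_nonneg ha.le).symm
    (Int.toNat_of_nonneg hA.le).symm ha hA hD

/-- Dirichlet's criterion. -/
theorem sum_three_of_residue {n d m x : ℤ} (hd : 0 < d) (hm : 0 < m) (hmn : m = d * n - 1)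
    (hx : m ∣ x ^ 2 + d) : ∃ u v w : ℤ, n = u ^ 2 + v ^ 2 + w ^ 2 := by
  obtain ⟨a, ha⟩ := hx
  have hapos : 0 < a := by
    have : 0 < m * a := by rw [← ha]; positivity
    exact (pos_iff_pos_of_mul_pos this).1 hm
  have hA : a * m - x ^ 2 = d := by linarith
  obtain ⟨p1, q1, r1, p2, q2, r2, p3, q3, r3, h1, h2, h3, h4, h5, h6⟩ :=
    sos (a := a) (b := m) (c := n) (f := 0) (g := 1) (h := x) hapos (by rw [hA]; exact hd)
      (by linear_combination n * hA - hmn)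
  exact ⟨p3, q3, r3, h3.symm⟩

end Pool.Agent.Lib.MP_06cce2_nt
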