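import Pool.Agent.Lib.MP_06cce2_nt.TStep

namespace Pool.Agent.Lib.MP_06cce2_nt

open Quaternion

private theorem trans_cancel0 {p M : ℤ} (hco : IsCoprime p M) {w : ℍ[ℤ]}
    (h : (p : ℍ[ℤ]) ∣ (M : ℍ[ℤ]) * w) : (p : ℍ[ℤ]) ∣ w := by
  rw [dvd_iff] at h ⊢
  obtain ⟨h1, h2, h3, h4⟩ := h
  refine ⟨hco.dvd_of_dvd_mul_left ?_, hco.dvd_of_dvd_mul_left ?_, hco.dvd_of_dvd_mul_left ?_,
    hco.dvd_of_dvd_mul_left ?_⟩
  · simpa using h1
  · simpa using h2
  · simpa using h3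
  · simpa using h4

private theorem trans_cancel {p : ℕ} (hp : p.Prime) (hp5 : p ≠ 5) (l : ℕ) {w : ℍ[ℤ]}
    (h : ((p : ℤ) : ℍ[ℤ]) ∣ (((5 : ℤ) ^ l : ℤ) : ℍ[ℤ]) * w) : ((p : ℤ) : ℍ[ℤ]) ∣ w := by
  have hco : IsCoprime (p : ℤ) ((5 : ℤ) ^ l) := by
    refine IsCoprime.pow_right ?_
    have h5 : Nat.Prime 5 := by norm_num
    exact Nat.isCoprime_iff_coprime.2 ((Nat.coprime_primes hp h5).2 hp5)
  exact trans_cancel0 hco h

private theorem trans_nat {z w : ℍ[ℤ]} (n : ℕ) : 0 < n → (n : ℤ) % 2 = 1 → ¬ (5 : ℤ) ∣ (n : ℤ) →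
    (∀ p : ℕ, p.Prime → (p : ℤ) ∣ (n : ℤ) → ¬ ((p : ℤ) : ℍ[ℤ]) ∣ z) →
    (∀ p : ℕ, p.Prime → (p : ℤ) ∣ (n : ℤ) → ¬ ((p : ℤ) : ℍ[ℤ]) ∣ w) →
    (n : ℤ) ∣ normSq z → (n : ℤ) ∣ normSq w →
    ∃ l h, Lam l h ∧ (((n : ℤ)) : ℍ[ℤ]) ∣ z * h * w := by
  induction n using Nat.strong_induction_on with
  | _ n ih =>
    intro hn h2 h5 hz hw hzn hwn
    rcases Nat.eq_or_lt_of_le hn with h1 | h1
    · refine ⟨0, 1, Lam.one, ?_⟩
      rw [← h1]
      exact ⟨z * 1 * w, by simp⟩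
    · obtain ⟨a, ha⟩ := Nat.minFac_dvd n
      set p := n.minFac with hpdef
      have hp : p.Prime := Nat.minFac_prime (by omega)
      have ha0 : 0 < a := by
        rcases Nat.eq_zero_or_pos a with h | h
        · rw [h, mul_zero] at ha
          omega
        · exact h
      have han : a < n := by
        rw [ha]
        have := hp.two_le
        nlinarith
      have hpn : (p : ℤ) ∣ (n : ℤ) := ⟨a, by rw [ha]; push_cast; ring⟩
      have hadvd : (a : ℤ) ∣ (n : ℤ) := ⟨p, by rw [ha]; push_cast; ring⟩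
      have hcast : (n : ℤ) = (p : ℤ) * (a : ℤ) := by rw [ha]; push_cast; ring
      have hp2 : p ≠ 2 := by
        intro h
        rw [h] at hpn
        have := Int.emod_eq_zero_of_dvd hpn
        push_cast at this
        omega
      have hp5 : p ≠ 5 := by
        intro h
        apply h5
        rw [h] at hpn
        exact_mod_cast hpn
      have ha2 : (a : ℤ) % 2 = 1 := by
        rcases Int.emod_two_eq_zero_or_one (a : ℤ) with h | h
        · exfalso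
          have h3 : (2 : ℤ) ∣ (n : ℤ) := (Int.dvd_of_emod_eq_zero h).trans hadvd
          have := Int.emod_eq_zero_of_dvd h3
          omega
        · exact h
      have ha5 : ¬ (5 : ℤ) ∣ (a : ℤ) := fun h => h5 (h.trans hadvd)
      obtain ⟨l1, k1, hk1, hd1⟩ := ih a han ha0 ha2 ha5
        (fun q hq hqa => hz q hq (hqa.trans hadvd)) (fun q hq hqa => hw q hq (hqa.trans hadvd))
        (hadvd.trans hzn) (hadvd.trans hwn)
      have hw' : ¬ ((p : ℤ) : ℍ[ℤ]) ∣ k1 * w := by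
        intro h
        apply hw p hp hpn
        refine trans_cancel hp hp5 l1 ?_
        have h3 := dvd_mul_left' (p : ℤ) (star k1) h
        rw [← mul_assoc, star_mul_self', hk1.1] at h3
        exact h3
      have hwn' : (p : ℤ) * (a : ℤ) ∣ normSq (k1 * w) := by
        rw [map_mul, ← hcast]
        exact hwn.mul_left _
      obtain ⟨l2, k2, hk2, hd2⟩ := t_step hp hp2 hp5 (a := (a : ℤ)) (by exact_mod_cast ha0) ha2 ha5
        (hz p hp hpn) hw' (by rw [← hcast]; exact hzn) hwn' (by rw [← mul_assoc]; exact hd1)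
      refine ⟨l2 + l1, k2 * k1, hk2.mul hk1, ?_⟩
      rw [hcast]
      have h3 : z * (k2 * k1) * w = z * k2 * (k1 * w) := by
        simp only [mul_assoc]
      rw [h3]
      exact hd2

/-- Proof. Induction on the natural number `mo` with one prime factor split off in each step
(e.g. `Nat.strong_induction_on` or `induction_on_primes`), for all `w` simultaneously, `z` fixed.
`mo = 1`: `h = 1` (`Lam.one`). `mo = p a` with `p` prime: by induction for `a` (same `z, w`)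
there is `h1`, `Lam l1 h1`, `a ∣ z * h1 * w`. Put `w' = h1 * w`: `p ∤ w'` because
`star h1 * w' = 5^l1 w` and `p ≠ 5`, `p ∤ w`; `N(w') = 5^l1 N(w)` is divisible by `p a`;
`a ∣ z * w'`. `t_step` gives `h2` with `p a ∣ z * h2 * w'`; take `h = h2 * h1`. -/
theorem trans {mo : ℤ} (hmo : 0 < mo) (h2 : mo % 2 = 1) (h5 : ¬ (5 : ℤ) ∣ mo) {z w : ℍ[ℤ]}
    (hz : ∀ p : ℕ, p.Prime → (p : ℤ) ∣ mo → ¬ ((p : ℤ) : ℍ[ℤ]) ∣ z)
    (hw : ∀ p : ℕ, p.Prime → (p : ℤ) ∣ mo → ¬ ((p : ℤ) : ℍ[ℤ]) ∣ w)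
    (hzn : mo ∣ normSq z) (hwn : mo ∣ normSq w) :
    ∃ l h, Lam l h ∧ (mo : ℍ[ℤ]) ∣ z * h * w := by
  obtain ⟨n, rfl⟩ := Int.eq_ofNat_of_zero_le hmo.le
  exact trans_nat n (by exact_mod_cast hmo) h2 h5 hz hw hzn hwn

end Pool.Agent.Lib.MP_06cce2_nt
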