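import Pool.Agent.Lib.MP_06cce2_nt.MatDefs
import Pool.Agent.Lib.MP_06cce2_nt.Defs

namespace Pool.Agent.Lib.MP_06cce2_nt

open Matrix Complex Quaternion

/-- the map from integral quaternions: `i ↦ iX`, `j ↦ iY`, `k ↦ -iZ` (multiplicative, since
`(iX)(iY) = -iZ`) -/
noncomputable def qmat (x : ℍ[ℤ]) : M2 := mat (x.re : ℝ) (x.imI : ℝ) (x.imJ : ℝ) (-(x.imK : ℝ))

/-- entrywise computation -/
theorem qmat_mul (x y : ℍ[ℤ]) : qmat (x * y) = qmat x * qmat y := by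
  ext i j
  fin_cases i <;> fin_cases j <;>
    simp [qmat, mat, PX, PY, PZ, Matrix.mul_apply, Fin.sum_univ_two] <;>
    apply Complex.ext <;> simp <;> ring

private theorem words_zmod : ∀ a b c d : ZMod 5, a ^ 2 + b ^ 2 + c ^ 2 + d ^ 2 = 0 →
    (b - 2 * a = 0 ∧ d - 2 * c = 0) ∨ (b + 2 * a = 0 ∧ d + 2 * c = 0) ∨
    (c - 2 * a = 0 ∧ b - 2 * d = 0) ∨ (c + 2 * a = 0 ∧ b + 2 * d = 0) ∨
    (d - 2 * a = 0 ∧ c - 2 * b = 0) ∨ (d + 2 * a = 0 ∧ c + 2 * b = 0) := by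
  decide +kernel

/-- a quaternion whose norm is divisible by 5 is left divisible by one of the six elements
`1 ± 2i, 1 ± 2j, 1 ± 2k`.
Proof: `star v * x ≡ 0 mod 5` for one of the six `v` is a finite check over `(ZMod 5)^4`
(`decide` on the coordinates; e.g. `v = 1 + 2i` works iff `b ≡ 2a`, `c ≡ 2d` mod 5 up to sign
conventions), then `x = v * y` with `5 y = star v * x`, as `v * star v = 5`. -/
theorem exists_factor {x : ℍ[ℤ]} (h : (5 : ℤ) ∣ normSq x) :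
    ∃ v y : ℍ[ℤ], x = v * y ∧ (v = qm 1 2 0 0 ∨ v = qm 1 (-2) 0 0 ∨ v = qm 1 0 2 0 ∨
      v = qm 1 0 (-2) 0 ∨ v = qm 1 0 0 2 ∨ v = qm 1 0 0 (-2)) := by
  rw [normSq_eq] at h
  obtain ⟨a, b, c, d⟩ := x
  dsimp only at h
  have hd : ∀ t : ℤ, ((t : ℤ) : ZMod 5) = 0 → ∃ m, t = 5 * m := fun t ht =>
    (ZMod.intCast_zmod_eq_zero_iff_dvd t 5).1 ht
  have h0 : (a : ZMod 5) ^ 2 + (b : ZMod 5) ^ 2 + (c : ZMod 5) ^ 2 + (d : ZMod 5) ^ 2 = 0 := by
    have := (ZMod.intCast_zmod_eq_zero_iff_dvd (a ^ 2 + b ^ 2 + c ^ 2 + d ^ 2) 5).2 h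
    push_cast at this
    exact this
  rcases words_zmod _ _ _ _ h0 with ⟨h1, h2⟩ | ⟨h1, h2⟩ | ⟨h1, h2⟩ | ⟨h1, h2⟩ | ⟨h1, h2⟩ | ⟨h1, h2⟩
  · obtain ⟨m, hm⟩ := hd (b - 2 * a) (by push_cast; exact h1)
    obtain ⟨n, hn⟩ := hd (d - 2 * c) (by push_cast; exact h2)
    refine ⟨qm 1 2 0 0, qm (a + 2 * m) m (c + 2 * n) n, ?_, Or.inl rfl⟩
    ext <;> simp <;> linarith
  · obtain ⟨m, hm⟩ := hd (b + 2 * a) (by push_cast; exact h1)
    obtain ⟨n, hn⟩ := hd (d + 2 * c) (by push_cast; exact h2)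
    refine ⟨qm 1 (-2) 0 0, qm (a - 2 * m) m (c - 2 * n) n, ?_, Or.inr (Or.inl rfl)⟩
    ext <;> simp <;> linarith
  · obtain ⟨m, hm⟩ := hd (c - 2 * a) (by push_cast; exact h1)
    obtain ⟨n, hn⟩ := hd (b - 2 * d) (by push_cast; exact h2)
    refine ⟨qm 1 0 2 0, qm (a + 2 * m) n m (d + 2 * n), ?_, Or.inr (Or.inr (Or.inl rfl))⟩
    ext <;> simp <;> linarith
  · obtain ⟨m, hm⟩ := hd (c + 2 * a) (by push_cast; exact h1)
    obtain ⟨n, hn⟩ := hd (b + 2 * d) (by push_cast; exact h2)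
    refine ⟨qm 1 0 (-2) 0, qm (a - 2 * m) n m (d - 2 * n), ?_,
      Or.inr (Or.inr (Or.inr (Or.inl rfl)))⟩
    ext <;> simp <;> linarith
  · obtain ⟨m, hm⟩ := hd (d - 2 * a) (by push_cast; exact h1)
    obtain ⟨n, hn⟩ := hd (c - 2 * b) (by push_cast; exact h2)
    refine ⟨qm 1 0 0 2, qm (a + 2 * m) (b + 2 * n) n m, ?_,
      Or.inr (Or.inr (Or.inr (Or.inr (Or.inl rfl))))⟩
    ext <;> simp <;> linarith
  · obtain ⟨m, hm⟩ := hd (d + 2 * a) (by push_cast; exact h1)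
    obtain ⟨n, hn⟩ := hd (c + 2 * b) (by push_cast; exact h2)
    refine ⟨qm 1 0 0 (-2), qm (a - 2 * m) (b - 2 * n) n m, ?_,
      Or.inr (Or.inr (Or.inr (Or.inr (Or.inr rfl))))⟩
    ext <;> simp <;> linarith

/-- `(1/√5) qmat v` is in the V-basis for each of the six `v`. -/
theorem vbasis_of {v : ℍ[ℤ]} (h : v = qm 1 2 0 0 ∨ v = qm 1 (-2) 0 0 ∨ v = qm 1 0 2 0 ∨
      v = qm 1 0 (-2) 0 ∨ v = qm 1 0 0 2 ∨ v = qm 1 0 0 (-2)) :
    (1 / (Real.sqrt 5 : ℂ)) • qmat v ∈ VBasis := by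
  rcases h with rfl | rfl | rfl | rfl | rfl | rfl
  · refine ⟨PX, Or.inl rfl, Or.inl ?_⟩
    congr 1
    ext i j
    fin_cases i <;> fin_cases j <;> simp [qmat, mat, PX, PY, PZ] <;> ring
  · refine ⟨PX, Or.inl rfl, Or.inr ?_⟩
    congr 1
    ext i j
    fin_cases i <;> fin_cases j <;> simp [qmat, mat, PX, PY, PZ] <;> ring
  · refine ⟨PY, Or.inr (Or.inl rfl), Or.inl ?_⟩
    congr 1
    ext i j
    fin_cases i <;> fin_cases j <;> simp [qmat, mat, PX, PY, PZ] <;> ring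
  · refine ⟨PY, Or.inr (Or.inl rfl), Or.inr ?_⟩
    congr 1
    ext i j
    fin_cases i <;> fin_cases j <;> simp [qmat, mat, PX, PY, PZ] <;> ring
  · refine ⟨PZ, Or.inr (Or.inr rfl), Or.inr ?_⟩
    congr 1
    ext i j
    fin_cases i <;> fin_cases j <;> simp [qmat, mat, PX, PY, PZ] <;> ring
  · refine ⟨PZ, Or.inr (Or.inr rfl), Or.inl ?_⟩
    congr 1
    ext i j
    fin_cases i <;> fin_cases j <;> simp [qmat, mat, PX, PY, PZ] <;> ring

private theorem words_six {v : ℍ[ℤ]} (h : v = qm 1 2 0 0 ∨ v = qm 1 (-2) 0 0 ∨ v = qm 1 0 2 0 ∨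
      v = qm 1 0 (-2) 0 ∨ v = qm 1 0 0 2 ∨ v = qm 1 0 0 (-2)) : normSq v = 5 ∧ Par 1 v := by
  rcases h with rfl | rfl | rfl | rfl | rfl | rfl <;>
    refine ⟨by rw [normSq_eq]; simp, ?_, ?_, ?_, ?_⟩ <;> simp

private theorem words_cast (n : ℤ) (y : ℍ[ℤ]) : ((n : ℍ[ℤ]) * y).re = n * y.re ∧
    ((n : ℍ[ℤ]) * y).imI = n * y.imI ∧ ((n : ℍ[ℤ]) * y).imJ = n * y.imJ ∧
    ((n : ℍ[ℤ]) * y).imK = n * y.imK := by
  simp

private theorem words_one : qmat 1 = 1 := by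
  ext i j
  fin_cases i <;> fin_cases j <;> simp [qmat, mat, PX, PY, PZ]

/-- Words. Proof: induction on `l`. `l = 0`: norm 1 and real part `1 mod 4` force `x = 1`.
`l + 1`: `exists_factor` gives `x = v * y`, `N(y) = 5^l`, and `Par 1 y`: `5 y = star v * x`
(`v * star v = 5`), so `Par 1 (5 y)` by `Par.mul` and hence `Par 1 y`. Use `vbasis_of`,
`qmat_mul`. -/
theorem words (l : ℕ) : ∀ x : ℍ[ℤ], Lam l x → ∃ u : List M2, (∀ A ∈ u, A ∈ VBasis) ∧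
    u.length = l ∧ ((Real.sqrt 5 : ℝ) : ℂ) ^ l • u.prod = qmat x := by
  have h5 : ((Real.sqrt 5 : ℝ) : ℂ) ≠ 0 := by
    rw [Ne, Complex.ofReal_eq_zero]
    positivity
  induction l with
  | zero =>
    intro x hx
    obtain ⟨h1, h2, h3, h4, h6⟩ := hx
    rw [normSq_eq] at h1
    have hre : x.re = 1 := by
      have : x.re ^ 2 ≤ 1 := by nlinarith [sq_nonneg x.imI, sq_nonneg x.imJ, sq_nonneg x.imK]
      have h7 : x.re ≤ 1 := by nlinarith
      have h8 : -1 ≤ x.re := by nlinarith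
      omega
    rw [hre] at h1
    have hi : x.imI = 0 := by nlinarith [sq_nonneg x.imI, sq_nonneg x.imJ, sq_nonneg x.imK]
    have hj : x.imJ = 0 := by nlinarith [sq_nonneg x.imI, sq_nonneg x.imJ, sq_nonneg x.imK]
    have hk : x.imK = 0 := by nlinarith [sq_nonneg x.imI, sq_nonneg x.imJ, sq_nonneg x.imK]
    have hx1 : x = 1 := by
      ext <;> simp [hre, hi, hj, hk]
    refine ⟨[], by simp, rfl, ?_⟩
    rw [hx1, words_one]
    simp
  | succ l ih =>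
    intro x hx
    have hdvd : (5 : ℤ) ∣ normSq x := by
      rw [hx.1, pow_succ]
      exact dvd_mul_left 5 _
    obtain ⟨v, y, hxy, hv⟩ := exists_factor hdvd
    obtain ⟨hv5, hvp⟩ := words_six hv
    have hny : normSq y = 5 ^ l := by
      have h1 := hx.1
      rw [hxy, map_mul, hv5, pow_succ, mul_comm] at h1
      exact mul_right_cancel₀ (by norm_num : (5 : ℤ) ≠ 0) h1
    have hyp : Par 1 y := by
      have h1 : Par (1 * 1) (star v * x) := hvp.star.mul hx.par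
      have h2 : star v * x = ((5 : ℤ) : ℍ[ℤ]) * y := by
        rw [hxy, ← mul_assoc, star_mul_self', hv5]
      rw [h2] at h1
      obtain ⟨g1, g2, g3, g4⟩ := h1
      obtain ⟨m1, m2, m3, m4⟩ := words_cast 5 y
      rw [m1] at g1
      rw [m2] at g2
      rw [m3] at g3
      rw [m4] at g4
      exact ⟨by omega, by omega, by omega, by omega⟩
    obtain ⟨u, hu1, hu2, hu3⟩ := ih y (Lam.of hny hyp)
    refine ⟨((1 / (Real.sqrt 5 : ℂ)) • qmat v) :: u, ?_, by simp [hu2], ?_⟩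
    · intro A hA
      rcases List.mem_cons.1 hA with rfl | hA
      · exact vbasis_of hv
      · exact hu1 A hA
    · rw [List.prod_cons, hxy, qmat_mul, ← hu3, smul_mul_assoc, smul_smul, mul_smul_comm]
      congr 1
      rw [pow_succ]
      field_simp

end Pool.Agent.Lib.MP_06cce2_nt
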